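import Mathlib
import Pool.Agent.MP_6cbfb8_an.LiftF
import Pool.Agent.MP_6cbfb8_an.PlanarLp

/-!
# [HB] Stein's conjecture for boundary values of bounded holomorphic functions

Definitions. `R^(2m)` is identified with `C^m` by `x ↦ (x_i + i x_(m+i))_i`.
-/

namespace Pool.Agent.HB

open MeasureTheory Set Pool.Agent.MP_6cbfb8_an
open scoped ENNReal Real ComplexConjugate

/-- `C^m` with its Hermitian structure. -/
abbrev EC (m : ℕ) : Type := EuclideanSpace ℂ (Fin m)

/-- The point `(x_i + i x_(m+i))_i` of `C^m`. -/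
noncomputable def cpx {m : ℕ} (x : E (m + m)) : EC m :=
  WithLp.toLp 2 fun i => (⟨x (Fin.castAdd m i), x (Fin.natAdd m i)⟩ : ℂ)

/-- The inverse of `cpx`. -/
noncomputable def rea {m : ℕ} (z : EC m) : E (m + m) :=
  WithLp.toLp 2 (Fin.append (fun i => (z i).re) (fun i => (z i).im))

/-- The product of the complex number `ρ` and the vector `ω` of `R^(2m) = C^m`. -/
noncomputable def cm {m : ℕ} (ρ : ℂ) (ω : E (m + m)) : E (m + m) := rea (ρ • cpx ω)

/-- The Fourier transform of the density `h` on the unit circle of the plane (parametrised by the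
angle), at the point `(a, b)`. -/
noncomputable def circ (h : ℝ → ℂ) (a b : ℝ) : ℂ :=
  ∫ φ in Ioo 0 (2 * π), h φ *
    Complex.exp (((-(2 * π * (a * Real.cos φ + b * Real.sin φ)) : ℝ) : ℂ) * Complex.I)

/-- `g` is, at almost every point of the unit sphere of `R^(2m) = C^m`, the radial limit of a
holomorphic function on the open unit ball of `C^m` bounded by one. -/
def BV (m : ℕ) (g : E (m + m) → ℂ) : Prop :=
  ∃ f : EC m → ℂ, DifferentiableOn ℂ f (Metric.ball 0 1) ∧
    (∀ z ∈ Metric.ball (0 : EC m) 1, ‖f z‖ ≤ 1) ∧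
    ∀ᵐ x : S (m + m) ∂(sm (m + m)),
      Filter.Tendsto (fun r : ℝ => f ((r : ℂ) • cpx (x : E (m + m)))) (nhdsWithin 1 (Iio 1))
        (nhds (g x))

end Pool.Agent.HB
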