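import Pool.Agent.HB.Defs

/-!
# [HB] Boundary values of bounded pluriharmonic functions
-/

namespace Pool.Agent.HB

open MeasureTheory Set Pool.Agent.MP_6cbfb8_an
open scoped ENNReal Real ComplexConjugate

/-- `g` is, at almost every point of the unit sphere of `R^(2m) = C^m`, the radial limit of a
pluriharmonic function `F + conj G`, `F` and `G` holomorphic, on the open unit ball of `C^m` bounded
by one. -/
def PH (m : ℕ) (g : E (m + m) → ℂ) : Prop :=
  ∃ F G : EC m → ℂ, DifferentiableOn ℂ F (Metric.ball 0 1) ∧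
    DifferentiableOn ℂ G (Metric.ball 0 1) ∧
    (∀ z ∈ Metric.ball (0 : EC m) 1, ‖F z + conj (G z)‖ ≤ 1) ∧
    ∀ᵐ x : S (m + m) ∂(sm (m + m)),
      Filter.Tendsto (fun r : ℝ => F ((r : ℂ) • cpx (x : E (m + m))) +
        conj (G ((r : ℂ) • cpx (x : E (m + m))))) (nhdsWithin 1 (Iio 1)) (nhds (g x))

end Pool.Agent.HB
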