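import Pool.Agent.HB.Defs

/-!
# Row RA: the identification of `R^(2m)` with `C^m`

* `cpx`, `rea` are inverse to each other and isometric (`EuclideanSpace.norm_eq`, sums over
  `Fin (m+m)` split by `Fin.sum_univ_add`; `Complex.sq_norm`/`Complex.normSq_apply`).
* The real inner product: `⟨x, y⟩ = Re ⟪cpx y, cpx x⟫`, so
  `⟨x, cm ρ ω⟩ = Re (conj ρ * ⟪cpx ω, cpx x⟫)` (Mathlib's complex inner product is conjugate
  linear in the FIRST variable: `⟪a, b⟫ = ∑ conj a_i * b_i`; `inner_smul_left`).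
* `integral_unitary`, `lintegral_unitary`: for a complex linear isometry `U` of `C^m`,
  `x ↦ rea (U (cpx x))` is a linear isometric bijection of the real space `E (m+m)` (build the
  `E (m+m) ≃ₗᵢ[ℝ] E (m+m)` with `toFun`, `invFun = rea (U.symm (cpx x))`); the library theorem
  `measurePreserving_isometry` (file `Pool/Agent/MP_6cbfb8_an/Sphere.lean`) says that it induces a
  measure preserving map of the sphere; use `MeasurePreserving.integral_comp` with a measurable
  embedding (the induced map is a homeomorphism of the sphere) resp.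
  `MeasurePreserving.lintegral_comp`.
-/

namespace Pool.Agent.HB

open MeasureTheory Set Pool.Agent.MP_6cbfb8_an
open scoped ENNReal Real ComplexConjugate

theorem hra_re {m : ℕ} (x : E (m + m)) (i : Fin m) : (cpx x i).re = x (Fin.castAdd m i) := rfl

theorem hra_im {m : ℕ} (x : E (m + m)) (i : Fin m) : (cpx x i).im = x (Fin.natAdd m i) := rfl

theorem hra_left {m : ℕ} (z : EC m) (i : Fin m) : rea z (Fin.castAdd m i) = (z i).re := by
  show Fin.append (fun i => (z i).re) (fun i => (z i).im) (Fin.castAdd m i) = (z i).re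
  rw [Fin.append_left]

theorem hra_right {m : ℕ} (z : EC m) (i : Fin m) : rea z (Fin.natAdd m i) = (z i).im := by
  show Fin.append (fun i => (z i).re) (fun i => (z i).im) (Fin.natAdd m i) = (z i).im
  rw [Fin.append_right]

theorem hra_ext {m : ℕ} {x y : E (m + m)} (h1 : ∀ i : Fin m, x (Fin.castAdd m i) = y (Fin.castAdd m i))
    (h2 : ∀ i : Fin m, x (Fin.natAdd m i) = y (Fin.natAdd m i)) : x = y := by
  ext i
  refine Fin.addCases (fun j => h1 j) (fun j => h2 j) i

theorem norm_cpx {m : ℕ} (x : E (m + m)) : ‖cpx x‖ = ‖x‖ := by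
  have h : ‖cpx x‖ ^ 2 = ‖x‖ ^ 2 := by
    rw [EuclideanSpace.norm_sq_eq, EuclideanSpace.norm_sq_eq, Fin.sum_univ_add,
      ← Finset.sum_add_distrib]
    refine Finset.sum_congr rfl fun i _ => ?_
    rw [Complex.sq_norm, Complex.normSq_apply, hra_re, hra_im, Real.norm_eq_abs, sq_abs,
      Real.norm_eq_abs, sq_abs, pow_two, pow_two]
  exact (pow_left_inj₀ (norm_nonneg _) (norm_nonneg _) two_ne_zero).1 h

theorem cpx_rea {m : ℕ} (z : EC m) : cpx (rea z) = z := by
  ext i
  apply Complex.ext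
  · rw [hra_re, hra_left]
  · rw [hra_im, hra_right]

theorem rea_cpx {m : ℕ} (x : E (m + m)) : rea (cpx x) = x := by
  refine hra_ext (fun i => ?_) fun i => ?_
  · rw [hra_left, hra_re]
  · rw [hra_right, hra_im]

theorem norm_rea {m : ℕ} (z : EC m) : ‖rea z‖ = ‖z‖ := by
  rw [← norm_cpx, cpx_rea]

theorem continuous_cpx {m : ℕ} : Continuous (cpx : E (m + m) → EC m) := by
  unfold cpx
  refine (PiLp.continuous_toLp 2 _).comp (continuous_pi fun i => ?_)
  have h1 : Continuous fun x : E (m + m) => ((x (Fin.castAdd m i) : ℂ) +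
      (x (Fin.natAdd m i) : ℂ) * Complex.I) := by
    have h2 : Continuous fun x : E (m + m) => x (Fin.castAdd m i) :=
      (EuclideanSpace.proj (Fin.castAdd m i) : E (m + m) →L[ℝ] ℝ).continuous
    have h3 : Continuous fun x : E (m + m) => x (Fin.natAdd m i) :=
      (EuclideanSpace.proj (Fin.natAdd m i) : E (m + m) →L[ℝ] ℝ).continuous
    exact (Complex.continuous_ofReal.comp h2).add
      ((Complex.continuous_ofReal.comp h3).mul continuous_const)
  refine h1.congr fun x => ?_
  exact (Complex.mk_eq_add_mul_I _ _).symm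

theorem continuous_rea {m : ℕ} : Continuous (rea : EC m → E (m + m)) := by
  unfold rea
  refine (PiLp.continuous_toLp 2 _).comp (continuous_pi fun i => ?_)
  refine Fin.addCases (fun j => ?_) (fun j => ?_) i
  · simp only [Fin.append_left]
    exact Complex.continuous_re.comp (EuclideanSpace.proj j : EC m →L[ℂ] ℂ).continuous
  · simp only [Fin.append_right]
    exact Complex.continuous_im.comp (EuclideanSpace.proj j : EC m →L[ℂ] ℂ).continuous

theorem cpx_smul {m : ℕ} (r : ℝ) (x : E (m + m)) : cpx (r • x) = (r : ℂ) • cpx x := by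
  ext i
  apply Complex.ext
  · rw [hra_re, PiLp.smul_apply, PiLp.smul_apply, smul_eq_mul, smul_eq_mul, Complex.re_ofReal_mul,
      hra_re]
  · rw [hra_im, PiLp.smul_apply, PiLp.smul_apply, smul_eq_mul, smul_eq_mul, Complex.im_ofReal_mul,
      hra_im]

theorem cpx_cm {m : ℕ} (ρ : ℂ) (ω : E (m + m)) : cpx (cm ρ ω) = ρ • cpx ω := by
  unfold cm
  rw [cpx_rea]

theorem norm_cm {m : ℕ} (ρ : ℂ) (ω : E (m + m)) : ‖cm ρ ω‖ = ‖ρ‖ * ‖ω‖ := by
  unfold cm
  rw [norm_rea, norm_smul, norm_cpx]

theorem cm_cm {m : ℕ} (ρ ρ' : ℂ) (ω : E (m + m)) : cm ρ (cm ρ' ω) = cm (ρ * ρ') ω := by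
  unfold cm
  rw [cpx_rea, smul_smul]

theorem cm_real {m : ℕ} (r : ℝ) (ω : E (m + m)) : cm (r : ℂ) ω = r • ω := by
  unfold cm
  rw [← cpx_smul, rea_cpx]

theorem continuous_cm {m : ℕ} : Continuous fun q : ℂ × E (m + m) => cm q.1 q.2 := by
  unfold cm
  exact continuous_rea.comp (continuous_fst.smul (continuous_cpx.comp continuous_snd))

theorem inner_eq {m : ℕ} (x y : E (m + m)) :
    (inner ℝ x y : ℝ) = (inner ℂ (cpx y) (cpx x)).re := by
  rw [PiLp.inner_apply, PiLp.inner_apply, Fin.sum_univ_add, ← Finset.sum_add_distrib,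
    Complex.re_sum]
  refine Finset.sum_congr rfl fun i _ => ?_
  have h1 : ∀ a b : ℝ, (inner ℝ a b : ℝ) = a * b := by
    intro a b
    simp [mul_comm]
  have h2 : ∀ a b : ℂ, (inner ℂ a b : ℂ).re = a.re * b.re + a.im * b.im := by
    intro a b
    simp
    ring
  rw [h1, h1, h2, hra_re, hra_im, hra_re, hra_im]
  ring

theorem inner_cm {m : ℕ} (x ω : E (m + m)) (ρ : ℂ) :
    (inner ℝ x (cm ρ ω) : ℝ) = (conj ρ * inner ℂ (cpx ω) (cpx x)).re := by
  rw [inner_eq, cpx_cm, inner_smul_left]

theorem hra_cpx_add {m : ℕ} (x y : E (m + m)) : cpx (x + y) = cpx x + cpx y := by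
  ext i
  apply Complex.ext
  · rfl
  · rfl

theorem hra_rea_add {m : ℕ} (z w : EC m) : rea (z + w) = rea z + rea w := by
  rw [← rea_cpx (rea z + rea w), hra_cpx_add, cpx_rea, cpx_rea]

theorem hra_rea_smul {m : ℕ} (r : ℝ) (z : EC m) : rea ((r : ℂ) • z) = r • rea z := by
  rw [← rea_cpx (r • rea z), cpx_smul, cpx_rea]

/-- the real isometry of a unitary map -/
noncomputable def hra_R {m : ℕ} (U : EC m ≃ₗᵢ[ℂ] EC m) : E (m + m) ≃ₗᵢ[ℝ] E (m + m) where
  toFun x := rea (U (cpx x))
  map_add' x y := by rw [hra_cpx_add, map_add, hra_rea_add]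
  map_smul' r x := by rw [cpx_smul, map_smul, hra_rea_smul, RingHom.id_apply]
  invFun x := rea (U.symm (cpx x))
  left_inv x := by
    show rea (U.symm (cpx (rea (U (cpx x))))) = x
    rw [cpx_rea, LinearIsometryEquiv.symm_apply_apply, rea_cpx]
  right_inv x := by
    show rea (U (cpx (rea (U.symm (cpx x))))) = x
    rw [cpx_rea, LinearIsometryEquiv.apply_symm_apply, rea_cpx]
  norm_map' x := by
    show ‖rea (U (cpx x))‖ = ‖x‖
    rw [norm_rea, LinearIsometryEquiv.norm_map, norm_cpx]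

/-- the homeomorphism of the sphere -/
noncomputable def hra_H {n : ℕ} (R : E n ≃ₗᵢ[ℝ] E n) : S n ≃ₜ S n where
  toFun x := ⟨R x, by simp⟩
  invFun x := ⟨R.symm x, by simp⟩
  left_inv x := by
    apply Subtype.ext
    show R.symm (R (x : E n)) = x
    rw [LinearIsometryEquiv.symm_apply_apply]
  right_inv x := by
    apply Subtype.ext
    show R (R.symm (x : E n)) = x
    rw [LinearIsometryEquiv.apply_symm_apply]
  continuous_toFun := (R.continuous.comp continuous_subtype_val).subtype_mk _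
  continuous_invFun := (R.symm.continuous.comp continuous_subtype_val).subtype_mk _

theorem hra_emb {n : ℕ} (R : E n ≃ₗᵢ[ℝ] E n) :
    MeasurableEmbedding (fun x : S n => (⟨R x, by simp⟩ : S n)) :=
  (hra_H R).measurableEmbedding

theorem integral_unitary {m : ℕ} (U : EC m ≃ₗᵢ[ℂ] EC m) (φ : EC m → ℂ) :
    ∫ x : S (m + m), φ (U (cpx (x : E (m + m)))) ∂(sm (m + m)) =
      ∫ x : S (m + m), φ (cpx (x : E (m + m))) ∂(sm (m + m)) := by
  have h1 := (measurePreserving_isometry (hra_R U)).integral_comp (hra_emb (hra_R U))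
    (fun x : S (m + m) => φ (cpx (x : E (m + m))))
  rw [← h1]
  refine integral_congr_ae (Filter.Eventually.of_forall fun x => ?_)
  show φ (U (cpx (x : E (m + m)))) = φ (cpx (rea (U (cpx (x : E (m + m))))))
  rw [cpx_rea]

theorem lintegral_unitary {m : ℕ} (U : EC m ≃ₗᵢ[ℂ] EC m) (φ : EC m → ℝ≥0∞) (hφ : Measurable φ) :
    ∫⁻ x : S (m + m), φ (U (cpx (x : E (m + m)))) ∂(sm (m + m)) =
      ∫⁻ x : S (m + m), φ (cpx (x : E (m + m))) ∂(sm (m + m)) := by
  have hm : Measurable fun x : S (m + m) => φ (cpx (x : E (m + m))) :=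
    hφ.comp (continuous_cpx.comp continuous_subtype_val).measurable
  have h1 := (measurePreserving_isometry (hra_R U)).lintegral_comp hm
  rw [← h1]
  refine lintegral_congr fun x => ?_
  show φ (U (cpx (x : E (m + m)))) = φ (cpx (rea (U (cpx (x : E (m + m))))))
  rw [cpx_rea]

end Pool.Agent.HB
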