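import Pool.Agent.HB.RA

/-!
# Row RB: reduction to a complex line (mean value property)

`mean_circle`: Cauchy's formula at the centre of the unit circle (e.g.
`DiffContOnCl.circleIntegral_sub_inv_smul` with `c = 0`, `R = 1`, unfold `circleIntegral`; or the
Mathlib theorems on `circleAverage`).

`slice_reduce`: let `ω` be a unit vector of `C^m` and, for real `θ`,
`V θ z = ⟪ω, z⟫ • ω + exp(iθ) • (z - ⟪ω, z⟫ • ω)`, a complex linear isometric bijection of `C^m`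
(inverse `V (-θ)`; `‖V θ z‖² = |⟪ω,z⟫|² + ‖z - ⟪ω,z⟫ω‖² = ‖z‖²`, and `⟪ω, V θ z⟫ = ⟪ω, z⟫`). By
`integral_unitary` the left hand side is, for every `θ`, the integral of
`f (V θ z) * φ ⟪ω, z⟫`. Average over `θ ∈ (0, 2π)` and exchange the integrals (the integrand is
continuous in `(θ, x)` on a compact set: `f` is continuous on the closed unit ball because
`ρ > 1`; `integral_integral_swap` / `intervalIntegral_integral_interchange`...). For fixed `z` in
the unit sphere the function `F λ = f (⟪ω,z⟫ • ω + λ • (z - ⟪ω,z⟫ • ω))` is holomorphic on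
`|λ| < ρ` (`‖⟪ω,z⟫ω + λ z⊥‖² = |⟪ω,z⟫|² + |λ|²‖z⊥‖² ≤ max 1 |λ|² < ρ²`), and `mean_circle` gives
`∫ F (exp iθ) dθ = 2π F 0 = 2π f (⟪ω,z⟫ • ω)`.
-/

namespace Pool.Agent.HB

open MeasureTheory Set Pool.Agent.MP_6cbfb8_an
open scoped ENNReal Real ComplexConjugate

theorem mean_circle (F : ℂ → ℂ) (ρ : ℝ) (hρ : 1 < ρ)
    (hF : DifferentiableOn ℂ F (Metric.ball 0 ρ)) :
    ∫ θ in Ioo (0:ℝ) (2 * π), F (Complex.exp ((θ : ℂ) * Complex.I)) = 2 * π * F 0 := by
  have hd : DiffContOnCl ℂ F (Metric.ball 0 |1|) := by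
    apply DifferentiableOn.diffContOnCl
    apply hF.mono
    rw [abs_one, closure_ball (0 : ℂ) one_ne_zero]
    exact Metric.closedBall_subset_ball hρ
  have h := hd.circleAverage
  rw [Real.circleAverage_def, intervalIntegral.integral_of_le (by positivity),
    integral_Ioc_eq_integral_Ioo] at h
  have h1 : ∀ θ : ℝ, circleMap 0 1 θ = Complex.exp ((θ : ℂ) * Complex.I) := by
    intro θ
    rw [circleMap]
    simp
  simp only [h1] at h
  rw [← h, Complex.real_smul]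
  push_cast
  have hπ : (2 * π : ℂ) ≠ 0 := by
    have : (π : ℂ) ≠ 0 := by exact_mod_cast Real.pi_ne_zero
    exact mul_ne_zero two_ne_zero this
  rw [← mul_assoc, mul_inv_cancel₀ hπ, one_mul]

/-- the map `z ↦ ⟪ω, z⟫ • ω + c • (z - ⟪ω, z⟫ • ω)` -/
noncomputable def hrb_V {m : ℕ} (ω : EC m) (c : ℂ) (z : EC m) : EC m :=
  (inner ℂ ω z : ℂ) • ω + c • (z - (inner ℂ ω z : ℂ) • ω)

theorem hrb_inner_self {m : ℕ} (ω : EC m) (hω : ‖ω‖ = 1) : (inner ℂ ω ω : ℂ) = 1 := by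
  rw [inner_self_eq_norm_sq_to_K, hω]
  simp

theorem hrb_inner_perp {m : ℕ} (ω : EC m) (hω : ‖ω‖ = 1) (z : EC m) :
    (inner ℂ ω (z - (inner ℂ ω z : ℂ) • ω) : ℂ) = 0 := by
  rw [inner_sub_right, inner_smul_right, hrb_inner_self ω hω, mul_one, sub_self]

theorem hrb_inner_V {m : ℕ} (ω : EC m) (hω : ‖ω‖ = 1) (c : ℂ) (z : EC m) :
    (inner ℂ ω (hrb_V ω c z) : ℂ) = inner ℂ ω z := by
  unfold hrb_V
  rw [inner_add_right, inner_smul_right, inner_smul_right, hrb_inner_perp ω hω,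
    hrb_inner_self ω hω, mul_one, mul_zero, add_zero]

theorem hrb_norm_V {m : ℕ} (ω : EC m) (hω : ‖ω‖ = 1) (c : ℂ) (z : EC m) :
    ‖hrb_V ω c z‖ ^ 2 = ‖(inner ℂ ω z : ℂ)‖ ^ 2 + ‖c‖ ^ 2 * ‖z - (inner ℂ ω z : ℂ) • ω‖ ^ 2 := by
  unfold hrb_V
  have h : (inner ℂ ((inner ℂ ω z : ℂ) • ω) (c • (z - (inner ℂ ω z : ℂ) • ω)) : ℂ) = 0 := by
    rw [inner_smul_left, inner_smul_right, hrb_inner_perp ω hω, mul_zero, mul_zero]
  have h1 := norm_add_sq_eq_norm_sq_add_norm_sq_of_inner_eq_zero _ _ h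
  rw [norm_smul, norm_smul, hω, mul_one] at h1
  rw [sq, h1]
  ring

theorem hrb_norm_z {m : ℕ} (ω : EC m) (hω : ‖ω‖ = 1) (z : EC m) :
    ‖z‖ ^ 2 = ‖(inner ℂ ω z : ℂ)‖ ^ 2 + ‖z - (inner ℂ ω z : ℂ) • ω‖ ^ 2 := by
  have h := hrb_norm_V ω hω 1 z
  have h1 : hrb_V ω 1 z = z := by
    unfold hrb_V
    rw [one_smul, add_sub_cancel]
  rw [h1, norm_one, one_pow, one_mul] at h
  exact h

theorem hrb_norm_V' {m : ℕ} (ω : EC m) (hω : ‖ω‖ = 1) (c : ℂ) (hc : ‖c‖ = 1) (z : EC m) :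
    ‖hrb_V ω c z‖ = ‖z‖ := by
  have h := hrb_norm_V ω hω c z
  rw [hc, one_pow, one_mul, ← hrb_norm_z ω hω z] at h
  exact (sq_eq_sq₀ (norm_nonneg _) (norm_nonneg _)).1 h

/-- the unitary map -/
noncomputable def hrb_U {m : ℕ} (ω : EC m) (hω : ‖ω‖ = 1) (c : ℂ) (hc : ‖c‖ = 1) :
    EC m ≃ₗᵢ[ℂ] EC m :=
  LinearIsometry.toLinearIsometryEquiv
    { toFun := hrb_V ω c
      map_add' := by
        intro x y
        simp only [hrb_V, inner_add_right]
        module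
      map_smul' := by
        intro a x
        simp only [hrb_V, inner_smul_right, RingHom.id_apply]
        module
      norm_map' := hrb_norm_V' ω hω c hc } rfl

theorem hrb_U_apply {m : ℕ} (ω : EC m) (hω : ‖ω‖ = 1) (c : ℂ) (hc : ‖c‖ = 1) (z : EC m) :
    hrb_U ω hω c hc z = hrb_V ω c z := rfl

theorem hrb_exp (θ : ℝ) : ‖Complex.exp ((θ : ℂ) * Complex.I)‖ = 1 :=
  Complex.norm_exp_ofReal_mul_I θ

theorem hrb_norm_sphere {m : ℕ} (x : S (m + m)) : ‖cpx (x : E (m + m))‖ = 1 := by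
  rw [norm_cpx]
  exact mem_sphere_zero_iff_norm.1 x.2

theorem hrb_slice {m : ℕ} (ω : EC m) (hω : ‖ω‖ = 1) (ρ : ℝ) (hρ : 1 < ρ) (f : EC m → ℂ)
    (hf : DifferentiableOn ℂ f (Metric.ball 0 ρ)) (z : EC m) (hz : ‖z‖ = 1) :
    ∫ θ in Ioo (0:ℝ) (2 * π), f (hrb_V ω (Complex.exp ((θ : ℂ) * Complex.I)) z) =
      2 * π * f ((inner ℂ ω z : ℂ) • ω) := by
  have h := mean_circle (fun l => f (hrb_V ω l z)) ρ hρ (by
    have h1 : DifferentiableOn ℂ (fun l : ℂ => hrb_V ω l z) (Metric.ball 0 ρ) := by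
      unfold hrb_V
      exact (differentiableOn_const _).add
        (differentiableOn_id.smul_const (z - (inner ℂ ω z : ℂ) • ω))
    refine hf.comp h1 ?_
    intro l hl
    rw [mem_ball_zero_iff] at hl ⊢
    have h2 := hrb_norm_V ω hω l z
    have h3 := hrb_norm_z ω hω z
    rw [hz, one_pow] at h3
    have hl2 : ‖l‖ ^ 2 < ρ ^ 2 := pow_lt_pow_left₀ hl (norm_nonneg _) two_ne_zero
    have hρ2 : 1 < ρ ^ 2 := one_lt_pow₀ hρ two_ne_zero
    have ha : 0 ≤ ‖(inner ℂ ω z : ℂ)‖ ^ 2 := sq_nonneg _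
    have hb : 0 ≤ ‖z - (inner ℂ ω z : ℂ) • ω‖ ^ 2 := sq_nonneg _
    have h4 : ‖hrb_V ω l z‖ ^ 2 < ρ ^ 2 := by
      rw [h2]
      generalize ‖(inner ℂ ω z : ℂ)‖ ^ 2 = a at *
      generalize ‖z - (inner ℂ ω z : ℂ) • ω‖ ^ 2 = b at *
      generalize ‖l‖ ^ 2 = L at *
      generalize ρ ^ 2 = R at *
      rcases ha.eq_or_lt with h5 | h5
      · have hb1 : b = 1 := by linarith
        rw [hb1, ← h5]
        linarith
      · have h6 : 0 < a * (R - 1) := mul_pos h5 (by linarith)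
        have h7 : 0 ≤ b * (R - L) := mul_nonneg hb (by linarith)
        nlinarith
    exact lt_of_pow_lt_pow_left₀ 2 (by linarith) h4)
  rw [h]
  have h8 : hrb_V ω 0 z = (inner ℂ ω z : ℂ) • ω := by
    unfold hrb_V
    rw [zero_smul, add_zero]
  rw [h8]

theorem slice_reduce {m : ℕ} (ω : EC m) (hω : ‖ω‖ = 1) (ρ : ℝ) (hρ : 1 < ρ) (f : EC m → ℂ)
    (hf : DifferentiableOn ℂ f (Metric.ball 0 ρ)) (φ : ℂ → ℂ) (hφ : Continuous φ) :
    ∫ x : S (m + m), f (cpx (x : E (m + m))) * φ (inner ℂ ω (cpx (x : E (m + m)))) ∂(sm (m + m)) =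
      ∫ x : S (m + m), f ((inner ℂ ω (cpx (x : E (m + m))) : ℂ) • ω) *
        φ (inner ℂ ω (cpx (x : E (m + m)))) ∂(sm (m + m)) := by
  set G : ℝ → S (m + m) → ℂ := fun θ x =>
    f (hrb_V ω (Complex.exp ((θ : ℂ) * Complex.I)) (cpx (x : E (m + m)))) *
      φ (inner ℂ ω (cpx (x : E (m + m)))) with hG
  have h1 : ∀ θ : ℝ, ∫ x, G θ x ∂(sm (m + m)) =
      ∫ x : S (m + m), f (cpx (x : E (m + m))) * φ (inner ℂ ω (cpx (x : E (m + m))))
        ∂(sm (m + m)) := by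
    intro θ
    rw [← integral_unitary (hrb_U ω hω _ (hrb_exp θ))
      (fun z => f z * φ (inner ℂ ω z))]
    simp only [hrb_U_apply, hrb_inner_V ω hω]
    rfl
  have hcV : Continuous (fun q : ℝ × S (m + m) =>
      hrb_V ω (Complex.exp ((q.1 : ℂ) * Complex.I)) (cpx (q.2 : E (m + m)))) := by
    unfold hrb_V
    have hc : Continuous (fun q : ℝ × S (m + m) => cpx (q.2 : E (m + m))) :=
      continuous_cpx.comp (continuous_subtype_val.comp continuous_snd)
    have hi : Continuous (fun q : ℝ × S (m + m) => (inner ℂ ω (cpx (q.2 : E (m + m))) : ℂ)) :=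
      continuous_const.inner hc
    have he : Continuous (fun q : ℝ × S (m + m) => Complex.exp ((q.1 : ℂ) * Complex.I)) := by
      fun_prop
    exact (hi.smul continuous_const).add (he.smul (hc.sub (hi.smul continuous_const)))
  have hnV : ∀ (θ : ℝ) (x : S (m + m)),
      ‖hrb_V ω (Complex.exp ((θ : ℂ) * Complex.I)) (cpx (x : E (m + m)))‖ = 1 := by
    intro θ x
    rw [hrb_norm_V' ω hω _ (hrb_exp θ), hrb_norm_sphere]
  have hcf : Continuous (fun q : ℝ × S (m + m) =>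
      f (hrb_V ω (Complex.exp ((q.1 : ℂ) * Complex.I)) (cpx (q.2 : E (m + m))))) := by
    apply hf.continuousOn.comp_continuous hcV
    intro q
    rw [mem_ball_zero_iff, hnV]
    exact hρ
  have hcφ : Continuous (fun q : ℝ × S (m + m) => φ (inner ℂ ω (cpx (q.2 : E (m + m))))) := by
    apply hφ.comp
    exact continuous_const.inner
      (continuous_cpx.comp (continuous_subtype_val.comp continuous_snd))
  have hcG : Continuous (Function.uncurry G) := hcf.mul hcφ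
  obtain ⟨M1, hM1⟩ := (isCompact_closedBall (0 : EC m) 1).exists_bound_of_continuousOn
    (hf.continuousOn.mono (Metric.closedBall_subset_ball hρ))
  obtain ⟨M2, hM2⟩ := (isCompact_closedBall (0 : ℂ) 1).exists_bound_of_continuousOn
    hφ.continuousOn
  have hint : Integrable (Function.uncurry G)
      ((volume.restrict (Ioo (0:ℝ) (2 * π))).prod (sm (m + m))) := by
    apply Integrable.of_bound hcG.aestronglyMeasurable (M1 * M2)
    filter_upwards with q
    have h2 : ‖f (hrb_V ω (Complex.exp ((q.1 : ℂ) * Complex.I)) (cpx (q.2 : E (m + m))))‖ ≤ M1 := by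
      apply hM1
      rw [mem_closedBall_zero_iff, hnV]
    have h3 : ‖φ (inner ℂ ω (cpx (q.2 : E (m + m))))‖ ≤ M2 := by
      apply hM2
      rw [mem_closedBall_zero_iff]
      refine (norm_inner_le_norm _ _).trans ?_
      rw [hω, hrb_norm_sphere, mul_one]
    show ‖f (hrb_V ω (Complex.exp ((q.1 : ℂ) * Complex.I)) (cpx (q.2 : E (m + m)))) *
      φ (inner ℂ ω (cpx (q.2 : E (m + m))))‖ ≤ M1 * M2
    rw [norm_mul]
    exact mul_le_mul h2 h3 (norm_nonneg _) ((norm_nonneg _).trans h2)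
  have hswap := integral_integral_swap hint
  simp only [h1] at hswap
  rw [setIntegral_const] at hswap
  have hR : ∀ x : S (m + m), ∫ θ in Ioo (0:ℝ) (2 * π), G θ x =
      2 * π * (f ((inner ℂ ω (cpx (x : E (m + m))) : ℂ) • ω) *
        φ (inner ℂ ω (cpx (x : E (m + m))))) := by
    intro x
    rw [hG]
    simp only
    rw [integral_mul_const, hrb_slice ω hω ρ hρ f hf _ (hrb_norm_sphere x), mul_assoc]
  simp only [hR] at hswap
  rw [integral_const_mul] at hswap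
  have hvol : volume.real (Ioo (0:ℝ) (2 * π)) = 2 * π := by
    rw [Real.volume_real_Ioo_of_le (by positivity), sub_zero]
  rw [hvol, Complex.real_smul] at hswap
  push_cast at hswap
  have hπ : (2 * π : ℂ) ≠ 0 := by
    have : (π : ℂ) ≠ 0 := by exact_mod_cast Real.pi_ne_zero
    exact mul_ne_zero two_ne_zero this
  exact mul_left_cancel₀ hπ hswap

end Pool.Agent.HB
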