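import Pool.Agent.HB.RM

/-!
# Row RS: the two series

`sphere_series`: `w = ⟪ω, z⟫` has `|w| ≤ 1` on the sphere. Expand
`H w * exp (s conj w) = ∑_{j,b} h_j w^j s^b (conj w)^b / b!`, a double series that converges
absolutely and uniformly (`∑ |h_j| · exp |s|`), integrate termwise
(`integral_tsum` / `hasSum_integral_of_summable_integral_norm` over `ℕ × ℕ`), and use `orth` (only
`b = j` survives) and `moment`:
`∫ |w|^(2j) = |S| j! (m-1)! / (j+m-1)!`, the `j!` cancels.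

`circle_series`: the same on the circle: `∫_0^{2π} exp(i(j + m - 1 - b)φ) dφ = 2π` if
`b = j + m - 1` and `0` otherwise (Mathlib: `integral_exp_mul_complex`, or `fourier` lemmas).
-/

namespace Pool.Agent.HB

open MeasureTheory Set Pool.Agent.MP_6cbfb8_an
open scoped ENNReal Real ComplexConjugate Nat

/-- the general term of the double series -/
noncomputable def hrs_F {X : Type*} (w : X → ℂ) (h : ℕ → ℂ) (s : ℂ) (k : ℕ) (p : ℕ × ℕ) (x : X) : ℂ :=
  (h p.1 * w x ^ (p.1 + k)) * ((s * conj (w x)) ^ p.2 / (p.2 ! : ℂ))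

theorem hrs_norm {X : Type*} (w : X → ℂ) (hw1 : ∀ x, ‖w x‖ ≤ 1) (h : ℕ → ℂ) (s : ℂ) (k : ℕ)
    (p : ℕ × ℕ) (x : X) : ‖hrs_F w h s k p x‖ ≤ ‖h p.1‖ * (‖s‖ ^ p.2 / (p.2 ! : ℝ)) := by
  unfold hrs_F
  rw [norm_mul, norm_mul, norm_div, norm_pow, norm_pow, norm_mul, RCLike.norm_conj, Complex.norm_natCast]
  have h1 : ‖w x‖ ^ (p.1 + k) ≤ 1 := pow_le_one₀ (norm_nonneg _) (hw1 x)
  have h2 : (‖s‖ * ‖w x‖) ^ p.2 ≤ ‖s‖ ^ p.2 :=
    pow_le_pow_left₀ (by positivity) (mul_le_of_le_one_right (norm_nonneg _) (hw1 x)) _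
  have h3 : ‖h p.1‖ * ‖w x‖ ^ (p.1 + k) ≤ ‖h p.1‖ := mul_le_of_le_one_right (norm_nonneg _) h1
  exact mul_le_mul h3 (div_le_div_of_nonneg_right h2 (by positivity)) (by positivity) (norm_nonneg _)

theorem hrs_summable (h : ℕ → ℂ) (hs : Summable fun j => ‖h j‖) (s : ℂ) :
    Summable fun p : ℕ × ℕ => ‖h p.1‖ * (‖s‖ ^ p.2 / (p.2 ! : ℝ)) := by
  have h1 := Summable.mul_of_nonneg (f := fun j => ‖h j‖) (g := fun b : ℕ => ‖s‖ ^ b / (b ! : ℝ)) hs
    (Real.summable_pow_div_factorial ‖s‖) (fun _ => norm_nonneg _) (fun _ => by positivity)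
  exact h1

theorem hrs_hasSum {X : Type*} (w : X → ℂ) (hw1 : ∀ x, ‖w x‖ ≤ 1) (h : ℕ → ℂ)
    (hs : Summable fun j => ‖h j‖) (H : ℂ → ℂ)
    (hH : ∀ w : ℂ, ‖w‖ ≤ 1 → HasSum (fun j => h j * w ^ j) (H w)) (s : ℂ) (k : ℕ) (x : X) :
    HasSum (fun p : ℕ × ℕ => hrs_F w h s k p x) (H (w x) * w x ^ k * Complex.exp (s * conj (w x))) := by
  have h1 : HasSum (fun j => h j * w x ^ (j + k)) (H (w x) * w x ^ k) := by
    have h2 := (hH (w x) (hw1 x)).mul_right (w x ^ k)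
    have e : (fun j => h j * w x ^ (j + k)) = fun j => h j * w x ^ j * w x ^ k := by
      funext j
      rw [pow_add]
      ring
    rw [e]
    exact h2
  have h3 : HasSum (fun b : ℕ => (s * conj (w x)) ^ b / (b ! : ℂ)) (Complex.exp (s * conj (w x))) := by
    have h4 := NormedSpace.expSeries_div_hasSum_exp (s * conj (w x))
    rwa [← Complex.exp_eq_exp_ℂ] at h4
  have hsum : Summable fun p : ℕ × ℕ => (h p.1 * w x ^ (p.1 + k)) * ((s * conj (w x)) ^ p.2 / (p.2 ! : ℂ)) :=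
    Summable.of_norm_bounded (g := fun p : ℕ × ℕ => ‖h p.1‖ * (‖s‖ ^ p.2 / (p.2 ! : ℝ))) (hrs_summable h hs s)
      (fun p => hrs_norm w hw1 h s k p x)
  have h5 := HasSum.mul (f := fun j => h j * w x ^ (j + k)) (g := fun b : ℕ => (s * conj (w x)) ^ b / (b ! : ℂ))
    h1 h3 hsum
  exact h5

theorem hrs_gen {X : Type*} [MeasurableSpace X] (μ : Measure X) [IsFiniteMeasure μ] (w : X → ℂ)
    (hw : Measurable w) (hw1 : ∀ x, ‖w x‖ ≤ 1) (h : ℕ → ℂ)
    (hs : Summable fun j => ‖h j‖) (H : ℂ → ℂ)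
    (hH : ∀ w : ℂ, ‖w‖ ≤ 1 → HasSum (fun j => h j * w ^ j) (H w)) (s : ℂ) (k : ℕ)
    (h0 : ∀ a b : ℕ, a ≠ b → ∫ x, w x ^ a * conj (w x) ^ b ∂μ = 0) :
    HasSum (fun j : ℕ => h j * (s ^ (j + k) / ((j + k) ! : ℂ)) * ∫ x, w x ^ (j + k) * conj (w x) ^ (j + k) ∂μ)
      (∫ x, H (w x) * w x ^ k * Complex.exp (s * conj (w x)) ∂μ) := by
  have hm : ∀ p : ℕ × ℕ, Measurable (hrs_F w h s k p) := by
    intro p
    unfold hrs_F
    exact (measurable_const.mul (hw.pow_const _)).mul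
      (((measurable_const.mul (Complex.continuous_conj.measurable.comp hw)).pow_const _).div_const _)
  have hint : ∀ p : ℕ × ℕ, Integrable (hrs_F w h s k p) μ := fun p =>
    Integrable.of_bound (hm p).aestronglyMeasurable _ (Filter.Eventually.of_forall (hrs_norm w hw1 h s k p))
  have hsum : Summable fun p : ℕ × ℕ => ∫ x, ‖hrs_F w h s k p x‖ ∂μ := by
    refine Summable.of_nonneg_of_le (fun p => integral_nonneg fun x => norm_nonneg _) (fun p => ?_)
      ((hrs_summable h hs s).mul_left (μ.real univ))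
    calc ∫ x, ‖hrs_F w h s k p x‖ ∂μ ≤ ∫ x, ‖h p.1‖ * (‖s‖ ^ p.2 / (p.2 ! : ℝ)) ∂μ :=
          integral_mono (hint p).norm (integrable_const _) (hrs_norm w hw1 h s k p)
      _ = _ := by rw [integral_const, smul_eq_mul]
  have h1 := hasSum_integral_of_summable_integral_norm hint hsum
  have h2 : (fun x => ∑' p : ℕ × ℕ, hrs_F w h s k p x) = fun x =>
      H (w x) * w x ^ k * Complex.exp (s * conj (w x)) := by
    funext x
    exact (hrs_hasSum w hw1 h hs H hH s k x).tsum_eq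
  rw [h2] at h1
  have h3 : ∀ p : ℕ × ℕ, ∫ x, hrs_F w h s k p x ∂μ =
      h p.1 * (s ^ p.2 / (p.2 ! : ℂ)) * ∫ x, w x ^ (p.1 + k) * conj (w x) ^ p.2 ∂μ := by
    intro p
    rw [← integral_const_mul]
    refine integral_congr_ae (Filter.Eventually.of_forall fun x => ?_)
    show hrs_F w h s k p x = _
    unfold hrs_F
    rw [mul_pow]
    ring
  have hinj : Function.Injective fun j : ℕ => (j, j + k) := fun a b hab => (Prod.ext_iff.1 hab).1
  have h4 := (hinj.hasSum_iff (f := fun p : ℕ × ℕ => ∫ x, hrs_F w h s k p x ∂μ)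
    (a := ∫ x, H (w x) * w x ^ k * Complex.exp (s * conj (w x)) ∂μ) ?_).2 h1
  · have h5 : ((fun p : ℕ × ℕ => ∫ x, hrs_F w h s k p x ∂μ) ∘ fun j : ℕ => (j, j + k)) = fun j : ℕ =>
        h j * (s ^ (j + k) / ((j + k) ! : ℂ)) * ∫ x, w x ^ (j + k) * conj (w x) ^ (j + k) ∂μ := by
      funext j
      exact h3 (j, j + k)
    rw [h5] at h4
    exact h4
  · intro p hp
    have h6 : p.1 + k ≠ p.2 := by
      intro h7
      exact hp ⟨p.1, Prod.ext rfl h7⟩
    show ∫ x, hrs_F w h s k p x ∂μ = 0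
    rw [h3, h0 _ _ h6, mul_zero]

theorem sphere_series {m : ℕ} (hm : 2 ≤ m) (ω : EC m) (hω : ‖ω‖ = 1) (h : ℕ → ℂ)
    (hs : Summable fun j => ‖h j‖) (H : ℂ → ℂ)
    (hH : ∀ w : ℂ, ‖w‖ ≤ 1 → HasSum (fun j => h j * w ^ j) (H w)) (s : ℂ) :
    ∫ x : S (m + m), H (inner ℂ ω (cpx (x : E (m + m)))) *
      Complex.exp (s * conj (inner ℂ ω (cpx (x : E (m + m))) : ℂ)) ∂(sm (m + m)) =
      ((sm (m + m)).real univ * ((m - 1) ! : ℝ) : ℝ) *
        ∑' j : ℕ, h j * s ^ j / ((j + m - 1) ! : ℂ) := by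
  have hcont : Continuous fun x : S (m + m) => (inner ℂ ω (cpx (x : E (m + m))) : ℂ) :=
    (continuous_const.inner continuous_id).comp (continuous_cpx.comp continuous_subtype_val)
  have hw1 : ∀ x : S (m + m), ‖(inner ℂ ω (cpx (x : E (m + m))) : ℂ)‖ ≤ 1 := by
    intro x
    have h1 := norm_inner_le_norm (𝕜 := ℂ) ω (cpx (x : E (m + m)))
    have h2 : ‖(x : E (m + m))‖ = 1 := by
      have h3 := x.2
      rwa [mem_sphere_zero_iff_norm] at h3
    rwa [hω, norm_cpx, h2, one_mul] at h1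
  have h1 := hrs_gen (sm (m + m)) (fun x : S (m + m) => (inner ℂ ω (cpx (x : E (m + m))) : ℂ))
    hcont.measurable hw1 h hs H hH s 0 (fun a b hab => orth ω a b hab)
  simp only [pow_zero, mul_one, Nat.add_zero] at h1
  rw [← h1.tsum_eq, ← tsum_mul_left]
  refine tsum_congr fun j => ?_
  have h2 : ∫ x : S (m + m), (inner ℂ ω (cpx (x : E (m + m))) : ℂ) ^ j *
      conj (inner ℂ ω (cpx (x : E (m + m))) : ℂ) ^ j ∂(sm (m + m)) =
      (((sm (m + m)).real univ * ((j ! : ℝ) * ((m - 1) ! : ℝ) / ((j + m - 1) ! : ℝ)) : ℝ) : ℂ) := by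
    rw [← moment hm ω hω j, ← integral_complex_ofReal]
    refine integral_congr_ae (Filter.Eventually.of_forall fun x => ?_)
    beta_reduce
    rw [← mul_pow, Complex.mul_conj', ← pow_mul]
    push_cast
    rfl
  rw [h2]
  have h3 : (j ! : ℂ) ≠ 0 := by exact_mod_cast Nat.factorial_ne_zero j
  have h4 : ((j + m - 1) ! : ℂ) ≠ 0 := by exact_mod_cast Nat.factorial_ne_zero _
  push_cast
  field_simp

theorem circle_series {m : ℕ} (hm : 1 ≤ m) (h : ℕ → ℂ) (hs : Summable fun j => ‖h j‖) (H : ℂ → ℂ)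
    (hH : ∀ w : ℂ, ‖w‖ ≤ 1 → HasSum (fun j => h j * w ^ j) (H w)) (s : ℂ) :
    ∫ θ in Ioo (0:ℝ) (2 * π), H (Complex.exp ((θ : ℂ) * Complex.I)) *
      Complex.exp ((θ : ℂ) * Complex.I) ^ (m - 1) *
      Complex.exp (s * Complex.exp (-((θ : ℂ) * Complex.I))) =
      2 * π * s ^ (m - 1) * ∑' j : ℕ, h j * s ^ j / ((j + m - 1) ! : ℂ) := by
  have hconj : ∀ θ : ℝ, conj (Complex.exp ((θ : ℂ) * Complex.I)) = Complex.exp (-((θ : ℂ) * Complex.I)) := by
    intro θ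
    rw [← Complex.exp_conj, map_mul, Complex.conj_ofReal, Complex.conj_I, mul_neg]
  have hcont : Continuous fun θ : ℝ => Complex.exp ((θ : ℂ) * Complex.I) := by
    fun_prop
  have hint : ∀ a b : ℕ, ∫ θ in Ioo (0:ℝ) (2 * π), Complex.exp ((θ : ℂ) * Complex.I) ^ a *
      conj (Complex.exp ((θ : ℂ) * Complex.I)) ^ b =
      ∫ θ in (0:ℝ)..(2 * π), Complex.exp (((a : ℂ) - b) * Complex.I * (θ : ℂ)) := by
    intro a b
    rw [intervalIntegral.integral_of_le (by positivity), integral_Ioc_eq_integral_Ioo]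
    refine integral_congr_ae (Filter.Eventually.of_forall fun θ => ?_)
    beta_reduce
    rw [hconj, ← Complex.exp_nat_mul, ← Complex.exp_nat_mul, ← Complex.exp_add]
    congr 1
    ring
  have h0 : ∀ a b : ℕ, a ≠ b → ∫ θ in Ioo (0:ℝ) (2 * π), Complex.exp ((θ : ℂ) * Complex.I) ^ a *
      conj (Complex.exp ((θ : ℂ) * Complex.I)) ^ b = 0 := by
    intro a b hab
    have hc : ((a : ℂ) - b) * Complex.I ≠ 0 := by
      refine mul_ne_zero (sub_ne_zero.2 fun h1 => hab ?_) Complex.I_ne_zero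
      exact_mod_cast h1
    rw [hint, integral_exp_mul_complex hc]
    have h1 : Complex.exp (((a : ℂ) - b) * Complex.I * ((2 * π : ℝ) : ℂ)) = 1 := by
      have h2 : ((a : ℂ) - b) * Complex.I * ((2 * π : ℝ) : ℂ) = ((a - b : ℤ) : ℂ) * (2 * π * Complex.I) := by
        push_cast
        ring
      rw [h2, Complex.exp_int_mul_two_pi_mul_I]
    rw [h1, Complex.ofReal_zero, mul_zero, Complex.exp_zero, sub_self, zero_div]
  have h2 : ∀ a : ℕ, ∫ θ in Ioo (0:ℝ) (2 * π), Complex.exp ((θ : ℂ) * Complex.I) ^ a *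
      conj (Complex.exp ((θ : ℂ) * Complex.I)) ^ a = 2 * π := by
    intro a
    rw [hint, sub_self, zero_mul]
    simp
  have h1 := hrs_gen (volume.restrict (Ioo (0:ℝ) (2 * π))) (fun θ : ℝ => Complex.exp ((θ : ℂ) * Complex.I))
    hcont.measurable (fun θ => (Complex.norm_exp_ofReal_mul_I θ).le) h hs H hH s (m - 1) h0
  simp only [hconj] at h1 h2
  simp only [h2] at h1
  rw [← h1.tsum_eq, ← tsum_mul_left]
  refine tsum_congr fun j => ?_
  have h3 : j + m - 1 = j + (m - 1) := by omega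
  rw [h3, pow_add]
  ring

end Pool.Agent.HB
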