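import Pool.Agent.HB.RB
import Pool.Agent.HB.RS

/-!
# Row RF: the slice identity

Let `f` be holomorphic on the ball of radius `ρ0 > 1` of `C^m`, `ω` a unit vector, `ρ` complex.
Then
`2π (-πiρ)^(m-1) * extn (f ∘ cpx) (cm ρ ω) =
   |S| (m-1)! * ∫_0^{2π} f(exp(iφ) ω) exp(i(m-1)φ) exp(-2πi Re(conj ρ exp(iφ))) dφ`.

Proof. By `inner_cm` the phase is `exp(-2πi Re(conj ρ w)) = exp(-πi conj ρ w) exp(-πi ρ conj w)`,
`w = ⟪cpx ω, z⟫`. By `slice_reduce` (with `φ w = exp(-2πi Re(conj ρ w))`) `f z` may be replaced by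
`F w = f (w • cpx ω)`, holomorphic on `|w| < ρ0`. Put `H w = F w * exp(-πi conj ρ w)`, holomorphic on
`|w| < ρ0`; its Taylor coefficients `h_j` at `0` satisfy `∑ |h_j| < ∞` and
`H w = ∑ h_j w^j` for `|w| ≤ 1` (Mathlib: `Complex.hasSum_taylorSeries_on_ball`,
`DifferentiableOn.hasFPowerSeriesOnBall`, Cauchy estimates `Complex.norm_iteratedDeriv_le_...`, or
summability at the point `w = r` real with `1 < r < ρ0` and comparison). Apply `sphere_series` and
`circle_series` with `s = -πiρ` and compare.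

`Re (conj ρ exp(iφ)) = ρ.re cos φ + ρ.im sin φ`.

`slice_norm` is the identity in absolute values, for `circ` (definition in Defs.lean).
-/

namespace Pool.Agent.HB

open MeasureTheory Set Pool.Agent.MP_6cbfb8_an
open scoped ENNReal Real ComplexConjugate Nat

/-- the restriction of `f` to the circle of directions `exp(iθ) ω`, twisted. -/
noncomputable def sl {m : ℕ} (f : EC m → ℂ) (ω : E (m + m)) (θ : ℝ) : ℂ :=
  f (Complex.exp ((θ : ℂ) * Complex.I) • cpx ω) * Complex.exp ((θ : ℂ) * Complex.I) ^ (m - 1)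

theorem hrf_taylor (ρ0 : ℝ) (hρ0 : 1 < ρ0) (H : ℂ → ℂ)
    (hH : DifferentiableOn ℂ H (Metric.ball 0 ρ0)) :
    ∃ h : ℕ → ℂ, (Summable fun j => ‖h j‖) ∧
      ∀ w : ℂ, ‖w‖ ≤ 1 → HasSum (fun j => h j * w ^ j) (H w) := by
  set R : ℝ := (1 + ρ0) / 2 with hR
  have hR1 : 1 < R := by rw [hR]; linarith
  have hR2 : R < ρ0 := by rw [hR]; linarith
  have hR0 : 0 < R := by linarith
  set R' : NNReal := ⟨R, hR0.le⟩ with hR'
  have hR'0 : 0 < R' := hR0
  have hR'1 : (1 : NNReal) < R' := hR1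
  have h1 : DifferentiableOn ℂ H (Metric.closedBall 0 R') :=
    hH.mono (Metric.closedBall_subset_ball hR2)
  have h2 := h1.hasFPowerSeriesOnBall hR'0
  set p := cauchyPowerSeries H 0 R' with hp
  refine ⟨fun j => p.coeff j, ?_, fun w hw => ?_⟩
  · have h3 : ((1 : NNReal) : ℝ≥0∞) < p.radius :=
      lt_of_lt_of_le (by exact_mod_cast hR'1) h2.r_le
    have h4 := p.summable_norm_mul_pow h3
    refine h4.congr fun j => ?_
    rw [NNReal.coe_one, one_pow, mul_one, FormalMultilinearSeries.norm_apply_eq_norm_coef]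
  · have h5 : w ∈ Metric.eball (0 : ℂ) R' := by
      rw [Metric.mem_eball, edist_zero_right]
      have : ‖w‖₊ < R' := lt_of_le_of_lt (by exact_mod_cast hw) hR'1
      rw [enorm_eq_nnnorm]
      exact_mod_cast this
    have h6 := h2.hasSum h5
    rw [zero_add] at h6
    refine h6.congr_fun fun j => ?_
    rw [FormalMultilinearSeries.apply_eq_pow_smul_coeff, smul_eq_mul, mul_comm]

theorem hrf_diff {m : ℕ} (ω : EC m) (hω : ‖ω‖ = 1) (ρ0 : ℝ) (f : EC m → ℂ)
    (hf : DifferentiableOn ℂ f (Metric.ball 0 ρ0)) (c : ℂ) :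
    DifferentiableOn ℂ (fun w : ℂ => f (w • ω) * Complex.exp (c * w)) (Metric.ball 0 ρ0) := by
  have h1 : DifferentiableOn ℂ (fun w : ℂ => f (w • ω)) (Metric.ball 0 ρ0) := by
    refine hf.comp (t := Metric.ball 0 ρ0) (f := fun w : ℂ => w • ω) ?_ ?_
    · exact (differentiable_id.smul_const ω).differentiableOn
    · intro w hw
      rw [mem_ball_zero_iff] at hw ⊢
      rwa [norm_smul, hω, mul_one]
  refine h1.mul ?_
  exact ((differentiable_id.const_mul c).cexp).differentiableOn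

theorem hrf_exp (ρ w : ℂ) : Complex.exp (((-(2 * π * (conj ρ * w).re) : ℝ) : ℂ) * Complex.I) =
    Complex.exp (-(π * Complex.I * conj ρ) * w) * Complex.exp (-(π * Complex.I * ρ) * conj w) := by
  rw [← Complex.exp_add]
  congr 1
  have h : (((conj ρ * w).re : ℝ) : ℂ) = (conj ρ * w + conj (conj ρ * w)) / 2 :=
    Complex.re_eq_add_conj _
  push_cast
  rw [h, map_mul, Complex.conj_conj]
  ring

theorem slice_identity {m : ℕ} (hm : 2 ≤ m) (ω : E (m + m)) (hω : ‖ω‖ = 1) (ρ0 : ℝ) (hρ0 : 1 < ρ0)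
    (f : EC m → ℂ) (hf : DifferentiableOn ℂ f (Metric.ball 0 ρ0)) (ρ : ℂ) :
    2 * π * (-(π * Complex.I * ρ)) ^ (m - 1) * extn (fun x => f (cpx x)) (cm ρ ω) =
      ((sm (m + m)).real univ * ((m - 1) ! : ℝ) : ℝ) * circ (sl f ω) ρ.re ρ.im := by
  have hω' : ‖cpx ω‖ = 1 := by rw [norm_cpx, hω]
  set gg : ℂ → ℂ := fun w => Complex.exp (((-(2 * π * (conj ρ * w).re) : ℝ) : ℂ) * Complex.I) with hgg
  have hggc : Continuous gg := by
    rw [hgg]
    fun_prop
  have h1 : extn (fun x => f (cpx x)) (cm ρ ω) =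
      ∫ x : S (m + m), f (cpx (x : E (m + m))) * gg (inner ℂ (cpx ω) (cpx (x : E (m + m)))) ∂(sm (m + m)) := by
    unfold extn
    refine integral_congr_ae (Filter.Eventually.of_forall fun x => ?_)
    simp only [hgg]
    rw [inner_cm]
  rw [h1, slice_reduce (cpx ω) hω' ρ0 hρ0 f hf gg hggc]
  set H : ℂ → ℂ := fun w => f (w • cpx ω) * Complex.exp (-(π * Complex.I * conj ρ) * w) with hH
  obtain ⟨h, hs, hh⟩ := hrf_taylor ρ0 hρ0 H (hrf_diff (cpx ω) hω' ρ0 f hf _)
  have h2 := sphere_series hm (cpx ω) hω' h hs H hh (-(π * Complex.I * ρ))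
  have h3 := circle_series (by omega : 1 ≤ m) h hs H hh (-(π * Complex.I * ρ))
  have h4 : ∫ x : S (m + m), f ((inner ℂ (cpx ω) (cpx (x : E (m + m))) : ℂ) • cpx ω) *
        gg (inner ℂ (cpx ω) (cpx (x : E (m + m)))) ∂(sm (m + m)) =
      ∫ x : S (m + m), H (inner ℂ (cpx ω) (cpx (x : E (m + m)))) *
      Complex.exp (-(π * Complex.I * ρ) * conj (inner ℂ (cpx ω) (cpx (x : E (m + m))) : ℂ)) ∂(sm (m + m)) := by
    refine integral_congr_ae (Filter.Eventually.of_forall fun x => ?_)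
    simp only [hgg, hH]
    rw [hrf_exp]
    ring
  have h5 : circ (sl f ω) ρ.re ρ.im = ∫ θ in Ioo (0:ℝ) (2 * π), H (Complex.exp ((θ : ℂ) * Complex.I)) *
      Complex.exp ((θ : ℂ) * Complex.I) ^ (m - 1) *
      Complex.exp (-(π * Complex.I * ρ) * Complex.exp (-((θ : ℂ) * Complex.I))) := by
    unfold circ
    refine integral_congr_ae (Filter.Eventually.of_forall fun θ => ?_)
    simp only [hH, sl]
    have e1 : Complex.exp (-((θ : ℂ) * Complex.I)) = conj (Complex.exp ((θ : ℂ) * Complex.I)) := by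
      rw [← Complex.exp_conj, map_mul, Complex.conj_ofReal, Complex.conj_I, mul_neg]
    have e2 : ρ.re * Real.cos θ + ρ.im * Real.sin θ = (conj ρ * Complex.exp ((θ : ℂ) * Complex.I)).re := by
      rw [Complex.mul_re, Complex.conj_re, Complex.conj_im, Complex.exp_ofReal_mul_I_re,
        Complex.exp_ofReal_mul_I_im]
      ring
    rw [e2, hrf_exp, e1]
    ring
  rw [h4, h2, h5, h3]
  ring

theorem slice_norm {m : ℕ} (hm : 2 ≤ m) (ω : E (m + m)) (hω : ‖ω‖ = 1) (ρ0 : ℝ) (hρ0 : 1 < ρ0)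
    (f : EC m → ℂ) (hf : DifferentiableOn ℂ f (Metric.ball 0 ρ0)) (ρ : ℂ) :
    2 * π * (π * ‖ρ‖) ^ (m - 1) * ‖extn (fun x => f (cpx x)) (cm ρ ω)‖ =
      (sm (m + m)).real univ * ((m - 1) ! : ℝ) * ‖circ (sl f ω) ρ.re ρ.im‖ := by
  have h := congrArg (fun z : ℂ => ‖z‖) (slice_identity hm ω hω ρ0 hρ0 f hf ρ)
  simp only [norm_mul, norm_pow, norm_neg, Complex.norm_I, mul_one, Complex.norm_real,
    Complex.norm_ofNat, Real.norm_eq_abs, abs_of_pos Real.pi_pos] at h
  rw [h, abs_of_nonneg measureReal_nonneg, Nat.abs_cast]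

end Pool.Agent.HB
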