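import Pool.Agent.HB.Defs

/-!
# Row RG: the planar theorem for the whole circle

For `2 < p < 4` and `κ > 0`:
`∫∫_{r ≤ |(a,b)| < 2r} |circ h (a,b)|^p ≤ C r^(2 - p/2 + κ)` for measurable `h`, `|h| ≤ 1`, `r ≥ 1`.

Proof from the library theorem `planar_Lp` (file `Pool/Agent/MP_6cbfb8_an/PlanarLp.lean`; the
operator `P f v z = ∫_(0,π) f θ exp(-2πi(v sin θ + z cos θ))` is in Aux0.lean), used with `c = 1`.
(1) `circ h a b = P h₁ b a + P h₂ (-b) (-a)` with `h₁ = h`, `h₂ θ = h (θ + π)` (split `(0,2π)` at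
`π`, substitute `θ = θ' + π` in the second half). Also `P f (-v) (-z) = P f' v (-z)`-type
symmetries: with `f' θ = f (π - θ)`: `P f v (-z) = P f' v z`; and for negative `v`:
conjugation: `P f (-v) (-z) = conj (P (conj f) v z)`. So it is enough to bound
`∫_{v in Icc r' 2r'} ∫_z |P f v z|^p` for measurable `|f| ≤ 1`, for `r' ≥ 1/2`... say for every
`r' ≥ r/2`, where `planar_Lp` needs `f = 0` where `sin θ < 1/r'`.
(2) Split `f = f 1_{sin θ ≥ 1/r'} + f 1_{sin θ < 1/r'}`. The first part is covered by `planar_Lp`.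
The second part has `|P| ≤ volume {θ ∈ (0,π) : sin θ < 1/r'} ≤ π/r'` (library `volume_cap_le` in
Shell.lean) everywhere, so on the bounded region `|v|, |z| ≤ 2r` its contribution is at most
`(4r)² (π/r')^p ≤ C r^(2-p) ≤ C r^(2 - p/2 + κ)` (so integrate over `|z| ≤ 2r` only, which is enough).
(3) On the annulus either `|b| ≥ r/2` or `|a| ≥ r/2`. On the first part use (1)-(2) with
`v = ±b ∈ [r/2, r] ∪ [r, 2r]` (for `r/2 < 1`, i.e. `1 ≤ r < 2`, everything is bounded: `|circ| ≤ 2π`,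
area `≤ 16π`, and `r^(...) ≥ 2^(-|..|)`; or just use the trivial bound for `r < 2`). The second part
reduces to the first by the rotation
`circ h a b = circ h' b (-a)`, `h' θ = h (θ - π/2)` extended periodically (define `h'` piecewise on
`(0, 2π)`: `h' θ = h (θ + 3π/2)` for `θ < π/2` and `h (θ - π/2)` for `θ > π/2`; check
`a cos φ + b sin φ = b cos(φ - π/2)... ` with `φ = θ - π/2`: `cos φ = sin θ`, `sin φ = -cos θ`, so
`a cos φ + b sin φ = (-b) cos θ + a sin θ`: `circ h a b = circ h' (-b) a`).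
-/

namespace Pool.Agent.HB

open MeasureTheory Set Pool.Agent.MP_6cbfb8_an
open scoped ENNReal Real

/-- plane annulus -/
def ann (r : ℝ) : Set (ℝ × ℝ) := {q | r ^ 2 ≤ q.1 ^ 2 + q.2 ^ 2 ∧ q.1 ^ 2 + q.2 ^ 2 < (2 * r) ^ 2}

theorem measurableSet_ann (r : ℝ) : MeasurableSet (ann r) := by
  have h1 : Measurable fun q : ℝ × ℝ => q.1 ^ 2 + q.2 ^ 2 := by fun_prop
  exact (measurableSet_le measurable_const h1).inter (measurableSet_lt h1 measurable_const)

theorem measurable_circ (h : ℝ → ℂ) (hh : Measurable h) :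
    Measurable fun q : ℝ × ℝ => circ h q.1 q.2 := by
  have h1 : Measurable (fun x : (ℝ × ℝ) × ℝ => h x.2 *
      Complex.exp (((-(2 * π * (x.1.1 * Real.cos x.2 + x.1.2 * Real.sin x.2)) : ℝ) : ℂ)
        * Complex.I)) := by
    refine (hh.comp measurable_snd).mul ?_
    exact (by fun_prop : Continuous (fun x : (ℝ × ℝ) × ℝ =>
      Complex.exp (((-(2 * π * (x.1.1 * Real.cos x.2 + x.1.2 * Real.sin x.2)) : ℝ) : ℂ)
        * Complex.I))).measurable
  exact (StronglyMeasurable.integral_prod_right' (ν := volume.restrict (Ioo 0 (2 * π)))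
    h1.stronglyMeasurable).measurable

theorem hrg_measurable_P (f : ℝ → ℂ) (hf : Measurable f) :
    Measurable (fun q : ℝ × ℝ => P f q.1 q.2) := by
  have h : Measurable (fun x : (ℝ × ℝ) × ℝ => f x.2 *
      Complex.exp (((-(2 * π * (x.1.1 * Real.sin x.2 + x.1.2 * Real.cos x.2)) : ℝ) : ℂ)
        * Complex.I)) := by
    refine (hf.comp measurable_snd).mul ?_
    exact (by fun_prop : Continuous (fun x : (ℝ × ℝ) × ℝ =>
      Complex.exp (((-(2 * π * (x.1.1 * Real.sin x.2 + x.1.2 * Real.cos x.2)) : ℝ) : ℂ)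
        * Complex.I))).measurable
  exact (StronglyMeasurable.integral_prod_right' (ν := volume.restrict (Ioo 0 π))
    h.stronglyMeasurable).measurable

theorem hrg_P_bound (f : ℝ → ℂ) (v z : ℝ) : ‖P f v z‖ₑ ≤ ∫⁻ θ in Ioo 0 π, ‖f θ‖ₑ := by
  unfold P
  refine (enorm_integral_le_lintegral_enorm _).trans (lintegral_mono fun θ => ?_)
  rw [enorm_mul]
  have h : ‖Complex.exp (((-(2 * π * (v * Real.sin θ + z * Real.cos θ)) : ℝ) : ℂ) * Complex.I)‖ₑ = 1 := by
    rw [← ofReal_norm, Complex.norm_exp_ofReal_mul_I, ENNReal.ofReal_one]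
  rw [h, mul_one]

theorem hrg_P_le (f : ℝ → ℂ) (hf : ∀ θ, ‖f θ‖ ≤ 1) (v z : ℝ) : ‖P f v z‖ₑ ≤ ENNReal.ofReal π := by
  refine (hrg_P_bound f v z).trans ?_
  calc ∫⁻ θ in Ioo 0 π, ‖f θ‖ₑ ≤ ∫⁻ θ in Ioo 0 π, 1 := by
        refine lintegral_mono fun θ => ?_
        rw [← ofReal_norm]
        exact ENNReal.ofReal_le_one.mpr (hf θ)
    _ = ENNReal.ofReal π := by
        rw [lintegral_const, one_mul, Measure.restrict_apply MeasurableSet.univ, univ_inter,
          Real.volume_Ioo, sub_zero]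

theorem hrg_P_cap (r : ℝ) (hr : 1 ≤ r) (f : ℝ → ℂ) (hf : ∀ θ, ‖f θ‖ ≤ 1)
    (hf0 : ∀ θ, ¬ Real.sin θ < 1 / r → f θ = 0) (v z : ℝ) : ‖P f v z‖ₑ ≤ ENNReal.ofReal (π / r) := by
  refine (hrg_P_bound f v z).trans ?_
  have hm : MeasurableSet {θ : ℝ | Real.sin θ < 1 / r} :=
    measurableSet_lt Real.measurable_sin measurable_const
  calc ∫⁻ θ in Ioo 0 π, ‖f θ‖ₑ ≤ ∫⁻ θ in Ioo 0 π, {θ : ℝ | Real.sin θ < 1 / r}.indicator 1 θ := by
        refine lintegral_mono fun θ => ?_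
        by_cases hθ : Real.sin θ < 1 / r
        · rw [indicator_of_mem (by exact hθ), ← ofReal_norm]
          exact ENNReal.ofReal_le_one.mpr (hf θ)
        · rw [hf0 θ hθ, enorm_zero]
          exact bot_le
    _ = volume ({θ : ℝ | Real.sin θ < 1 / r} ∩ Ioo 0 π) := by
        rw [lintegral_indicator_one hm, Measure.restrict_apply hm]
    _ ≤ ENNReal.ofReal (π / r) := volume_cap_le r hr

theorem hrg_integrable (f : ℝ → ℂ) (hf : Measurable f) (hb : ∀ θ, ‖f θ‖ ≤ 1) (g : ℝ → ℝ)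
    (hg : Continuous g) (x y : ℝ) : IntervalIntegrable (fun θ => f θ *
      Complex.exp (((g θ : ℝ) : ℂ) * Complex.I)) volume x y := by
  have hm : Measurable (fun θ => f θ * Complex.exp (((g θ : ℝ) : ℂ) * Complex.I)) := by
    refine hf.mul ?_
    exact (by fun_prop : Continuous (fun θ : ℝ =>
      Complex.exp (((g θ : ℝ) : ℂ) * Complex.I))).measurable
  refine (intervalIntegrable_const (c := (1:ℝ))).mono_fun hm.aestronglyMeasurable ?_
  refine Filter.Eventually.of_forall fun θ => ?_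
  beta_reduce
  rw [norm_mul, Complex.norm_exp_ofReal_mul_I, mul_one, norm_one]
  exact hb θ

theorem hrg_P_interval (f : ℝ → ℂ) (v z : ℝ) : P f v z = ∫ θ in (0:ℝ)..π, f θ *
    Complex.exp (((-(2 * π * (v * Real.sin θ + z * Real.cos θ)) : ℝ) : ℂ) * Complex.I) := by
  rw [intervalIntegral.integral_of_le Real.pi_pos.le, integral_Ioc_eq_integral_Ioo]
  rfl

theorem hrg_circ_interval (h : ℝ → ℂ) (a b : ℝ) : circ h a b = ∫ θ in (0:ℝ)..(2 * π), h θ *
    Complex.exp (((-(2 * π * (a * Real.cos θ + b * Real.sin θ)) : ℝ) : ℂ) * Complex.I) := by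
  rw [intervalIntegral.integral_of_le (by positivity), integral_Ioc_eq_integral_Ioo]
  rfl

theorem hrg_P_add (f g : ℝ → ℂ) (hf : Measurable f) (hfb : ∀ θ, ‖f θ‖ ≤ 1) (hg : Measurable g)
    (hgb : ∀ θ, ‖g θ‖ ≤ 1) (v z : ℝ) : P (fun θ => f θ + g θ) v z = P f v z + P g v z := by
  rw [hrg_P_interval, hrg_P_interval, hrg_P_interval, ← intervalIntegral.integral_add]
  · simp only [add_mul]
  · exact hrg_integrable f hf hfb _ (by fun_prop) 0 π
  · exact hrg_integrable g hg hgb _ (by fun_prop) 0 π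

/-- the strip -/
theorem hrg_strip (p : ℝ) (hp2 : 2 < p) (hp4 : p < 4) (κ : ℝ) (hκ : 0 < κ) :
    ∃ C : ℝ≥0∞, C ≠ ∞ ∧ ∀ r : ℝ, 1 ≤ r → ∀ f : ℝ → ℂ, Measurable f → (∀ θ, ‖f θ‖ ≤ 1) →
      ∫⁻ v in Icc r (2 * r), ∫⁻ z in Icc (-(4 * r)) (4 * r), ‖P f v z‖ₑ ^ p ≤
        C * ENNReal.ofReal (r ^ (2 - p / 2 + κ)) := by
  obtain ⟨C, hC, b, -, -, H⟩ := planar_Lp p hp2 hp4 κ hκ
  have hp0 : 0 < p := by linarith
  have hpi := Real.pi_pos
  refine ⟨2 ^ (p - 1) * (C + ENNReal.ofReal (8 * π ^ p)), ?_, fun r hr f hf hb => ?_⟩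
  · exact ENNReal.mul_ne_top (ENNReal.rpow_ne_top_of_nonneg (by linarith) (by simp))
      (ENNReal.add_ne_top.mpr ⟨hC, ENNReal.ofReal_ne_top⟩)
  have hr0 : 0 < r := by linarith
  have hms : MeasurableSet {θ : ℝ | Real.sin θ < 1 / r} :=
    measurableSet_lt Real.measurable_sin measurable_const
  set f1 : ℝ → ℂ := {θ : ℝ | Real.sin θ < 1 / r}ᶜ.indicator f with hf1
  set f2 : ℝ → ℂ := {θ : ℝ | Real.sin θ < 1 / r}.indicator f with hf2
  have mf1 : Measurable f1 := hf.indicator hms.compl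
  have mf2 : Measurable f2 := hf.indicator hms
  have b1 : ∀ θ, ‖f1 θ‖ ≤ 1 := fun θ => (norm_indicator_le_norm_self _ _).trans (hb θ)
  have b2 : ∀ θ, ‖f2 θ‖ ≤ 1 := fun θ => (norm_indicator_le_norm_self _ _).trans (hb θ)
  have hsum : f = fun θ => f1 θ + f2 θ := by
    funext θ
    simp only [hf1, hf2]
    rw [add_comm]
    exact (congrFun (Set.indicator_self_add_compl {θ : ℝ | Real.sin θ < 1 / r} f) θ).symm
  have z1 : ∀ θ ∈ Ioo 0 π, Real.sin θ < 1 / r → f1 θ = 0 := fun θ _ h =>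
    indicator_of_notMem (s := {θ : ℝ | Real.sin θ < 1 / r}ᶜ) (fun h' => (mem_compl_iff _ _).mp h' h) _
  have z2 : ∀ θ, ¬ Real.sin θ < 1 / r → f2 θ = 0 := fun θ h =>
    indicator_of_notMem (s := {θ : ℝ | Real.sin θ < 1 / r}) h _
  have H1 := H r hr f1 mf1 b1 z1 1 one_ne_zero (by simp)
  simp only [mul_one, abs_one, Real.one_rpow] at H1
  set K : ℝ≥0∞ := ENNReal.ofReal (π / r) ^ p with hK
  have hpt : ∀ v z, ‖P f v z‖ₑ ^ p ≤ 2 ^ (p - 1) * (‖P f1 v z‖ₑ ^ p + K) := by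
    intro v z
    have e : P f v z = P f1 v z + P f2 v z := by
      conv_lhs => rw [hsum]
      exact hrg_P_add f1 f2 mf1 b1 mf2 b2 v z
    rw [e]
    refine (ENNReal.rpow_le_rpow (enorm_add_le _ _) hp0.le).trans ?_
    refine (ENNReal.rpow_add_le_mul_rpow_add_rpow _ _ (by linarith)).trans ?_
    gcongr
    rw [hK]
    exact ENNReal.rpow_le_rpow (hrg_P_cap r hr f2 b2 z2 v z) hp0.le
  have mP : Measurable fun q : ℝ × ℝ => ‖P f1 q.1 q.2‖ₑ ^ p :=
    (hrg_measurable_P f1 mf1).enorm.pow_const p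
  have mP1 : ∀ v, Measurable fun z : ℝ => ‖P f1 v z‖ₑ ^ p := fun v =>
    mP.comp (f := fun z : ℝ => (v, z)) (by fun_prop)
  have mP2 : Measurable fun v : ℝ => ∫⁻ z in Icc (-(4 * r)) (4 * r), ‖P f1 v z‖ₑ ^ p :=
    mP.lintegral_prod_right'
  have hin : ∀ v, ∫⁻ z in Icc (-(4 * r)) (4 * r), ‖P f v z‖ₑ ^ p ≤
      2 ^ (p - 1) * ((∫⁻ z in Icc (-(4 * r)) (4 * r), ‖P f1 v z‖ₑ ^ p) + K * ENNReal.ofReal (8 * r)) := by
    intro v
    refine (lintegral_mono (hpt v)).trans ?_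
    rw [lintegral_const_mul _ ((mP1 v).add_const K), lintegral_add_right _ measurable_const,
      lintegral_const, Measure.restrict_apply MeasurableSet.univ, univ_inter, Real.volume_Icc]
    apply le_of_eq
    congr 4
    ring
  calc ∫⁻ v in Icc r (2 * r), ∫⁻ z in Icc (-(4 * r)) (4 * r), ‖P f v z‖ₑ ^ p
      ≤ ∫⁻ v in Icc r (2 * r), 2 ^ (p - 1) * ((∫⁻ z in Icc (-(4 * r)) (4 * r), ‖P f1 v z‖ₑ ^ p) +
          K * ENNReal.ofReal (8 * r)) := lintegral_mono hin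
    _ = 2 ^ (p - 1) * ((∫⁻ v in Icc r (2 * r), ∫⁻ z in Icc (-(4 * r)) (4 * r), ‖P f1 v z‖ₑ ^ p) +
          K * ENNReal.ofReal (8 * r) * ENNReal.ofReal r) := by
        rw [lintegral_const_mul _ (mP2.add_const _), lintegral_add_right _ measurable_const,
          lintegral_const, Measure.restrict_apply MeasurableSet.univ, univ_inter, Real.volume_Icc]
        congr 4
        ring
    _ ≤ 2 ^ (p - 1) * (C * ENNReal.ofReal (r ^ (2 - p / 2 + κ)) +
          ENNReal.ofReal (8 * π ^ p) * ENNReal.ofReal (r ^ (2 - p / 2 + κ))) := by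
        refine mul_le_mul' le_rfl (add_le_add ?_ ?_)
        · refine (lintegral_mono fun v => ?_).trans H1
          exact lintegral_mono' Measure.restrict_le_self le_rfl
        · rw [hK, ENNReal.ofReal_rpow_of_nonneg (by positivity) hp0.le, ← ENNReal.ofReal_mul (by positivity),
            ← ENNReal.ofReal_mul (by positivity), ← ENNReal.ofReal_mul (by positivity)]
          refine ENNReal.ofReal_le_ofReal ?_
          rw [Real.div_rpow hpi.le hr0.le]
          have e1 : π ^ p / r ^ p * (8 * r) * r = 8 * π ^ p * r ^ (2 - p) := by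
            rw [Real.rpow_sub hr0, Real.rpow_two]
            ring
          rw [e1]
          have : r ^ (2 - p) ≤ r ^ (2 - p / 2 + κ) :=
            Real.rpow_le_rpow_of_exponent_le hr (by linarith)
          have h8 : 0 ≤ 8 * π ^ p := by positivity
          exact mul_le_mul_of_nonneg_left this h8
    _ = 2 ^ (p - 1) * (C + ENNReal.ofReal (8 * π ^ p)) * ENNReal.ofReal (r ^ (2 - p / 2 + κ)) := by
        ring

/-- the part `b ≥ r/2` of the annulus -/
def hrg_B (r : ℝ) : Set (ℝ × ℝ) := ann r ∩ {q | r / 2 ≤ q.2}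

theorem hrg_measurableSet_B (r : ℝ) : MeasurableSet (hrg_B r) :=
  (measurableSet_ann r).inter (measurableSet_le measurable_const measurable_snd)

theorem hrg_B_subset (r : ℝ) (hr : 0 < r) :
    hrg_B r ⊆ Icc (-(2 * r)) (2 * r) ×ˢ Icc (r / 2) (2 * r) := by
  rintro ⟨a, b⟩ ⟨⟨_, h2⟩, h3⟩
  have h2' : a ^ 2 + b ^ 2 < (2 * r) ^ 2 := h2
  have h3' : r / 2 ≤ b := h3
  have ha : |a| ≤ 2 * r := abs_le_of_sq_le_sq (by nlinarith [sq_nonneg b]) (by linarith)
  have hb : |b| ≤ 2 * r := abs_le_of_sq_le_sq (by nlinarith [sq_nonneg a]) (by linarith)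
  exact ⟨⟨(abs_le.mp ha).1, (abs_le.mp ha).2⟩, h3', (abs_le.mp hb).2⟩

theorem hrg_P_part (p : ℝ) (hp2 : 2 < p) (hp4 : p < 4) (κ : ℝ) (hκ : 0 < κ) :
    ∃ C : ℝ≥0∞, C ≠ ∞ ∧ ∀ r : ℝ, 1 ≤ r → ∀ f : ℝ → ℂ, Measurable f → (∀ θ, ‖f θ‖ ≤ 1) →
      ∫⁻ q in hrg_B r, ‖P f q.2 q.1‖ₑ ^ p ≤ C * ENNReal.ofReal (r ^ (2 - p / 2 + κ)) := by
  obtain ⟨C, hC, H⟩ := hrg_strip p hp2 hp4 κ hκ
  have hp0 : 0 < p := by linarith
  have hpi := Real.pi_pos
  have he : 0 < 2 - p / 2 + κ := by linarith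
  refine ⟨C + C + ENNReal.ofReal (π ^ p * 24), ?_, fun r hr f hf hb => ?_⟩
  · exact ENNReal.add_ne_top.mpr ⟨ENNReal.add_ne_top.mpr ⟨hC, hC⟩, ENNReal.ofReal_ne_top⟩
  have hr0 : 0 < r := by linarith
  have mP : Measurable fun q : ℝ × ℝ => ‖P f q.2 q.1‖ₑ ^ p :=
    ((hrg_measurable_P f hf).comp (f := fun q : ℝ × ℝ => (q.2, q.1)) (by fun_prop)).enorm.pow_const p
  have h1 : ∫⁻ q in hrg_B r, ‖P f q.2 q.1‖ₑ ^ p ≤
      ∫⁻ b in Icc (r / 2) (2 * r), ∫⁻ a in Icc (-(2 * r)) (2 * r), ‖P f b a‖ₑ ^ p := by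
    refine (lintegral_mono_set (hrg_B_subset r hr0)).trans (le_of_eq ?_)
    rw [Measure.volume_eq_prod, setLIntegral_prod_symm _ mP.aemeasurable]
  refine h1.trans ?_
  by_cases h2 : 2 ≤ r
  · have hs : Icc (r / 2) (2 * r) ⊆ Icc (r / 2) (2 * (r / 2)) ∪ Icc r (2 * r) := by
      intro x hx
      rcases le_total x r with h | h
      · left
        exact ⟨hx.1, by linarith⟩
      · right
        exact ⟨h, hx.2⟩
    refine (lintegral_mono_set hs).trans ((lintegral_union_le _ _ _).trans ?_)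
    have k1 : ∫⁻ b in Icc (r / 2) (2 * (r / 2)), ∫⁻ a in Icc (-(2 * r)) (2 * r), ‖P f b a‖ₑ ^ p ≤
        C * ENNReal.ofReal (r ^ (2 - p / 2 + κ)) := by
      have := H (r / 2) (by linarith) f hf hb
      have e : (4 * (r / 2)) = 2 * r := by ring
      rw [e] at this
      refine this.trans ?_
      gcongr
      linarith
    have k2 : ∫⁻ b in Icc r (2 * r), ∫⁻ a in Icc (-(2 * r)) (2 * r), ‖P f b a‖ₑ ^ p ≤
        C * ENNReal.ofReal (r ^ (2 - p / 2 + κ)) := by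
      refine (lintegral_mono fun b => lintegral_mono_set ?_).trans (H r hr f hf hb)
      exact Icc_subset_Icc (by linarith) (by linarith)
    calc _ ≤ C * ENNReal.ofReal (r ^ (2 - p / 2 + κ)) + C * ENNReal.ofReal (r ^ (2 - p / 2 + κ)) :=
          add_le_add k1 k2
      _ ≤ _ := by
          rw [← add_mul]
          exact mul_le_mul' le_self_add le_rfl
  · push Not at h2
    have k : ∫⁻ b in Icc (r / 2) (2 * r), ∫⁻ a in Icc (-(2 * r)) (2 * r), ‖P f b a‖ₑ ^ p ≤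
        ENNReal.ofReal (π ^ p * 24) := by
      calc _ ≤ ∫⁻ b in Icc (r / 2) (2 * r), ∫⁻ a in Icc (-(2 * r)) (2 * r), ENNReal.ofReal π ^ p := by
            refine lintegral_mono fun b => lintegral_mono fun a => ?_
            exact ENNReal.rpow_le_rpow (hrg_P_le f hb b a) hp0.le
        _ = ENNReal.ofReal (π ^ p * (4 * r) * (3 / 2 * r)) := by
            rw [lintegral_const, lintegral_const, Measure.restrict_apply MeasurableSet.univ, univ_inter,
              Measure.restrict_apply MeasurableSet.univ, univ_inter, Real.volume_Icc, Real.volume_Icc,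
              show 2 * r - -(2 * r) = 4 * r by ring, show 2 * r - r / 2 = 3 / 2 * r by ring,
              ENNReal.ofReal_rpow_of_nonneg hpi.le hp0.le, ← ENNReal.ofReal_mul (by positivity),
              ← ENNReal.ofReal_mul (by positivity)]
        _ ≤ _ := by
            refine ENNReal.ofReal_le_ofReal ?_
            have hpp : 0 ≤ π ^ p := by positivity
            nlinarith [mul_le_mul_of_nonneg_left (show r * r ≤ 4 by nlinarith) hpp]
    refine k.trans ?_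
    have h1r : (1 : ℝ≥0∞) ≤ ENNReal.ofReal (r ^ (2 - p / 2 + κ)) :=
      ENNReal.one_le_ofReal.mpr (Real.one_le_rpow hr he.le)
    calc ENNReal.ofReal (π ^ p * 24) ≤ ENNReal.ofReal (π ^ p * 24) * ENNReal.ofReal (r ^ (2 - p / 2 + κ)) :=
          le_mul_of_one_le_right' h1r
      _ ≤ _ := by
          gcongr
          exact le_add_self

theorem hrg_split (h : ℝ → ℂ) (hh : Measurable h) (hb : ∀ θ, ‖h θ‖ ≤ 1) (a b : ℝ) :
    circ h a b = P h b a + P (fun θ => h (θ + π)) (-b) (-a) := by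
  have hpi := Real.pi_pos
  rw [hrg_circ_interval, hrg_P_interval, hrg_P_interval]
  have h1 := hrg_integrable h hh hb (fun θ => -(2 * π * (a * Real.cos θ + b * Real.sin θ))) (by fun_prop)
  rw [← intervalIntegral.integral_add_adjacent_intervals (h1 0 π) (h1 π (2 * π))]
  congr 1
  · refine intervalIntegral.integral_congr fun θ _ => ?_
    rw [add_comm (a * Real.cos θ)]
  · have h2 := intervalIntegral.integral_comp_add_right (a := 0) (b := π) (fun θ => h θ *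
      Complex.exp (((-(2 * π * (a * Real.cos θ + b * Real.sin θ)) : ℝ) : ℂ) * Complex.I)) π
    have e : 0 + π = π := zero_add π
    have e2 : π + π = 2 * π := by ring
    rw [e, e2] at h2
    rw [← h2]
    refine intervalIntegral.integral_congr fun θ _ => ?_
    rw [Real.cos_add_pi, Real.sin_add_pi]
    congr 5
    ring

theorem hrg_neg (f : ℝ → ℂ) (v z : ℝ) :
    ‖P f (-v) (-z)‖ₑ = ‖P (fun θ => (starRingEnd ℂ) (f θ)) v z‖ₑ := by
  have h : P f (-v) (-z) = (starRingEnd ℂ) (P (fun θ => (starRingEnd ℂ) (f θ)) v z) := by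
    unfold P
    rw [← integral_conj]
    refine integral_congr_ae (Filter.Eventually.of_forall fun θ => ?_)
    beta_reduce
    rw [map_mul, Complex.conj_conj, ← Complex.exp_conj, map_mul, Complex.conj_ofReal, Complex.conj_I]
    congr 2
    push_cast
    ring
  rw [h, ← ofReal_norm, ← ofReal_norm, Complex.norm_conj]

theorem hrg_part (p : ℝ) (hp2 : 2 < p) (hp4 : p < 4) (κ : ℝ) (hκ : 0 < κ) :
    ∃ C : ℝ≥0∞, C ≠ ∞ ∧ ∀ r : ℝ, 1 ≤ r → ∀ h : ℝ → ℂ, Measurable h → (∀ θ, ‖h θ‖ ≤ 1) →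
      ∫⁻ q in hrg_B r, ‖circ h q.1 q.2‖ₑ ^ p ≤ C * ENNReal.ofReal (r ^ (2 - p / 2 + κ)) := by
  obtain ⟨C, hC, H⟩ := hrg_P_part p hp2 hp4 κ hκ
  have hp0 : 0 < p := by linarith
  refine ⟨2 ^ (p - 1) * (C + C), ?_, fun r hr h hh hb => ?_⟩
  · exact ENNReal.mul_ne_top (ENNReal.rpow_ne_top_of_nonneg (by linarith) (by simp))
      (ENNReal.add_ne_top.mpr ⟨hC, hC⟩)
  set g : ℝ → ℂ := fun θ => (starRingEnd ℂ) (h (θ + π)) with hg
  have mg : Measurable g := by
    have : Measurable fun θ : ℝ => h (θ + π) := hh.comp (by fun_prop)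
    exact Complex.continuous_conj.measurable.comp this
  have bg : ∀ θ, ‖g θ‖ ≤ 1 := fun θ => by
    rw [hg]
    beta_reduce
    rw [Complex.norm_conj]
    exact hb _
  have mP : Measurable fun q : ℝ × ℝ => ‖P h q.2 q.1‖ₑ ^ p :=
    ((hrg_measurable_P h hh).comp (f := fun q : ℝ × ℝ => (q.2, q.1)) (by fun_prop)).enorm.pow_const p
  have mP' : Measurable fun q : ℝ × ℝ => ‖P g q.2 q.1‖ₑ ^ p :=
    ((hrg_measurable_P g mg).comp (f := fun q : ℝ × ℝ => (q.2, q.1)) (by fun_prop)).enorm.pow_const p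
  calc ∫⁻ q in hrg_B r, ‖circ h q.1 q.2‖ₑ ^ p
      ≤ ∫⁻ q in hrg_B r, 2 ^ (p - 1) * (‖P h q.2 q.1‖ₑ ^ p + ‖P g q.2 q.1‖ₑ ^ p) := by
        refine lintegral_mono fun q => ?_
        beta_reduce
        rw [hrg_split h hh hb]
        refine (ENNReal.rpow_le_rpow (enorm_add_le _ _) hp0.le).trans ?_
        refine (ENNReal.rpow_add_le_mul_rpow_add_rpow _ _ (by linarith)).trans ?_
        rw [hrg_neg]
    _ = 2 ^ (p - 1) * ((∫⁻ q in hrg_B r, ‖P h q.2 q.1‖ₑ ^ p) + (∫⁻ q in hrg_B r, ‖P g q.2 q.1‖ₑ ^ p)) := by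
        rw [← lintegral_add_left mP]
        exact lintegral_const_mul _ (mP.add mP')
    _ ≤ 2 ^ (p - 1) * (C * ENNReal.ofReal (r ^ (2 - p / 2 + κ)) +
          C * ENNReal.ofReal (r ^ (2 - p / 2 + κ))) := by
        gcongr
        · exact H r hr h hh hb
        · exact H r hr g mg bg
    _ = _ := by ring

/-- the rotation by a right angle -/
def hrg_rot (q : ℝ × ℝ) : ℝ × ℝ := (-q.2, q.1)

theorem hrg_rot_mp : MeasurePreserving hrg_rot (volume : Measure (ℝ × ℝ)) volume := by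
  have h1 : MeasurePreserving (Prod.swap : ℝ × ℝ → ℝ × ℝ) volume volume := Measure.measurePreserving_swap
  have h2 : MeasurePreserving (Prod.map (fun x : ℝ => -x) (id : ℝ → ℝ)) (volume : Measure (ℝ × ℝ)) volume :=
    (Measure.measurePreserving_neg (volume : Measure ℝ)).prod (MeasurePreserving.id _)
  exact h2.comp h1

theorem hrg_rotate (h : ℝ → ℂ) (hh : Measurable h) (hb : ∀ θ, ‖h θ‖ ≤ 1) :
    ∃ g : ℝ → ℂ, Measurable g ∧ (∀ θ, ‖g θ‖ ≤ 1) ∧
      ∀ q : ℝ × ℝ, circ h q.1 q.2 = circ g (hrg_rot q).1 (hrg_rot q).2 := by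
  have hpi := Real.pi_pos
  have h2pi : 0 < 2 * π := by positivity
  set k : ℝ → ℂ := fun θ => h (2 * π * Int.fract (θ / (2 * π))) with hk
  have mk : Measurable k := by
    refine hh.comp ?_
    exact (measurable_fract.comp (by fun_prop : Measurable fun θ : ℝ => θ / (2 * π))).const_mul _
  have kb : ∀ θ, ‖k θ‖ ≤ 1 := fun θ => hb _
  have kper : Function.Periodic k (2 * π) := by
    intro θ
    simp only [hk]
    rw [add_div, div_self h2pi.ne', Int.fract_add_one]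
  have keq : ∀ θ ∈ Ioo 0 (2 * π), k θ = h θ := by
    intro θ hθ
    simp only [hk]
    have : Int.fract (θ / (2 * π)) = θ / (2 * π) := by
      rw [Int.fract_eq_self]
      exact ⟨by have := hθ.1; positivity, by rw [div_lt_one h2pi]; exact hθ.2⟩
    rw [this]
    congr 1
    field_simp
  refine ⟨fun θ => k (θ - π / 2), mk.comp (by fun_prop), fun θ => kb _, fun q => ?_⟩
  have e1 : circ h q.1 q.2 = circ k q.1 q.2 := by
    unfold circ
    refine setIntegral_congr_fun measurableSet_Ioo fun θ hθ => ?_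
    rw [keq θ hθ]
  rw [e1, hrg_circ_interval, hrg_circ_interval]
  change _ = ∫ θ in (0:ℝ)..(2 * π), k (θ - π / 2) *
    Complex.exp (((-(2 * π * (-q.2 * Real.cos θ + q.1 * Real.sin θ)) : ℝ) : ℂ) * Complex.I)
  set F : ℝ → ℂ := fun θ => k θ *
    Complex.exp (((-(2 * π * (q.1 * Real.cos θ + q.2 * Real.sin θ)) : ℝ) : ℂ) * Complex.I) with hF
  have Fper : Function.Periodic F (2 * π) := by
    intro θ
    simp only [hF]
    rw [kper θ, Real.cos_add_two_pi, Real.sin_add_two_pi]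
  have e2 : ∀ θ : ℝ, k (θ - π / 2) *
    Complex.exp (((-(2 * π * (-q.2 * Real.cos θ + q.1 * Real.sin θ)) : ℝ) : ℂ) * Complex.I) =
      F (θ - π / 2) := by
    intro θ
    simp only [hF]
    rw [Real.cos_sub_pi_div_two, Real.sin_sub_pi_div_two]
    congr 5
    ring
  simp only [e2]
  rw [intervalIntegral.integral_comp_sub_right F (π / 2)]
  have e3 := Fper.intervalIntegral_add_eq 0 (0 - π / 2)
  rw [zero_add, show 0 - π / 2 + 2 * π = 2 * π - π / 2 by ring] at e3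
  exact e3

theorem hrg_transfer (p : ℝ) (A : Set (ℝ × ℝ)) (hA : MeasurableSet A) (M : ℝ≥0∞)
    (H : ∀ h : ℝ → ℂ, Measurable h → (∀ θ, ‖h θ‖ ≤ 1) → ∫⁻ q in A, ‖circ h q.1 q.2‖ₑ ^ p ≤ M) :
    ∀ h : ℝ → ℂ, Measurable h → (∀ θ, ‖h θ‖ ≤ 1) →
      ∫⁻ q in hrg_rot ⁻¹' A, ‖circ h q.1 q.2‖ₑ ^ p ≤ M := by
  intro h hh hb
  obtain ⟨g, mg, bg, hg⟩ := hrg_rotate h hh hb
  simp only [hg]
  rw [hrg_rot_mp.setLIntegral_comp_preimage (f := fun q : ℝ × ℝ => ‖circ g q.1 q.2‖ₑ ^ p) hA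
    ((measurable_circ g mg).enorm.pow_const p)]
  exact H g mg bg

theorem hrg_cover (r : ℝ) (hr : 0 < r) : ann r ⊆ hrg_B r ∪ (hrg_rot ⁻¹' hrg_B r ∪
    (hrg_rot ⁻¹' (hrg_rot ⁻¹' hrg_B r) ∪ hrg_rot ⁻¹' (hrg_rot ⁻¹' (hrg_rot ⁻¹' hrg_B r)))) := by
  rintro ⟨a, b⟩ ⟨h1, h2⟩
  have h1' : r ^ 2 ≤ a ^ 2 + b ^ 2 := h1
  have h2' : a ^ 2 + b ^ 2 < (2 * r) ^ 2 := h2
  by_cases c1 : r / 2 ≤ b
  · exact Or.inl ⟨⟨h1, h2⟩, c1⟩
  by_cases c2 : r / 2 ≤ a
  · refine Or.inr (Or.inl ⟨⟨?_, ?_⟩, c2⟩)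
    · change r ^ 2 ≤ (-b) ^ 2 + a ^ 2
      linarith [neg_sq b]
    · change (-b) ^ 2 + a ^ 2 < (2 * r) ^ 2
      linarith [neg_sq b]
  by_cases c3 : r / 2 ≤ -b
  · refine Or.inr (Or.inr (Or.inl ⟨⟨?_, ?_⟩, c3⟩))
    · change r ^ 2 ≤ (-a) ^ 2 + (-b) ^ 2
      linarith [neg_sq b, neg_sq a]
    · change (-a) ^ 2 + (-b) ^ 2 < (2 * r) ^ 2
      linarith [neg_sq b, neg_sq a]
  by_cases c4 : r / 2 ≤ -a
  · refine Or.inr (Or.inr (Or.inr ⟨⟨?_, ?_⟩, c4⟩))
    · change r ^ 2 ≤ (- -b) ^ 2 + (-a) ^ 2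
      linarith [neg_sq (-b), neg_sq b, neg_sq a]
    · change (- -b) ^ 2 + (-a) ^ 2 < (2 * r) ^ 2
      linarith [neg_sq (-b), neg_sq b, neg_sq a]
  exfalso
  push Not at c1 c2 c3 c4
  nlinarith [mul_pos (sub_pos.mpr c1) (show 0 < r / 2 + b by linarith),
    mul_pos (sub_pos.mpr c2) (show 0 < r / 2 + a by linarith)]

theorem circ_Lp (p : ℝ) (hp2 : 2 < p) (hp4 : p < 4) (κ : ℝ) (hκ : 0 < κ) :
    ∃ C : ℝ≥0∞, C ≠ ∞ ∧ ∀ r : ℝ, 1 ≤ r → ∀ h : ℝ → ℂ, Measurable h → (∀ θ, ‖h θ‖ ≤ 1) →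
      ∫⁻ q in ann r, ‖circ h q.1 q.2‖ₑ ^ p ≤ C * ENNReal.ofReal (r ^ (2 - p / 2 + κ)) := by
  obtain ⟨C, hC, H⟩ := hrg_part p hp2 hp4 κ hκ
  refine ⟨4 * C, ENNReal.mul_ne_top (by simp) hC, fun r hr h hh hb => ?_⟩
  have hr0 : 0 < r := by linarith
  have mB := hrg_measurableSet_B r
  have m1 := hrg_rot_mp.measurable mB
  have m2 := hrg_rot_mp.measurable m1
  have T0 := H r hr
  have T1 := hrg_transfer p _ mB _ T0
  have T2 := hrg_transfer p _ m1 _ T1
  have T3 := hrg_transfer p _ m2 _ T2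
  refine (lintegral_mono_set (hrg_cover r hr0)).trans ?_
  refine (lintegral_union_le _ _ _).trans ?_
  refine (add_le_add (T0 h hh hb) ((lintegral_union_le _ _ _).trans
    (add_le_add (T1 h hh hb) ((lintegral_union_le _ _ _).trans
      (add_le_add (T2 h hh hb) (T3 h hh hb)))))).trans (le_of_eq ?_)
  ring

end Pool.Agent.HB
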