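import Pool.Agent.HB.RA
import Pool.Agent.HB.RG

/-!
# Row RP: polar coordinates of `C^m` adapted to complex lines

`∫_{r ≤ |ξ| < 2r} Φ(ξ) dξ = (1/2π) ∫_S dσ(ω) ∫_{r ≤ |ρ| < 2r} Φ(ρ ω) |ρ|^(2m-2) dA(ρ)`.

Proof. Polar coordinates (library `lintegral_polar`, file Sphere.lean, `m + m = j + 1`; apply it to the
indicator of the shell times `Φ`): the left side is
`∫_S dσ(ω) ∫_{r ≤ t < 2r} Φ(t ω) t^(2m-1) dt`. For every real `θ`, `lintegral_unitary` with the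
scalar isometry `exp(iθ)` shows that this equals `∫_S dσ(ω) ∫_t Φ(t exp(iθ) ω) t^(2m-1) dt`
(`t • rea (exp(iθ) • cpx ω) = cm (t exp(iθ)) ω`). Average over `θ ∈ (-π, π)`, exchange the integrals
(`lintegral_lintegral_swap`, everything measurable) and use polar coordinates of the plane
`lintegral_comp_polarCoord_symm` (`polarCoord.target = Ioi 0 ×ˢ Ioo (-π) π`, Jacobian `t`), with
`ρ = t cos θ + i t sin θ = t exp(iθ)` and `t^(2m-1) = t * t^(2m-2)`,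
`t^(2m-2) = (|ρ|²)^(m-1)`.
-/

namespace Pool.Agent.HB

open MeasureTheory Set Pool.Agent.MP_6cbfb8_an
open scoped ENNReal Real

/-- shell of `R^(2m)` -/
def sh (m : ℕ) (r : ℝ) : Set (E (m + m)) := {ξ | r ≤ ‖ξ‖ ∧ ‖ξ‖ < 2 * r}

theorem measurableSet_sh (m : ℕ) (r : ℝ) : MeasurableSet (sh m r) :=
  (measurableSet_le measurable_const measurable_norm).inter
    (measurableSet_lt measurable_norm measurable_const)

theorem hrp_polar (n j : ℕ) (h : n = j + 1) (φ : E n → ℝ≥0∞) (hφ : Measurable φ) :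
    ∫⁻ x, φ x = ∫⁻ ω : S n, (∫⁻ ρ in Ioi (0:ℝ), φ (ρ • (ω : E n)) * ENNReal.ofReal (ρ ^ j)) ∂(sm n) := by
  subst h
  exact lintegral_polar j φ hφ

/-- multiplication by the number `exp(iθ)` -/
noncomputable def hrp_U (m : ℕ) (θ : ℝ) : EC m ≃ₗᵢ[ℂ] EC m where
  toLinearEquiv := LinearEquiv.smulOfNeZero ℂ (EC m) (Complex.exp ((θ : ℂ) * Complex.I)) (Complex.exp_ne_zero _)
  norm_map' z := by
    change ‖Complex.exp ((θ : ℂ) * Complex.I) • z‖ = ‖z‖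
    rw [norm_smul, Complex.norm_exp_ofReal_mul_I, one_mul]

theorem hrp_U_apply (m : ℕ) (θ : ℝ) (z : EC m) : hrp_U m θ z = Complex.exp ((θ : ℂ) * Complex.I) • z := rfl

theorem hrp_phase {m : ℕ} (G : E (m + m) → ℝ≥0∞) (hG : Measurable G) (j : ℕ) (θ : ℝ) :
    ∫⁻ ω : S (m + m), (∫⁻ t in Ioi (0:ℝ), G (t • (ω : E (m + m))) * ENNReal.ofReal (t ^ j)) ∂(sm (m + m)) =
      ∫⁻ ω : S (m + m), (∫⁻ t in Ioi (0:ℝ),
        G (cm ((t : ℂ) * Complex.exp ((θ : ℂ) * Complex.I)) (ω : E (m + m))) * ENNReal.ofReal (t ^ j))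
        ∂(sm (m + m)) := by
  set Φ : EC m → ℝ≥0∞ := fun z => ∫⁻ t in Ioi (0:ℝ), G (t • rea z) * ENNReal.ofReal (t ^ j) with hΦ
  have m1 : Measurable fun q : EC m × ℝ => G (q.2 • rea q.1) * ENNReal.ofReal (q.2 ^ j) := by
    have c1 : Continuous fun q : EC m × ℝ => q.2 • rea q.1 :=
      continuous_snd.smul (continuous_rea.comp continuous_fst)
    have c2 : Measurable fun q : EC m × ℝ => ENNReal.ofReal (q.2 ^ j) := by fun_prop
    exact (hG.comp c1.measurable).mul c2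
  have m2 : Measurable Φ := m1.lintegral_prod_right'
  have h := lintegral_unitary (hrp_U m θ) Φ m2
  have e1 : ∀ x : E (m + m), Φ (cpx x) = ∫⁻ t in Ioi (0:ℝ), G (t • x) * ENNReal.ofReal (t ^ j) := by
    intro x
    simp only [hΦ]
    rw [rea_cpx]
  have e2 : ∀ x : E (m + m), Φ (hrp_U m θ (cpx x)) = ∫⁻ t in Ioi (0:ℝ),
      G (cm ((t : ℂ) * Complex.exp ((θ : ℂ) * Complex.I)) x) * ENNReal.ofReal (t ^ j) := by
    intro x
    simp only [hΦ]
    refine lintegral_congr fun t => ?_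
    rw [hrp_U_apply, ← cm_cm, cm_real]
    rfl
  simp only [e1, e2] at h
  exact h.symm

theorem lintegral_sh {m : ℕ} (hm : 1 ≤ m) (r : ℝ) (hr : 0 < r) (F : E (m + m) → ℝ≥0∞)
    (hF : Measurable F) :
    ∫⁻ ξ in sh m r, F ξ = ENNReal.ofReal (1 / (2 * π)) *
      ∫⁻ ω : S (m + m), (∫⁻ q in ann r, F (cm (⟨q.1, q.2⟩ : ℂ) (ω : E (m + m))) *
        ENNReal.ofReal ((q.1 ^ 2 + q.2 ^ 2) ^ (m - 1))) ∂(sm (m + m)) := by
  obtain ⟨j, hj⟩ : ∃ j, m + m = j + 1 := ⟨m + m - 1, by omega⟩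
  have hj2 : j = 2 * (m - 1) + 1 := by omega
  set G : E (m + m) → ℝ≥0∞ := (sh m r).indicator F with hG
  have mG : Measurable G := hF.indicator (measurableSet_sh m r)
  rw [← lintegral_indicator (measurableSet_sh m r)]
  change ∫⁻ x, G x = _
  rw [hrp_polar (m + m) j hj G mG]
  have hpi := Real.pi_pos
  set c : ℝ≥0∞ := ∫⁻ ω : S (m + m), (∫⁻ t in Ioi (0:ℝ), G (t • (ω : E (m + m))) *
    ENNReal.ofReal (t ^ j)) ∂(sm (m + m)) with hc
  -- the average over the angle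
  have h1 : ∫⁻ _θ in Ioo (-π) π, c = c * ENNReal.ofReal (2 * π) := by
    rw [lintegral_const, Measure.restrict_apply MeasurableSet.univ, univ_inter, Real.volume_Ioo]
    congr 2
    ring
  have h2 : c = ENNReal.ofReal (1 / (2 * π)) * ∫⁻ _θ in Ioo (-π) π, c := by
    rw [h1, mul_comm c, ← mul_assoc, ← ENNReal.ofReal_mul (by positivity)]
    have : 1 / (2 * π) * (2 * π) = 1 := by field_simp
    rw [this, ENNReal.ofReal_one, one_mul]
  rw [h2]
  congr 1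
  have h3 : ∫⁻ _θ in Ioo (-π) π, c = ∫⁻ θ in Ioo (-π) π, ∫⁻ ω : S (m + m), (∫⁻ t in Ioi (0:ℝ),
        G (cm ((t : ℂ) * Complex.exp ((θ : ℂ) * Complex.I)) (ω : E (m + m))) * ENNReal.ofReal (t ^ j))
        ∂(sm (m + m)) := by
    refine lintegral_congr fun θ => ?_
    rw [hc, hrp_phase G mG j θ]
  rw [h3]
  have m3 : Measurable fun q : (ℝ × S (m + m)) × ℝ =>
      G (cm ((q.2 : ℂ) * Complex.exp ((q.1.1 : ℂ) * Complex.I)) (q.1.2 : E (m + m))) *
        ENNReal.ofReal (q.2 ^ j) := by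
    have c1 : Continuous fun q : (ℝ × S (m + m)) × ℝ =>
        cm ((q.2 : ℂ) * Complex.exp ((q.1.1 : ℂ) * Complex.I)) (q.1.2 : E (m + m)) := by
      refine continuous_cm.comp (f := fun q : (ℝ × S (m + m)) × ℝ =>
        (((q.2 : ℂ) * Complex.exp ((q.1.1 : ℂ) * Complex.I), (q.1.2 : E (m + m))) : ℂ × E (m + m))) ?_
      fun_prop
    have c2 : Measurable fun q : (ℝ × S (m + m)) × ℝ => ENNReal.ofReal (q.2 ^ j) := by fun_prop
    exact (mG.comp c1.measurable).mul c2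
  rw [lintegral_lintegral_swap (m3.lintegral_prod_right' (ν := volume.restrict (Ioi (0:ℝ)))).aemeasurable]
  refine lintegral_congr fun ω => ?_
  have hω : ‖(ω : E (m + m))‖ = 1 := by simp
  -- polar coordinates in the plane
  have h4 := lintegral_comp_polarCoord_symm fun q : ℝ × ℝ =>
    G (cm (⟨q.1, q.2⟩ : ℂ) (ω : E (m + m))) * ENNReal.ofReal ((q.1 ^ 2 + q.2 ^ 2) ^ (m - 1))
  have h5 : ∫⁻ q : ℝ × ℝ, G (cm (⟨q.1, q.2⟩ : ℂ) (ω : E (m + m))) *
      ENNReal.ofReal ((q.1 ^ 2 + q.2 ^ 2) ^ (m - 1)) =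
      ∫⁻ q in ann r, F (cm (⟨q.1, q.2⟩ : ℂ) (ω : E (m + m))) *
        ENNReal.ofReal ((q.1 ^ 2 + q.2 ^ 2) ^ (m - 1)) := by
    rw [← lintegral_indicator (measurableSet_ann r)]
    refine lintegral_congr fun q => ?_
    have hn : ‖cm (⟨q.1, q.2⟩ : ℂ) (ω : E (m + m))‖ ^ 2 = q.1 ^ 2 + q.2 ^ 2 := by
      rw [norm_cm, hω, mul_one, Complex.sq_norm, Complex.normSq_apply]
      ring
    have hiff : cm (⟨q.1, q.2⟩ : ℂ) (ω : E (m + m)) ∈ sh m r ↔ q ∈ ann r := by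
      have hn0 := norm_nonneg (cm (⟨q.1, q.2⟩ : ℂ) (ω : E (m + m)))
      change (r ≤ _ ∧ _ < 2 * r) ↔ (r ^ 2 ≤ _ ∧ _ < (2 * r) ^ 2)
      rw [← hn, pow_le_pow_iff_left₀ hr.le hn0 two_ne_zero, pow_lt_pow_iff_left₀ hn0 (by linarith) two_ne_zero]
    by_cases hq : q ∈ ann r
    · rw [indicator_of_mem hq, hG, indicator_of_mem (hiff.mpr hq)]
    · rw [indicator_of_notMem hq, hG, indicator_of_notMem (fun h => hq (hiff.mp h)), zero_mul]
  rw [← h5, ← h4]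
  have m4 : Measurable fun p : ℝ × ℝ =>
      G (cm ((p.1 : ℂ) * Complex.exp ((p.2 : ℂ) * Complex.I)) (ω : E (m + m))) *
        ENNReal.ofReal (p.1 ^ j) := by
    have c1 : Continuous fun p : ℝ × ℝ =>
        cm ((p.1 : ℂ) * Complex.exp ((p.2 : ℂ) * Complex.I)) (ω : E (m + m)) := by
      refine continuous_cm.comp (f := fun p : ℝ × ℝ =>
        (((p.1 : ℂ) * Complex.exp ((p.2 : ℂ) * Complex.I), (ω : E (m + m))) : ℂ × E (m + m))) ?_
      fun_prop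
    have c2 : Measurable fun p : ℝ × ℝ => ENNReal.ofReal (p.1 ^ j) := by fun_prop
    exact (mG.comp c1.measurable).mul c2
  have h6 : ∫⁻ θ in Ioo (-π) π, (∫⁻ t in Ioi (0:ℝ),
        G (cm ((t : ℂ) * Complex.exp ((θ : ℂ) * Complex.I)) (ω : E (m + m))) * ENNReal.ofReal (t ^ j)) =
      ∫⁻ p in polarCoord.target, G (cm ((p.1 : ℂ) * Complex.exp ((p.2 : ℂ) * Complex.I)) (ω : E (m + m))) *
        ENNReal.ofReal (p.1 ^ j) := by
    change _ = ∫⁻ p in Ioi (0 : ℝ) ×ˢ Ioo (-π) π, _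
    rw [Measure.volume_eq_prod, setLIntegral_prod_symm _ m4.aemeasurable]
  refine h6.trans ?_
  refine setLIntegral_congr_fun polarCoord.open_target.measurableSet fun p hp => ?_
  have hp0 : 0 < p.1 := hp.1
  have e1 : (⟨(polarCoord.symm p).1, (polarCoord.symm p).2⟩ : ℂ) =
      (p.1 : ℂ) * Complex.exp ((p.2 : ℂ) * Complex.I) := by
    change (⟨p.1 * Real.cos p.2, p.1 * Real.sin p.2⟩ : ℂ) = _
    apply Complex.ext
    · rw [Complex.re_ofReal_mul, Complex.exp_ofReal_mul_I_re]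
    · rw [Complex.im_ofReal_mul, Complex.exp_ofReal_mul_I_im]
  have e2 : (polarCoord.symm p).1 ^ 2 + (polarCoord.symm p).2 ^ 2 = p.1 ^ 2 := by
    change (p.1 * Real.cos p.2) ^ 2 + (p.1 * Real.sin p.2) ^ 2 = _
    have := Real.sin_sq_add_cos_sq p.2
    linear_combination p.1 ^ 2 * this
  simp only [smul_eq_mul]
  rw [e1, e2, mul_left_comm, ← ENNReal.ofReal_mul hp0.le, ← pow_mul, ← pow_succ', ← hj2]

end Pool.Agent.HB
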