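import Pool.Agent.HB.RF
import Pool.Agent.HB.RP
import Pool.Agent.MP_6cbfb8_an.SteinTomas
import Pool.Agent.MP_6cbfb8_an.Main

/-!
# Row RH: the `L^p` bound for functions holomorphic on a larger ball

`f` is holomorphic on the ball of radius `ρ0 > 1` and bounded by one there.

`measurable_extn_hol`: on the sphere `x ↦ f (cpx x)` is continuous (`‖cpx x‖ = 1 < ρ0`), so
`g' x = if ‖x‖ = 1 then f (cpx x) else 0` is measurable (`ContinuousOn.measurable_piecewise` or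
`Measurable.ite` after restricting) and `extn g' = extn (f ∘ cpx)` (library
`extn_congr_sphere` in LiftF.lean); library `measurable_extn` (SteinTomas.lean).

`shell_bound`: `lintegral_sh` (row RP) with `F ξ = ‖extn (f ∘ cpx) ξ‖ₑ ^ p`. For `ω` in the unit sphere
and `ρ ≠ 0`, `slice_norm` gives
`‖extn (f ∘ cpx) (cm ρ ω)‖ = A_m ‖ρ‖^(-(m-1)) ‖circ (sl f ω) ρ.re ρ.im‖`,
`A_m = |S| (m-1)! / (2π π^(m-1))`, and `|ρ| ≥ r` on the annulus; `|ρ|^(2m-2) ≤ (2r)^(2m-2)`. Hence the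
left side is at most
`(1/2π) |S| A_m^p r^(-(m-1)p) (2r)^(2m-2) sup_ω ∫_{ann r} ‖circ (sl f ω)‖^p`
and `circ_Lp` (row RG) applies to `h = sl f ω` (measurable: continuous; `|sl f ω| ≤ 1`).
The exponent of `r`: `(m-1)(2-p) + 2 - p/2 + κ`.

`hol_small`: `‖extn (f ∘ cpx) ξ‖ ≤ |S|` for every `ξ` (in `ℝ≥0∞`: `sm (m+m) univ`).

`base_hol`: let `p > 2n/(n-1) = 4m/(2m-1)`; choose `p'` with `4m/(2m-1) < p' < min p 4`, so `2 < p' < 4`
and `e = (m-1)(2-p') + 2 - p'/2 < 0` (indeed `e = (4m - p'(2m-1))/2`). Take `κ = -e/2`. The whole space is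
the ball of radius one and the shells `sh m (2^k)`, `k ≥ 0`; on the ball use `hol_small`, sum the shells
(`tsum_dyadic_ne_top` in Main.lean sums `(2^k)^e'` for `e' < 0`). This gives the bound for `p'`, and
`‖extn‖^p ≤ |S|^(p-p') ‖extn‖^p'` (library `lintegral_rpow_le_sup` in Tools.lean) gives it for `p`.
(Main.lean of Pool/Agent/MP_6cbfb8_an does exactly this kind of summation in `main_cyl`.)
-/

namespace Pool.Agent.HB

open MeasureTheory Set Pool.Agent.MP_6cbfb8_an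
open scoped ENNReal Real ComplexConjugate

theorem measurable_extn_hol {m : ℕ} (ρ0 : ℝ) (hρ0 : 1 < ρ0) (f : EC m → ℂ)
    (hf : DifferentiableOn ℂ f (Metric.ball 0 ρ0)) :
    Measurable (extn fun x : E (m + m) => f (cpx x)) := by
  classical
  have hc : ContinuousOn (fun x : E (m + m) => f (cpx x)) (Metric.sphere 0 1) := by
    refine hf.continuousOn.comp continuous_cpx.continuousOn ?_
    intro x hx
    rw [mem_sphere_zero_iff_norm] at hx
    rw [mem_ball_zero_iff, norm_cpx, hx]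
    exact hρ0
  have hm : Measurable ((Metric.sphere (0 : E (m + m)) 1).piecewise
      (fun x : E (m + m) => f (cpx x)) (fun _ => (0 : ℂ))) :=
    hc.measurable_piecewise continuousOn_const Metric.isClosed_sphere.measurableSet
  have he : (extn fun x : E (m + m) => f (cpx x)) =
      extn ((Metric.sphere (0 : E (m + m)) 1).piecewise
        (fun x : E (m + m) => f (cpx x)) (fun _ => (0 : ℂ))) := by
    refine extn_congr_sphere fun x hx => ?_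
    rw [Set.piecewise_eq_of_mem _ _ _ (mem_sphere_zero_iff_norm.2 hx)]
  rw [he]
  exact measurable_extn _ hm

theorem hol_small {m : ℕ} (ρ0 : ℝ) (hρ0 : 1 < ρ0) (f : EC m → ℂ)
    (hb : ∀ z ∈ Metric.ball (0 : EC m) ρ0, ‖f z‖ ≤ 1) (ξ : E (m + m)) :
    ‖extn (fun x : E (m + m) => f (cpx x)) ξ‖ₑ ≤ sm (m + m) univ := by
  unfold extn
  refine (enorm_integral_le_lintegral_enorm _).trans ?_
  calc _ ≤ ∫⁻ _x : S (m + m), (1 : ℝ≥0∞) ∂(sm (m + m)) := by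
        refine lintegral_mono fun x => ?_
        rw [enorm_mul, enorm_phase, mul_one, ← ofReal_norm, ENNReal.ofReal_le_one]
        refine hb _ ?_
        rw [mem_ball_zero_iff, norm_cpx, mem_sphere_zero_iff_norm.1 x.2]
        exact hρ0
    _ = sm (m + m) univ := by simp

/-- the restriction to circles is measurable -/
theorem hrh_sl {m : ℕ} (ρ0 : ℝ) (hρ0 : 1 < ρ0) (f : EC m → ℂ)
    (hf : DifferentiableOn ℂ f (Metric.ball 0 ρ0))
    (hb : ∀ z ∈ Metric.ball (0 : EC m) ρ0, ‖f z‖ ≤ 1) (ω : E (m + m)) (hω : ‖ω‖ = 1) :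
    Measurable (sl f ω) ∧ ∀ θ, ‖sl f ω θ‖ ≤ 1 := by
  have hmem : ∀ θ : ℝ, Complex.exp ((θ : ℂ) * Complex.I) • cpx ω ∈ Metric.ball (0 : EC m) ρ0 := by
    intro θ
    rw [mem_ball_zero_iff, norm_smul, norm_cpx, hω, Complex.norm_exp_ofReal_mul_I, mul_one]
    exact hρ0
  constructor
  · have hc : Continuous (sl f ω) := by
      unfold sl
      refine Continuous.mul ?_ (by fun_prop)
      refine hf.continuousOn.comp_continuous ?_ hmem
      fun_prop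
    exact hc.measurable
  · intro θ
    rw [sl, norm_mul, norm_pow, Complex.norm_exp_ofReal_mul_I, one_pow, mul_one]
    exact hb _ (hmem θ)

/-- the powers of `r` -/
theorem hrh_pow (A r p : ℝ) (m : ℕ) (hA : 0 ≤ A) (hr : 0 < r) (hm : 1 ≤ m) (hp : 0 ≤ p) :
    ENNReal.ofReal (A * (r ^ (m - 1))⁻¹) ^ p * ENNReal.ofReal (((2 * r) ^ 2) ^ (m - 1)) =
      ENNReal.ofReal (A ^ p * 4 ^ (m - 1)) * ENNReal.ofReal (r ^ (((m : ℝ) - 1) * (2 - p))) := by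
  have hr1 : 0 < r ^ (m - 1) := pow_pos hr _
  rw [ENNReal.ofReal_rpow_of_nonneg (by positivity) hp, ← ENNReal.ofReal_mul (by positivity),
    ← ENNReal.ofReal_mul (by positivity)]
  congr 1
  have e1 : (A * (r ^ (m - 1))⁻¹) ^ p = A ^ p * r ^ (-(((m : ℝ) - 1) * p)) := by
    rw [Real.mul_rpow hA (by positivity)]
    congr 1
    have e2 : (r ^ (m - 1))⁻¹ = r ^ (-((m : ℝ) - 1)) := by
      rw [Real.rpow_neg hr.le, ← Real.rpow_natCast, Nat.cast_sub hm, Nat.cast_one]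
    rw [e2, ← Real.rpow_mul hr.le, neg_mul]
  have e3 : ((2 * r) ^ 2) ^ (m - 1) = 4 ^ (m - 1) * r ^ (2 * ((m : ℝ) - 1)) := by
    have e4 : (2 * r) ^ 2 = 4 * r ^ 2 := by ring
    rw [e4, mul_pow]
    congr 1
    have e5 : (m : ℝ) - 1 = ((m - 1 : ℕ) : ℝ) := by
      rw [Nat.cast_sub hm, Nat.cast_one]
    rw [e5, Real.rpow_mul hr.le, Real.rpow_natCast, Real.rpow_two]
  rw [e1, e3]
  have e5 : r ^ (((m : ℝ) - 1) * (2 - p)) = r ^ (-(((m : ℝ) - 1) * p)) * r ^ (2 * ((m : ℝ) - 1)) := by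
    rw [← Real.rpow_add hr]
    congr 1
    ring
  rw [e5]
  ring

/-- the pointwise bound on an annulus -/
theorem hrh_point {m : ℕ} (hm : 2 ≤ m) (ω : E (m + m)) (hω : ‖ω‖ = 1) (ρ0 : ℝ) (hρ0 : 1 < ρ0)
    (f : EC m → ℂ) (hf : DifferentiableOn ℂ f (Metric.ball 0 ρ0)) (r : ℝ) (hr : 0 < r)
    (q : ℝ × ℝ) (hq : q ∈ ann r) :
    ‖extn (fun x => f (cpx x)) (cm (⟨q.1, q.2⟩ : ℂ) ω)‖ₑ ≤
      ENNReal.ofReal ((sm (m + m)).real univ * ((m - 1).factorial : ℝ) / (2 * π * π ^ (m - 1)) *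
        (r ^ (m - 1))⁻¹) * ‖circ (sl f ω) q.1 q.2‖ₑ := by
  have h1 := slice_norm hm ω hω ρ0 hρ0 f hf (⟨q.1, q.2⟩ : ℂ)
  have hn : ‖(⟨q.1, q.2⟩ : ℂ)‖ ^ 2 = q.1 ^ 2 + q.2 ^ 2 := by
    rw [Complex.sq_norm, Complex.normSq_apply]
    ring
  have hrn : r ≤ ‖(⟨q.1, q.2⟩ : ℂ)‖ := by
    refine le_of_sq_le_sq ?_ (norm_nonneg _)
    rw [hn]
    exact hq.1
  have h2 : 2 * π * (π * ‖(⟨q.1, q.2⟩ : ℂ)‖) ^ (m - 1) *
      ‖extn (fun x => f (cpx x)) (cm (⟨q.1, q.2⟩ : ℂ) ω)‖ =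
      (sm (m + m)).real univ * ((m - 1).factorial : ℝ) * ‖circ (sl f ω) q.1 q.2‖ := h1
  have hY := norm_nonneg (circ (sl f ω) q.1 q.2)
  have hX := norm_nonneg (extn (fun x => f (cpx x)) (cm (⟨q.1, q.2⟩ : ℂ) ω))
  have hσ : 0 ≤ (sm (m + m)).real univ * ((m - 1).factorial : ℝ) := by positivity
  have hA : 0 ≤ (sm (m + m)).real univ * ((m - 1).factorial : ℝ) / (2 * π * π ^ (m - 1)) *
        (r ^ (m - 1))⁻¹ := by positivity
  rw [← ofReal_norm, ← ofReal_norm, ← ENNReal.ofReal_mul hA]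
  refine ENNReal.ofReal_le_ofReal ?_
  set X := ‖extn (fun x => f (cpx x)) (cm (⟨q.1, q.2⟩ : ℂ) ω)‖
  set Y := ‖circ (sl f ω) q.1 q.2‖
  set N := ‖(⟨q.1, q.2⟩ : ℂ)‖
  have h3 : 2 * π * π ^ (m - 1) * r ^ (m - 1) * X ≤
      (sm (m + m)).real univ * ((m - 1).factorial : ℝ) * Y := by
    rw [← h2, mul_pow]
    have h4 : r ^ (m - 1) ≤ N ^ (m - 1) := pow_le_pow_left₀ hr.le hrn _
    calc 2 * π * π ^ (m - 1) * r ^ (m - 1) * X = 2 * π * π ^ (m - 1) * X * r ^ (m - 1) := by ring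
      _ ≤ 2 * π * π ^ (m - 1) * X * N ^ (m - 1) := by gcongr
      _ = _ := by ring
  have h5 : 0 < 2 * π * π ^ (m - 1) * r ^ (m - 1) := by positivity
  calc X = (2 * π * π ^ (m - 1) * r ^ (m - 1) * X) / (2 * π * π ^ (m - 1) * r ^ (m - 1)) := by
        field_simp
    _ ≤ ((sm (m + m)).real univ * ((m - 1).factorial : ℝ) * Y) /
        (2 * π * π ^ (m - 1) * r ^ (m - 1)) := by gcongr
    _ = _ := by field_simp

theorem shell_bound {m : ℕ} (hm : 2 ≤ m) (p : ℝ) (hp2 : 2 < p) (hp4 : p < 4) (κ : ℝ) (hκ : 0 < κ) :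
    ∃ C : ℝ≥0∞, C ≠ ∞ ∧ ∀ r : ℝ, 1 ≤ r → ∀ ρ0 : ℝ, 1 < ρ0 → ∀ f : EC m → ℂ,
      DifferentiableOn ℂ f (Metric.ball 0 ρ0) → (∀ z ∈ Metric.ball (0 : EC m) ρ0, ‖f z‖ ≤ 1) →
      ∫⁻ ξ in sh m r, ‖extn (fun x : E (m + m) => f (cpx x)) ξ‖ₑ ^ p ≤
        C * ENNReal.ofReal (r ^ (((m : ℝ) - 1) * (2 - p) + 2 - p / 2 + κ)) := by
  obtain ⟨C, hC, H⟩ := circ_Lp p hp2 hp4 κ hκ
  have hp0 : (0 : ℝ) ≤ p := by linarith
  set A : ℝ := (sm (m + m)).real univ * ((m - 1).factorial : ℝ) / (2 * π * π ^ (m - 1)) with hAdef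
  have hA : 0 ≤ A := by positivity
  refine ⟨ENNReal.ofReal (1 / (2 * π)) * (ENNReal.ofReal (A ^ p * 4 ^ (m - 1)) * C *
    sm (m + m) univ), ?_, fun r hr1 ρ0 hρ0 f hf hb => ?_⟩
  · exact ENNReal.mul_ne_top ENNReal.ofReal_ne_top (ENNReal.mul_ne_top
      (ENNReal.mul_ne_top ENNReal.ofReal_ne_top hC) (sm_univ_ne_top _))
  have hr : 0 < r := by linarith
  have hF : Measurable fun ξ => ‖extn (fun x : E (m + m) => f (cpx x)) ξ‖ₑ ^ p :=
    (measurable_extn_hol ρ0 hρ0 f hf).enorm.pow_const p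
  rw [lintegral_sh (by omega) r hr _ hF]
  have hin : ∀ ω : S (m + m), ∫⁻ q in ann r,
      ‖extn (fun x : E (m + m) => f (cpx x)) (cm (⟨q.1, q.2⟩ : ℂ) (ω : E (m + m)))‖ₑ ^ p *
        ENNReal.ofReal ((q.1 ^ 2 + q.2 ^ 2) ^ (m - 1)) ≤
      ENNReal.ofReal (A ^ p * 4 ^ (m - 1)) * C *
        ENNReal.ofReal (r ^ (((m : ℝ) - 1) * (2 - p) + 2 - p / 2 + κ)) := by
    intro ω
    have hω : ‖(ω : E (m + m))‖ = 1 := mem_sphere_zero_iff_norm.1 ω.2
    obtain ⟨hs1, hs2⟩ := hrh_sl ρ0 hρ0 f hf hb (ω : E (m + m)) hω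
    calc _ ≤ ∫⁻ q in ann r, (ENNReal.ofReal (A * (r ^ (m - 1))⁻¹) ^ p *
          ENNReal.ofReal (((2 * r) ^ 2) ^ (m - 1))) * ‖circ (sl f (ω : E (m + m))) q.1 q.2‖ₑ ^ p := by
          refine setLIntegral_mono' (measurableSet_ann r) fun q hq => ?_
          have h1 := hrh_point hm (ω : E (m + m)) hω ρ0 hρ0 f hf r hr q hq
          have h2 : ENNReal.ofReal ((q.1 ^ 2 + q.2 ^ 2) ^ (m - 1)) ≤
              ENNReal.ofReal (((2 * r) ^ 2) ^ (m - 1)) := by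
            refine ENNReal.ofReal_le_ofReal (pow_le_pow_left₀ (by positivity) hq.2.le _)
          calc _ ≤ (ENNReal.ofReal (A * (r ^ (m - 1))⁻¹) *
                ‖circ (sl f (ω : E (m + m))) q.1 q.2‖ₑ) ^ p *
                ENNReal.ofReal (((2 * r) ^ 2) ^ (m - 1)) := by
                gcongr
            _ = _ := by
                rw [ENNReal.mul_rpow_of_nonneg _ _ hp0]
                ring
      _ = (ENNReal.ofReal (A * (r ^ (m - 1))⁻¹) ^ p *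
          ENNReal.ofReal (((2 * r) ^ 2) ^ (m - 1))) *
          ∫⁻ q in ann r, ‖circ (sl f (ω : E (m + m))) q.1 q.2‖ₑ ^ p := by
          rw [lintegral_const_mul _ ((measurable_circ _ hs1).enorm.pow_const p)]
      _ ≤ (ENNReal.ofReal (A ^ p * 4 ^ (m - 1)) *
          ENNReal.ofReal (r ^ (((m : ℝ) - 1) * (2 - p)))) * (C * ENNReal.ofReal (r ^ (2 - p / 2 + κ))) := by
          rw [hrh_pow A r p m hA hr (by omega) hp0]
          gcongr
          exact H r hr1 _ hs1 hs2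
      _ = ENNReal.ofReal (A ^ p * 4 ^ (m - 1)) * C *
          (ENNReal.ofReal (r ^ (((m : ℝ) - 1) * (2 - p))) * ENNReal.ofReal (r ^ (2 - p / 2 + κ))) := by
          ring
      _ = _ := by
          rw [← ENNReal.ofReal_mul (by positivity), ← Real.rpow_add hr]
          congr 3
          ring
  calc _ ≤ ENNReal.ofReal (1 / (2 * π)) * ∫⁻ _ω : S (m + m), ENNReal.ofReal (A ^ p * 4 ^ (m - 1)) * C *
        ENNReal.ofReal (r ^ (((m : ℝ) - 1) * (2 - p) + 2 - p / 2 + κ)) ∂(sm (m + m)) := by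
        gcongr with ω
        exact hin ω
    _ = _ := by
        rw [lintegral_const]
        ring

theorem base_hol {m : ℕ} (hm : 2 ≤ m) (p : ℝ) (hp : 4 * (m : ℝ) / (2 * m - 1) < p) :
    ∃ C : ℝ≥0∞, C ≠ ∞ ∧ ∀ ρ0 : ℝ, 1 < ρ0 → ∀ f : EC m → ℂ,
      DifferentiableOn ℂ f (Metric.ball 0 ρ0) → (∀ z ∈ Metric.ball (0 : EC m) ρ0, ‖f z‖ ≤ 1) →
      ∫⁻ ξ, ‖extn (fun x : E (m + m) => f (cpx x)) ξ‖ₑ ^ p ≤ C := by
  have hmR : (2 : ℝ) ≤ m := by exact_mod_cast hm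
  have hd : (0 : ℝ) < 2 * m - 1 := by linarith
  have h4 : 4 * (m : ℝ) / (2 * m - 1) < 4 := by
    rw [div_lt_iff₀ hd]
    linarith
  obtain ⟨p', h1, h2⟩ := exists_between (lt_min hp h4)
  have h2p : p' < p := lt_of_lt_of_le h2 (min_le_left _ _)
  have h24 : p' < 4 := lt_of_lt_of_le h2 (min_le_right _ _)
  have hp'2 : 2 < p' := by
    refine lt_trans ?_ h1
    rw [lt_div_iff₀ hd]
    linarith
  set e : ℝ := ((m : ℝ) - 1) * (2 - p') + 2 - p' / 2 with he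
  have he0 : e < 0 := by
    rw [div_lt_iff₀ hd] at h1
    rw [he]
    nlinarith
  obtain ⟨C, hC, H⟩ := shell_bound hm p' hp'2 h24 (-e / 2) (by linarith)
  set T := ∑' k : ℕ, ENNReal.ofReal (((2 : ℝ) ^ k) ^ (((m : ℝ) - 1) * (2 - p') + 2 - p' / 2 + -e / 2))
    with hT
  have hTt : T ≠ ∞ := tsum_dyadic_ne_top _ (by rw [← he]; linarith)
  set M : ℝ≥0∞ := sm (m + m) univ with hM
  have hMt : M ≠ ∞ := sm_univ_ne_top _
  refine ⟨M ^ (p - p') * (M ^ p' * volume (Metric.ball (0 : E (m + m)) 1) + C * T), ?_,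
    fun ρ0 hρ0 f hf hb => ?_⟩
  · refine ENNReal.mul_ne_top (ENNReal.rpow_ne_top_of_nonneg (by linarith) hMt) ?_
    refine ENNReal.add_ne_top.2 ⟨ENNReal.mul_ne_top (ENNReal.rpow_ne_top_of_nonneg (by linarith) hMt)
      measure_ball_lt_top.ne, ENNReal.mul_ne_top hC hTt⟩
  have hmeas : Measurable fun ξ => ‖extn (fun x : E (m + m) => f (cpx x)) ξ‖ₑ :=
    (measurable_extn_hol ρ0 hρ0 f hf).enorm
  have hsup : ∀ ξ, ‖extn (fun x : E (m + m) => f (cpx x)) ξ‖ₑ ≤ M := hol_small ρ0 hρ0 f hb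
  refine (lintegral_rpow_le_sup _ hmeas (by linarith : (0 : ℝ) ≤ p') h2p.le M hsup).trans ?_
  gcongr
  have hcov : (univ : Set (E (m + m))) ⊆ Metric.ball 0 1 ∪ ⋃ k : ℕ, sh m ((2 : ℝ) ^ k) := by
    intro y _
    by_cases h : ‖y‖ < 1
    · left
      simpa using h
    · right
      push Not at h
      obtain ⟨k, hk1, hk2⟩ := exists_nat_pow_near (x := ‖y‖) (y := 2) h (by norm_num)
      refine mem_iUnion.2 ⟨k, hk1, ?_⟩
      rw [← pow_succ']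
      exact hk2
  have hball : ∫⁻ ξ in Metric.ball (0 : E (m + m)) 1,
      ‖extn (fun x : E (m + m) => f (cpx x)) ξ‖ₑ ^ p' ≤
      M ^ p' * volume (Metric.ball (0 : E (m + m)) 1) := by
    calc _ ≤ ∫⁻ _ξ in Metric.ball (0 : E (m + m)) 1, M ^ p' := by
          gcongr with ξ
          exact hsup ξ
      _ = _ := by
          rw [lintegral_const, Measure.restrict_apply_univ]
  calc ∫⁻ ξ, ‖extn (fun x : E (m + m) => f (cpx x)) ξ‖ₑ ^ p'
      = ∫⁻ ξ in univ, ‖extn (fun x : E (m + m) => f (cpx x)) ξ‖ₑ ^ p' := by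
        rw [setLIntegral_univ]
    _ ≤ ∫⁻ ξ in Metric.ball 0 1 ∪ ⋃ k : ℕ, sh m ((2 : ℝ) ^ k),
          ‖extn (fun x : E (m + m) => f (cpx x)) ξ‖ₑ ^ p' := lintegral_mono_set hcov
    _ ≤ (∫⁻ ξ in Metric.ball (0 : E (m + m)) 1,
          ‖extn (fun x : E (m + m) => f (cpx x)) ξ‖ₑ ^ p') +
        ∫⁻ ξ in ⋃ k : ℕ, sh m ((2 : ℝ) ^ k), ‖extn (fun x : E (m + m) => f (cpx x)) ξ‖ₑ ^ p' :=
        lintegral_union_le _ _ _
    _ ≤ M ^ p' * volume (Metric.ball (0 : E (m + m)) 1) +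
        ∑' k : ℕ, C * ENNReal.ofReal (((2 : ℝ) ^ k) ^
          (((m : ℝ) - 1) * (2 - p') + 2 - p' / 2 + -e / 2)) := by
        gcongr
        refine (lintegral_iUnion_le _ _).trans ?_
        exact ENNReal.tsum_le_tsum fun k => H _ (one_le_pow₀ (by norm_num)) ρ0 hρ0 f hf hb
    _ = _ := by
        rw [ENNReal.tsum_mul_left]

end Pool.Agent.HB
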