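import Pool.Agent.HB.RH

/-!
# Row RI: boundary values

`base_BV`: let `g` be measurable, `|g| ≤ 1`, with `BV m g`, and `f` the holomorphic function. For
`k : ℕ` put `r_k = 1 - 1/(k+2)` and `f_k z = f ((r_k : ℂ) • z)`. It is holomorphic on the ball of radius
`1/r_k > 1` and bounded by one there, so `base_hol` bounds
`∫⁻ ξ, ‖extn (f_k ∘ cpx) ξ‖ₑ ^ p ≤ C` for every `k`. For every `ξ`,
`extn (f_k ∘ cpx) ξ → extn g ξ` by dominated convergence (`tendsto_integral_of_dominated_convergence`,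
bound `1`, pointwise almost everywhere limit from `BV`, since `r_k → 1` from below:
`r_k → nhdsWithin 1 (Iio 1)`; measurability of `x ↦ f_k (cpx x)` on the sphere by continuity). Fatou's
lemma (`lintegral_liminf_le`) with `measurable_extn_hol`:
`∫⁻ ‖extn g ξ‖ₑ^p = ∫⁻ lim ... ≤ liminf ∫⁻ ≤ C` (continuity of `t ↦ ‖t‖ₑ^p`).

`BV_conj`-type lemmas are not needed.
-/

namespace Pool.Agent.HB

open MeasureTheory Set Pool.Agent.MP_6cbfb8_an
open scoped ENNReal Real ComplexConjugate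

/-- the radii -/
noncomputable def hri_r (k : ℕ) : ℝ := 1 - 1 / ((k : ℝ) + 2)

theorem hri_pos (k : ℕ) : 0 < hri_r k := by
  unfold hri_r
  have h1 : (0 : ℝ) ≤ k := Nat.cast_nonneg k
  have h2 : 1 / ((k : ℝ) + 2) < 1 := by
    rw [div_lt_one (by linarith)]
    linarith
  linarith

theorem hri_lt (k : ℕ) : hri_r k < 1 := by
  unfold hri_r
  have h1 : (0 : ℝ) ≤ k := Nat.cast_nonneg k
  have h2 : 0 < 1 / ((k : ℝ) + 2) := by positivity
  linarith

theorem hri_tendsto : Filter.Tendsto hri_r Filter.atTop (nhdsWithin 1 (Iio 1)) := by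
  refine tendsto_nhdsWithin_iff.2 ⟨?_, Filter.Eventually.of_forall fun k => hri_lt k⟩
  have h1 : Filter.Tendsto (fun k : ℕ => 1 / ((k : ℝ) + 2)) Filter.atTop (nhds 0) := by
    have h2 := (tendsto_one_div_add_atTop_nhds_zero_nat (𝕜 := ℝ)).comp (Filter.tendsto_add_atTop_nat 1)
    refine h2.congr fun k => ?_
    simp only [Function.comp]
    push_cast
    ring
  have h2 := h1.const_sub 1
  rw [sub_zero] at h2
  exact h2

/-- the dilates -/
noncomputable def hri_f {m : ℕ} (f : EC m → ℂ) (k : ℕ) (z : EC m) : ℂ := f ((hri_r k : ℂ) • z)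

theorem hri_mem {m : ℕ} (k : ℕ) {z : EC m} (hz : z ∈ Metric.ball (0 : EC m) (1 / hri_r k)) :
    (hri_r k : ℂ) • z ∈ Metric.ball (0 : EC m) 1 := by
  rw [Metric.mem_ball, dist_zero_right] at hz ⊢
  rw [norm_smul, Complex.norm_real, Real.norm_of_nonneg (hri_pos k).le]
  rwa [lt_div_iff₀ (hri_pos k), mul_comm] at hz

theorem hri_diff {m : ℕ} {f : EC m → ℂ} (hf : DifferentiableOn ℂ f (Metric.ball 0 1)) (k : ℕ) :
    DifferentiableOn ℂ (hri_f f k) (Metric.ball 0 (1 / hri_r k)) := by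
  unfold hri_f
  exact hf.comp (differentiable_id.const_smul (hri_r k : ℂ)).differentiableOn fun z hz => hri_mem k hz

theorem hri_one_lt (k : ℕ) : 1 < 1 / hri_r k := (one_lt_div (hri_pos k)).2 (hri_lt k)

theorem hri_bound {m : ℕ} {f : EC m → ℂ} (hb : ∀ z ∈ Metric.ball (0 : EC m) 1, ‖f z‖ ≤ 1) (k : ℕ) :
    ∀ z ∈ Metric.ball (0 : EC m) (1 / hri_r k), ‖hri_f f k z‖ ≤ 1 :=
  fun z hz => hb _ (hri_mem k hz)

theorem hri_cpx_mem {m : ℕ} (k : ℕ) (x : S (m + m)) :
    cpx (x : E (m + m)) ∈ Metric.ball (0 : EC m) (1 / hri_r k) := by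
  have h : ‖(x : E (m + m))‖ = 1 := by simp
  rw [Metric.mem_ball, dist_zero_right, norm_cpx, h]
  exact hri_one_lt k

theorem hri_lim {m : ℕ} {f : EC m → ℂ} (hf : DifferentiableOn ℂ f (Metric.ball 0 1))
    (hb : ∀ z ∈ Metric.ball (0 : EC m) 1, ‖f z‖ ≤ 1) {g : E (m + m) → ℂ}
    (hlim : ∀ᵐ x : S (m + m) ∂(sm (m + m)),
      Filter.Tendsto (fun r : ℝ => f ((r : ℂ) • cpx (x : E (m + m)))) (nhdsWithin 1 (Iio 1))
        (nhds (g x))) (ξ : E (m + m)) :
    Filter.Tendsto (fun k => extn (fun x : E (m + m) => hri_f f k (cpx x)) ξ) Filter.atTop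
      (nhds (extn g ξ)) := by
  unfold extn
  refine tendsto_integral_of_dominated_convergence (fun _ => (1 : ℝ)) (fun k => ?_)
    (integrable_const _) (fun k => ?_) ?_
  · have h1 : Continuous fun x : S (m + m) => hri_f f k (cpx (x : E (m + m))) :=
      (hri_diff hf k).continuousOn.comp_continuous (continuous_cpx.comp continuous_subtype_val)
        fun x => hri_cpx_mem k x
    have h2 : Continuous fun x : S (m + m) =>
        Complex.exp (((-(2 * π * inner ℝ (x : E (m + m)) ξ) : ℝ) : ℂ) * Complex.I) := by fun_prop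
    exact (h1.mul h2).aestronglyMeasurable
  · refine Filter.Eventually.of_forall fun x => ?_
    rw [norm_mul, Complex.norm_exp_ofReal_mul_I, mul_one]
    exact hri_bound hb k _ (hri_cpx_mem k x)
  · filter_upwards [hlim] with x hx
    exact (hx.comp hri_tendsto).mul_const _

theorem base_BV {m : ℕ} (hm : 2 ≤ m) (p : ℝ) (hp : 4 * (m : ℝ) / (2 * m - 1) < p) :
    ∃ C : ℝ≥0∞, C ≠ ∞ ∧ ∀ g : E (m + m) → ℂ, Measurable g → (∀ x, ‖g x‖ ≤ 1) → BV m g →
      ∫⁻ ξ, ‖extn g ξ‖ₑ ^ p ≤ C := by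
  obtain ⟨C, hC, h⟩ := base_hol hm p hp
  refine ⟨C, hC, fun g _ _ hBV => ?_⟩
  obtain ⟨f, hf, hb, hlim⟩ := hBV
  have h1 : ∀ ξ : E (m + m), Filter.liminf
      (fun k => ‖extn (fun x : E (m + m) => hri_f f k (cpx x)) ξ‖ₑ ^ p) Filter.atTop =
      ‖extn g ξ‖ₑ ^ p := fun ξ =>
    (((ENNReal.continuous_rpow_const (y := p)).tendsto _).comp
      ((continuous_enorm.tendsto _).comp (hri_lim hf hb hlim ξ))).liminf_eq
  calc ∫⁻ ξ, ‖extn g ξ‖ₑ ^ p
      = ∫⁻ ξ, Filter.liminf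
          (fun k => ‖extn (fun x : E (m + m) => hri_f f k (cpx x)) ξ‖ₑ ^ p) Filter.atTop :=
        lintegral_congr fun ξ => (h1 ξ).symm
    _ ≤ Filter.liminf (fun k => ∫⁻ ξ, ‖extn (fun x : E (m + m) => hri_f f k (cpx x)) ξ‖ₑ ^ p)
          Filter.atTop :=
        lintegral_liminf_le fun k =>
          (measurable_extn_hol _ (hri_one_lt k) _ (hri_diff hf k)).enorm.pow_const p
    _ ≤ Filter.liminf (fun _ : ℕ => C) Filter.atTop :=
        Filter.liminf_le_liminf (Filter.Eventually.of_forall fun k =>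
          h _ (hri_one_lt k) _ (hri_diff hf k) (hri_bound hb k))
    _ = C := Filter.liminf_const C

end Pool.Agent.HB
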