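import Pool.Agent.HB.RG

/-!
# Row RK: the planar theorem on annuli with `L^4` densities

`h` is measurable and bounded by some number `M` (which does not enter the bounds; scale by `M` to use
the library lemmas, which are stated for `M = 1`; `circ (c h) = c circ h`, `P (c f) = c P f`).

`circ_sq` (the `L^2` bound `∫_{ann r} |circ h|^2 ≤ C r ∫ |h|^2`).
Split `h = h1 + h2`, `h1 = h` where `|sin| ≥ 1/2` and `h2 = h` where `|sin| < 1/2` (so `|cos| ≥ 1/2`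
there); `|circ h|^2 ≤ 2 |circ h1|^2 + 2 |circ h2|^2`. By the rotation by a quarter turn (`hrg_rot`,
`hrg_rotate`, `hrg_rot_mp` in RG.lean; the annulus is invariant; the function `g` of `hrg_rotate` is
`h` shifted by a quarter turn, so `∫ |g|^2 = ∫ |h|^2`; prove your own version with this information)
the second piece is of the first kind. For the first kind `hrg_split`:
`circ h a b = P h b a + P (h (· + π)) (-b) (-a)`, and for each term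
`∫_{ann r} ≤ ∫_{|b| ≤ 2r} db ∫ da |P h b a|^2 ≤ 4 r ∫_{Ioo 0 π} |h|^2 / sin` (library `planar_L2`,
Planar.lean; it is stated for densities bounded by one), and `1 / sin ≤ 2` on the support.

`circ_four` (the `L^4` bound `∫_{ann r} |circ h|^4 ≤ C r^κ ∫ |h|^4`).
By `hrg_split` and `(x + y)^4 ≤ 8 (x^4 + y^4)` it is enough to bound `∫_{ann r} |P f|^4` for `f` bounded
and measurable on `Ioo 0 π`. Library (Planar.lean): `(P f v z)^2 = Gk f Dsq ⟨v, z⟩` (`sq_eq`), `Dsq` is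
the disjoint union of `Om k`, `k < K`, and `Near (2^-K)` (`Near ε = {|sin (q.2 - q.1)| ≤ ε}`).
(i) For each `k`: `∫ ‖Gk f (Om k) ξ‖^2 ≤ C' ∫_{Ioo 0 π} |f|^4`: copy the proof of `Gk_L2` (it uses `bessel`
and `Om_push k`, constant `2^(k+2)`) and bound
`∫_{Om k} |f q.1|^2 |f q.2|^2 ≤ (1/2) ∫_{Om k} |f q.1|^4 + |f q.2|^4 ≤ C'' 2^(-k) ∫_{Ioo 0 π} |f|^4`,
since for fixed `q.1 ∈ Ioo 0 π` the set of `q.2 ∈ Ioo 0 π` with `|sin (q.2 - q.1)| ≤ 2^-k` has measure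
at most `2 π 2^-k` (see the proof of `vol_Near`).
(ii) `‖Gk f (Near ε) ξ‖ ≤ ∫_{Near ε} |f q.1| |f q.2| ≤ (1/2) ∫_{Near ε} |f q.1|^2 + |f q.2|^2
≤ 2 π ε ∫_{Ioo 0 π} |f|^2 ≤ 2 π ε (π ∫ |f|^4)^(1/2)`, so its square integrated over the annulus (area at
most `16 r^2`, say) is at most `C r^2 ε^2 ∫ |f|^4`; take `ε = 2^-K`, `K` the least integer with
`2^K ≥ r`.
(iii) `|Gk f Dsq|^2 ≤ (K + 1) (sum of the K + 1 squares)`, so
`∫_{ann r} |P f|^4 ≤ C (K + 1)^2 ∫ |f|^4`, and `(K + 1)^2 ≤ C_κ r^κ`.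

`circ_Lp4`: Hölder, `∫ |c|^p ≤ (∫ |c|^2)^((4-p)/2) (∫ |c|^4)^((p-2)/2)` (`ENNReal.lintegral_mul_le_Lp_mul_Lq`,
or the library's interpolation lemma in Tools.lean), `∫ |h|^2 ≤ (2π)^(1/2) (∫ |h|^4)^(1/2)`; use
`circ_four` with `κ`.
-/

namespace Pool.Agent.HB

open MeasureTheory Set Pool.Agent.MP_6cbfb8_an
open scoped ENNReal Real ComplexConjugate

/-- scaling -/
theorem hrk_scale (p : ℝ) (hp : 0 ≤ p) (A : Set (ℝ × ℝ)) (K : ℝ≥0∞)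
    (H : ∀ h : ℝ → ℂ, Measurable h → (∀ θ, ‖h θ‖ ≤ 1) →
      ∫⁻ q in A, ‖circ h q.1 q.2‖ₑ ^ p ≤ K * ∫⁻ θ in Ioo 0 (2 * π), ‖h θ‖ₑ ^ p)
    (h : ℝ → ℂ) (hh : Measurable h) (hb : ∃ M : ℝ, ∀ θ, ‖h θ‖ ≤ M) :
    ∫⁻ q in A, ‖circ h q.1 q.2‖ₑ ^ p ≤ K * ∫⁻ θ in Ioo 0 (2 * π), ‖h θ‖ₑ ^ p := by
  obtain ⟨M, hM⟩ := hb
  set N : ℝ := max M 1 with hN
  have hN0 : 0 < N := lt_of_lt_of_le one_pos (le_max_right _ _)
  set g : ℝ → ℂ := fun θ => ((N⁻¹ : ℝ) : ℂ) * h θ with hg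
  have mg : Measurable g := hh.const_mul _
  have bg : ∀ θ, ‖g θ‖ ≤ 1 := by
    intro θ
    simp only [hg]
    rw [norm_mul, Complex.norm_real, Real.norm_of_nonneg (by positivity), inv_mul_le_iff₀ hN0,
      mul_one]
    exact (hM θ).trans (le_max_left _ _)
  have e1 : ∀ a b, circ g a b = ((N⁻¹ : ℝ) : ℂ) * circ h a b := by
    intro a b
    unfold circ
    rw [← integral_const_mul]
    refine integral_congr_ae (Filter.Eventually.of_forall fun θ => ?_)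
    simp only [hg]
    ring
  have e2 : ‖((N⁻¹ : ℝ) : ℂ)‖ₑ = ENNReal.ofReal N⁻¹ := by
    rw [← ofReal_norm, Complex.norm_real, Real.norm_of_nonneg (by positivity)]
  have H1 := H g mg bg
  simp only [e1] at H1
  simp only [hg, enorm_mul, e2, ENNReal.mul_rpow_of_nonneg _ _ hp] at H1
  have cT : ENNReal.ofReal N⁻¹ ^ p ≠ ∞ := ENNReal.rpow_ne_top_of_nonneg hp ENNReal.ofReal_ne_top
  have c0 : ENNReal.ofReal N⁻¹ ^ p ≠ 0 := by
    have : 0 < ENNReal.ofReal N⁻¹ := ENNReal.ofReal_pos.mpr (by positivity)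
    exact (ENNReal.rpow_pos this ENNReal.ofReal_ne_top).ne'
  rw [lintegral_const_mul' _ _ cT, lintegral_const_mul' _ _ cT, mul_left_comm] at H1
  exact (ENNReal.mul_le_mul_iff_right c0 cT).mp H1

/-- translation of a set integral -/
theorem hrk_shift (F : ℝ → ℝ≥0∞) (c : ℝ) (s : Set ℝ) :
    ∫⁻ θ in (fun x => x + c) ⁻¹' s, F (θ + c) = ∫⁻ θ in s, F θ :=
  (measurePreserving_add_right (volume : Measure ℝ) c).setLIntegral_comp_preimage_emb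
    (measurableEmbedding_addRight c) F s

theorem hrk_halves (F : ℝ → ℝ≥0∞) :
    (∫⁻ θ in Ioo 0 π, F θ) + ∫⁻ θ in Ioo 0 π, F (θ + π) ≤ ∫⁻ θ in Ioo 0 (2 * π), F θ := by
  have hpi := Real.pi_pos
  have h1 : ∫⁻ θ in Ioo 0 π, F (θ + π) = ∫⁻ θ in Ioo π (2 * π), F θ := by
    rw [← hrk_shift F π (Ioo π (2 * π)), preimage_add_const_Ioo]
    rw [sub_self, show 2 * π - π = π by ring]
  rw [h1, ← lintegral_union measurableSet_Ioo]
  · refine lintegral_mono_set ?_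
    rintro x (hx | hx)
    · exact ⟨hx.1, by linarith [hx.2]⟩
    · exact ⟨by linarith [hx.1], hx.2⟩
  · rw [Set.disjoint_left]
    intro x hx hx'
    exact absurd hx.2 (not_lt.mpr hx'.1.le)

theorem hrk_ann_sub (r : ℝ) (hr : 0 < r) :
    ann r ⊆ Icc (-(2 * r)) (2 * r) ×ˢ Icc (-(2 * r)) (2 * r) := by
  rintro ⟨a, b⟩ ⟨_, h2⟩
  have h2' : a ^ 2 + b ^ 2 < (2 * r) ^ 2 := h2
  have ha : |a| ≤ 2 * r := abs_le_of_sq_le_sq (by nlinarith [sq_nonneg b]) (by linarith)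
  have hb : |b| ≤ 2 * r := abs_le_of_sq_le_sq (by nlinarith [sq_nonneg a]) (by linarith)
  exact ⟨⟨(abs_le.mp ha).1, (abs_le.mp ha).2⟩, (abs_le.mp hb).1, (abs_le.mp hb).2⟩

theorem hrk_vol_ann (r : ℝ) (hr : 0 < r) : volume (ann r) ≤ ENNReal.ofReal (16 * r ^ 2) := by
  refine (measure_mono (hrk_ann_sub r hr)).trans (le_of_eq ?_)
  rw [Measure.volume_eq_prod, Measure.prod_prod, Real.volume_Icc,
    ← ENNReal.ofReal_mul (by linarith)]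
  congr 1
  ring

theorem hrk_measP (f : ℝ → ℂ) (hf : Measurable f) (p : ℝ) :
    Measurable fun q : ℝ × ℝ => ‖P f q.2 q.1‖ₑ ^ p :=
  ((hrg_measurable_P f hf).comp (f := fun q : ℝ × ℝ => (q.2, q.1)) (by fun_prop)).enorm.pow_const p

theorem hrk_P2 (r : ℝ) (hr : 0 < r) (f : ℝ → ℂ) (hf : Measurable f) (hb : ∀ θ, ‖f θ‖ ≤ 1)
    (h0 : ∀ θ, Real.sin θ < 1 / 2 → 0 ≤ Real.sin θ → f θ = 0) :
    ∫⁻ q in ann r, ‖P f q.2 q.1‖ₑ ^ (2:ℝ) ≤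
      ENNReal.ofReal (8 * r) * ∫⁻ θ in Ioo 0 π, ‖f θ‖ₑ ^ (2:ℝ) := by
  have mP := hrk_measP f hf 2
  have hsub : ann r ⊆ univ ×ˢ Icc (-(2 * r)) (2 * r) := by
    intro q hq
    exact ⟨mem_univ _, (hrk_ann_sub r hr hq).2⟩
  have h1 : ∀ b : ℝ, ∫⁻ a : ℝ, ‖P f b a‖ₑ ^ (2:ℝ) ≤ 2 * ∫⁻ θ in Ioo 0 π, ‖f θ‖ₑ ^ (2:ℝ) := by
    intro b
    refine (planar_L2 f hf hb b).trans ?_
    rw [← lintegral_const_mul' _ _ (by simp)]
    refine setLIntegral_mono' measurableSet_Ioo fun θ hθ => ?_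
    have hs := Real.sin_pos_of_pos_of_lt_pi hθ.1 hθ.2
    by_cases hc : Real.sin θ < 1 / 2
    · rw [h0 θ hc hs.le, enorm_zero, ENNReal.zero_rpow_of_pos (by norm_num), ENNReal.zero_div]
      exact bot_le
    · push Not at hc
      refine ENNReal.div_le_of_le_mul ?_
      have h2 : (1 : ℝ≥0∞) ≤ 2 * ENNReal.ofReal (Real.sin θ) := by
        have : (2 : ℝ≥0∞) = ENNReal.ofReal 2 := by norm_num
        rw [this, ← ENNReal.ofReal_mul (by norm_num), ENNReal.one_le_ofReal]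
        linarith
      calc ‖f θ‖ₑ ^ (2:ℝ) = ‖f θ‖ₑ ^ (2:ℝ) * 1 := (mul_one _).symm
        _ ≤ ‖f θ‖ₑ ^ (2:ℝ) * (2 * ENNReal.ofReal (Real.sin θ)) := by gcongr
        _ = _ := by ring
  calc ∫⁻ q in ann r, ‖P f q.2 q.1‖ₑ ^ (2:ℝ)
      ≤ ∫⁻ q in univ ×ˢ Icc (-(2 * r)) (2 * r), ‖P f q.2 q.1‖ₑ ^ (2:ℝ) := lintegral_mono_set hsub
    _ = ∫⁻ b in Icc (-(2 * r)) (2 * r), ∫⁻ a : ℝ, ‖P f b a‖ₑ ^ (2:ℝ) := by
        rw [Measure.volume_eq_prod, setLIntegral_prod_symm _ mP.aemeasurable, Measure.restrict_univ]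
    _ ≤ ∫⁻ b in Icc (-(2 * r)) (2 * r), 2 * ∫⁻ θ in Ioo 0 π, ‖f θ‖ₑ ^ (2:ℝ) :=
        lintegral_mono h1
    _ = _ := by
        rw [setLIntegral_const, Real.volume_Icc]
        have : (2 : ℝ≥0∞) = ENNReal.ofReal 2 := by norm_num
        rw [show 2 * r - -(2 * r) = 4 * r by ring, show 8 * r = 2 * (4 * r) by ring,
          ENNReal.ofReal_mul (p := 2) (by norm_num), ← this]
        ring

theorem hrk_from_P (K : ℝ≥0∞) (e : ℝ) (he : 1 ≤ e) (r : ℝ)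
    (Q : (ℝ → ℂ) → Prop) (hQc : ∀ h, Q h → Q (fun θ => (starRingEnd ℂ) (h (θ + π))))
    (H : ∀ f : ℝ → ℂ, Measurable f → (∀ θ, ‖f θ‖ ≤ 1) → Q f →
      ∫⁻ q in ann r, ‖P f q.2 q.1‖ₑ ^ e ≤ K * ∫⁻ θ in Ioo 0 π, ‖f θ‖ₑ ^ e)
    (h : ℝ → ℂ) (hh : Measurable h) (hb : ∀ θ, ‖h θ‖ ≤ 1) (hQ : Q h) :
    ∫⁻ q in ann r, ‖circ h q.1 q.2‖ₑ ^ e ≤
      2 ^ (e - 1) * K * ∫⁻ θ in Ioo 0 (2 * π), ‖h θ‖ₑ ^ e := by
  set g : ℝ → ℂ := fun θ => (starRingEnd ℂ) (h (θ + π)) with hg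
  have mg : Measurable g := by
    have : Measurable fun θ : ℝ => h (θ + π) := hh.comp (by fun_prop)
    exact Complex.continuous_conj.measurable.comp this
  have bg : ∀ θ, ‖g θ‖ ≤ 1 := fun θ => by
    rw [hg]
    beta_reduce
    rw [Complex.norm_conj]
    exact hb _
  have ng : ∀ θ, ‖g θ‖ₑ = ‖h (θ + π)‖ₑ := fun θ => by
    rw [hg]
    beta_reduce
    rw [← ofReal_norm, ← ofReal_norm, Complex.norm_conj]
  have mP := hrk_measP h hh e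
  have mP' := hrk_measP g mg e
  calc ∫⁻ q in ann r, ‖circ h q.1 q.2‖ₑ ^ e
      ≤ ∫⁻ q in ann r, 2 ^ (e - 1) * (‖P h q.2 q.1‖ₑ ^ e + ‖P g q.2 q.1‖ₑ ^ e) := by
        refine lintegral_mono fun q => ?_
        beta_reduce
        rw [hrg_split h hh hb]
        refine (ENNReal.rpow_le_rpow (enorm_add_le _ _) (by linarith)).trans ?_
        refine (ENNReal.rpow_add_le_mul_rpow_add_rpow _ _ he).trans ?_
        rw [hrg_neg]
    _ = 2 ^ (e - 1) * ((∫⁻ q in ann r, ‖P h q.2 q.1‖ₑ ^ e) + (∫⁻ q in ann r, ‖P g q.2 q.1‖ₑ ^ e)) := by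
        rw [← lintegral_add_left mP]
        exact lintegral_const_mul _ (mP.add mP')
    _ ≤ 2 ^ (e - 1) * (K * (∫⁻ θ in Ioo 0 π, ‖h θ‖ₑ ^ e) + K * ∫⁻ θ in Ioo 0 π, ‖h (θ + π)‖ₑ ^ e) := by
        have k1 := H h hh hb hQ
        have k2 := H g mg bg (hQc h hQ)
        simp only [ng] at k2
        gcongr
    _ = 2 ^ (e - 1) * K * ((∫⁻ θ in Ioo 0 π, ‖h θ‖ₑ ^ e) + ∫⁻ θ in Ioo 0 π, ‖h (θ + π)‖ₑ ^ e) := by
        ring
    _ ≤ _ := by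
        gcongr
        exact hrk_halves fun θ => ‖h θ‖ₑ ^ e

theorem hrk_first (r : ℝ) (hr : 0 < r) (h : ℝ → ℂ) (hh : Measurable h) (hb : ∀ θ, ‖h θ‖ ≤ 1)
    (h0 : ∀ θ, |Real.sin θ| < 1 / 2 → h θ = 0) :
    ∫⁻ q in ann r, ‖circ h q.1 q.2‖ₑ ^ (2:ℝ) ≤
      ENNReal.ofReal (16 * r) * ∫⁻ θ in Ioo 0 (2 * π), ‖h θ‖ₑ ^ (2:ℝ) := by
  have := hrk_from_P (ENNReal.ofReal (8 * r)) 2 (by norm_num) r
    (fun h => ∀ θ, |Real.sin θ| < 1 / 2 → h θ = 0)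
    (fun h hh θ hθ => by
      beta_reduce
      rw [hh (θ + π) (by rw [Real.sin_add_pi, abs_neg]; exact hθ), map_zero])
    (fun f hf hb hQ => hrk_P2 r hr f hf hb fun θ h1 h2 => hQ θ (by rw [abs_of_nonneg h2]; exact h1))
    h hh hb h0
  refine this.trans (le_of_eq ?_)
  have e1 : (2 : ℝ≥0∞) ^ ((2:ℝ) - 1) = ENNReal.ofReal 2 := by
    rw [show (2:ℝ) - 1 = 1 by norm_num, ENNReal.rpow_one]
    norm_num
  rw [e1, ← ENNReal.ofReal_mul (by norm_num)]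
  congr 2
  ring

theorem hrk_rotate (h : ℝ → ℂ) (hh : Measurable h) (hb : ∀ θ, ‖h θ‖ ≤ 1)
    (h0 : ∀ θ, 1 / 2 ≤ |Real.sin θ| → h θ = 0) :
    ∃ g : ℝ → ℂ, Measurable g ∧ (∀ θ, ‖g θ‖ ≤ 1) ∧ (∀ θ, |Real.sin θ| < 1 / 2 → g θ = 0) ∧
      (∫⁻ θ in Ioo 0 (2 * π), ‖g θ‖ₑ ^ (2:ℝ) ≤ 2 * ∫⁻ θ in Ioo 0 (2 * π), ‖h θ‖ₑ ^ (2:ℝ)) ∧
      ∀ q : ℝ × ℝ, circ h q.1 q.2 = circ g (hrg_rot q).1 (hrg_rot q).2 := by
  have hpi := Real.pi_pos
  have h2pi : 0 < 2 * π := by positivity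
  set k : ℝ → ℂ := fun θ => h (2 * π * Int.fract (θ / (2 * π))) with hk
  have mk : Measurable k := by
    refine hh.comp ?_
    exact (measurable_fract.comp (by fun_prop : Measurable fun θ : ℝ => θ / (2 * π))).const_mul _
  have kb : ∀ θ, ‖k θ‖ ≤ 1 := fun θ => hb _
  have kper : Function.Periodic k (2 * π) := by
    intro θ
    simp only [hk]
    rw [add_div, div_self h2pi.ne', Int.fract_add_one]
  have keq : ∀ θ ∈ Ioo 0 (2 * π), k θ = h θ := by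
    intro θ hθ
    simp only [hk]
    have : Int.fract (θ / (2 * π)) = θ / (2 * π) := by
      rw [Int.fract_eq_self]
      exact ⟨by have := hθ.1; positivity, by rw [div_lt_one h2pi]; exact hθ.2⟩
    rw [this]
    congr 1
    field_simp
  have k0 : ∀ θ, |Real.sin θ| < 1 / 2 → k (θ - π / 2) = 0 := by
    intro θ hθ
    simp only [hk]
    apply h0
    have e : 2 * π * Int.fract ((θ - π / 2) / (2 * π)) =
        θ - π / 2 - (⌊(θ - π / 2) / (2 * π)⌋ : ℤ) * (2 * π) := by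
      rw [Int.fract]
      field_simp
    rw [e, Real.sin_sub_int_mul_two_pi, Real.sin_sub_pi_div_two, abs_neg]
    have h1 := Real.sin_sq_add_cos_sq θ
    have h2 := abs_nonneg (Real.cos θ)
    have h3 := abs_nonneg (Real.sin θ)
    by_contra hcon
    push Not at hcon
    have h4 := sq_abs (Real.cos θ)
    have h5 := sq_abs (Real.sin θ)
    nlinarith
  refine ⟨fun θ => k (θ - π / 2), mk.comp (by fun_prop), fun θ => kb _, k0, ?_, fun q => ?_⟩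
  · set G : ℝ → ℝ≥0∞ := fun θ => ‖k θ‖ₑ ^ (2:ℝ) with hG
    have Gper : ∀ θ, G (θ + 2 * π) = G θ := fun θ => by simp only [hG]; rw [kper θ]
    have GI : ∫⁻ θ in Ioo 0 (2 * π), ‖h θ‖ₑ ^ (2:ℝ) = ∫⁻ θ in Ioo 0 (2 * π), G θ := by
      refine setLIntegral_congr_fun measurableSet_Ioo fun θ hθ => ?_
      simp only [hG]
      rw [keq θ hθ]
    rw [GI, two_mul (∫⁻ θ in Ioo 0 (2 * π), G θ)]
    change ∫⁻ θ in Ioo 0 (2 * π), G (θ - π / 2) ≤ _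
    have hsub : Ioo 0 (2 * π) ⊆ Ioo 0 (π / 2) ∪ Ico (π / 2) (2 * π) := by
      intro x hx
      rcases lt_or_ge x (π / 2) with h | h
      · exact Or.inl ⟨hx.1, h⟩
      · exact Or.inr ⟨h, hx.2⟩
    refine (lintegral_mono_set hsub).trans ((lintegral_union_le _ _ _).trans (add_le_add ?_ ?_))
    · have e1 : ∀ θ, G (θ - π / 2) = G (θ + 3 * π / 2) := fun θ => by
        rw [← Gper (θ - π / 2)]
        congr 1
        ring
      simp only [e1]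
      have e2 := hrk_shift G (3 * π / 2) (Ioo (3 * π / 2) (2 * π))
      rw [preimage_add_const_Ioo, sub_self, show 2 * π - 3 * π / 2 = π / 2 by ring] at e2
      rw [e2]
      exact lintegral_mono_set (Ioo_subset_Ioo (by positivity) le_rfl)
    · have e2 := hrk_shift G (-(π / 2)) (Ico 0 (3 * π / 2))
      rw [preimage_add_const_Ico, show 0 - -(π / 2) = π / 2 by ring,
        show 3 * π / 2 - -(π / 2) = 2 * π by ring] at e2
      simp only [sub_eq_add_neg]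
      rw [e2, ← setLIntegral_congr (Ioo_ae_eq_Ico : Ioo (0:ℝ) (3 * π / 2) =ᵐ[volume] _)]
      exact lintegral_mono_set (Ioo_subset_Ioo le_rfl (by linarith))
  have e1 : circ h q.1 q.2 = circ k q.1 q.2 := by
    unfold circ
    refine setIntegral_congr_fun measurableSet_Ioo fun θ hθ => ?_
    rw [keq θ hθ]
  rw [e1, hrg_circ_interval, hrg_circ_interval]
  change _ = ∫ θ in (0:ℝ)..(2 * π), k (θ - π / 2) *
    Complex.exp (((-(2 * π * (-q.2 * Real.cos θ + q.1 * Real.sin θ)) : ℝ) : ℂ) * Complex.I)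
  set F : ℝ → ℂ := fun θ => k θ *
    Complex.exp (((-(2 * π * (q.1 * Real.cos θ + q.2 * Real.sin θ)) : ℝ) : ℂ) * Complex.I) with hF
  have Fper : Function.Periodic F (2 * π) := by
    intro θ
    simp only [hF]
    rw [kper θ, Real.cos_add_two_pi, Real.sin_add_two_pi]
  have e2 : ∀ θ : ℝ, k (θ - π / 2) *
    Complex.exp (((-(2 * π * (-q.2 * Real.cos θ + q.1 * Real.sin θ)) : ℝ) : ℂ) * Complex.I) =
      F (θ - π / 2) := by
    intro θ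
    simp only [hF]
    rw [Real.cos_sub_pi_div_two, Real.sin_sub_pi_div_two]
    congr 5
    ring
  simp only [e2]
  rw [intervalIntegral.integral_comp_sub_right F (π / 2)]
  have e3 := Fper.intervalIntegral_add_eq 0 (0 - π / 2)
  rw [zero_add, show 0 - π / 2 + 2 * π = 2 * π - π / 2 by ring] at e3
  exact e3

theorem hrk_rot_ann (r : ℝ) : hrg_rot ⁻¹' ann r = ann r := by
  ext q
  simp only [ann, hrg_rot, mem_preimage, mem_ofPred_eq]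
  rw [show (-q.2) ^ 2 + q.1 ^ 2 = q.1 ^ 2 + q.2 ^ 2 by ring]

theorem hrk_second (r : ℝ) (hr : 0 < r) (h : ℝ → ℂ) (hh : Measurable h) (hb : ∀ θ, ‖h θ‖ ≤ 1)
    (h0 : ∀ θ, 1 / 2 ≤ |Real.sin θ| → h θ = 0) :
    ∫⁻ q in ann r, ‖circ h q.1 q.2‖ₑ ^ (2:ℝ) ≤
      ENNReal.ofReal (32 * r) * ∫⁻ θ in Ioo 0 (2 * π), ‖h θ‖ₑ ^ (2:ℝ) := by
  obtain ⟨g, mg, bg, g0, gI, hg⟩ := hrk_rotate h hh hb h0
  simp only [hg]
  have e := hrg_rot_mp.setLIntegral_comp_preimage (f := fun q : ℝ × ℝ => ‖circ g q.1 q.2‖ₑ ^ (2:ℝ))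
    (measurableSet_ann r) ((measurable_circ g mg).enorm.pow_const 2)
  rw [hrk_rot_ann] at e
  rw [e]
  refine (hrk_first r hr g mg bg g0).trans ?_
  have e2 : (2 : ℝ≥0∞) = ENNReal.ofReal 2 := by norm_num
  calc ENNReal.ofReal (16 * r) * ∫⁻ θ in Ioo 0 (2 * π), ‖g θ‖ₑ ^ (2:ℝ)
      ≤ ENNReal.ofReal (16 * r) * (2 * ∫⁻ θ in Ioo 0 (2 * π), ‖h θ‖ₑ ^ (2:ℝ)) := by
        gcongr
    _ = ENNReal.ofReal (32 * r) * ∫⁻ θ in Ioo 0 (2 * π), ‖h θ‖ₑ ^ (2:ℝ) := by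
        rw [show 32 * r = 16 * r * 2 by ring, ENNReal.ofReal_mul (p := 16 * r) (by positivity), ← e2]
        ring

theorem hrk_circ_add (f g : ℝ → ℂ) (hf : Measurable f) (hfb : ∀ θ, ‖f θ‖ ≤ 1) (hg : Measurable g)
    (hgb : ∀ θ, ‖g θ‖ ≤ 1) (a b : ℝ) :
    circ (fun θ => f θ + g θ) a b = circ f a b + circ g a b := by
  rw [hrg_circ_interval, hrg_circ_interval, hrg_circ_interval, ← intervalIntegral.integral_add]
  · simp only [add_mul]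
  · exact hrg_integrable f hf hfb _ (by fun_prop) 0 (2 * π)
  · exact hrg_integrable g hg hgb _ (by fun_prop) 0 (2 * π)

theorem hrk_sq_one (r : ℝ) (hr : 1 ≤ r) (h : ℝ → ℂ) (hh : Measurable h) (hb : ∀ θ, ‖h θ‖ ≤ 1) :
    ∫⁻ q in ann r, ‖circ h q.1 q.2‖ₑ ^ (2:ℝ) ≤
      ENNReal.ofReal 128 * ENNReal.ofReal r * ∫⁻ θ in Ioo 0 (2 * π), ‖h θ‖ₑ ^ (2:ℝ) := by
  have hr0 : 0 < r := by linarith
  have hms : MeasurableSet {θ : ℝ | |Real.sin θ| < 1 / 2} :=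
    measurableSet_lt (by fun_prop) measurable_const
  set f1 : ℝ → ℂ := {θ : ℝ | |Real.sin θ| < 1 / 2}ᶜ.indicator h with hf1
  set f2 : ℝ → ℂ := {θ : ℝ | |Real.sin θ| < 1 / 2}.indicator h with hf2
  have mf1 : Measurable f1 := hh.indicator hms.compl
  have mf2 : Measurable f2 := hh.indicator hms
  have n1 : ∀ θ, ‖f1 θ‖ ≤ ‖h θ‖ := fun θ => norm_indicator_le_norm_self _ _
  have n2 : ∀ θ, ‖f2 θ‖ ≤ ‖h θ‖ := fun θ => norm_indicator_le_norm_self _ _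
  have b1 : ∀ θ, ‖f1 θ‖ ≤ 1 := fun θ => (n1 θ).trans (hb θ)
  have b2 : ∀ θ, ‖f2 θ‖ ≤ 1 := fun θ => (n2 θ).trans (hb θ)
  have hsum : h = fun θ => f1 θ + f2 θ := by
    funext θ
    simp only [hf1, hf2]
    rw [add_comm]
    exact (congrFun (Set.indicator_self_add_compl {θ : ℝ | |Real.sin θ| < 1 / 2} h) θ).symm
  have z1 : ∀ θ, |Real.sin θ| < 1 / 2 → f1 θ = 0 := fun θ h' =>
    indicator_of_notMem (s := {θ : ℝ | |Real.sin θ| < 1 / 2}ᶜ)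
      (fun h'' => (mem_compl_iff _ _).mp h'' h') _
  have z2 : ∀ θ, 1 / 2 ≤ |Real.sin θ| → f2 θ = 0 := fun θ h' =>
    indicator_of_notMem (s := {θ : ℝ | |Real.sin θ| < 1 / 2}) (fun h'' => absurd h'' (not_lt.mpr h')) _
  have m1 : ∫⁻ θ in Ioo 0 (2 * π), ‖f1 θ‖ₑ ^ (2:ℝ) ≤ ∫⁻ θ in Ioo 0 (2 * π), ‖h θ‖ₑ ^ (2:ℝ) := by
    refine lintegral_mono fun θ => ENNReal.rpow_le_rpow ?_ (by norm_num)
    rw [← ofReal_norm, ← ofReal_norm]
    exact ENNReal.ofReal_le_ofReal (n1 θ)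
  have m2 : ∫⁻ θ in Ioo 0 (2 * π), ‖f2 θ‖ₑ ^ (2:ℝ) ≤ ∫⁻ θ in Ioo 0 (2 * π), ‖h θ‖ₑ ^ (2:ℝ) := by
    refine lintegral_mono fun θ => ENNReal.rpow_le_rpow ?_ (by norm_num)
    rw [← ofReal_norm, ← ofReal_norm]
    exact ENNReal.ofReal_le_ofReal (n2 θ)
  have c1 : Measurable fun q : ℝ × ℝ => ‖circ f1 q.1 q.2‖ₑ ^ (2:ℝ) :=
    (measurable_circ f1 mf1).enorm.pow_const 2
  have c2 : Measurable fun q : ℝ × ℝ => ‖circ f2 q.1 q.2‖ₑ ^ (2:ℝ) :=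
    (measurable_circ f2 mf2).enorm.pow_const 2
  calc ∫⁻ q in ann r, ‖circ h q.1 q.2‖ₑ ^ (2:ℝ)
      ≤ ∫⁻ q in ann r, 2 ^ ((2:ℝ) - 1) * (‖circ f1 q.1 q.2‖ₑ ^ (2:ℝ) + ‖circ f2 q.1 q.2‖ₑ ^ (2:ℝ)) := by
        refine lintegral_mono fun q => ?_
        beta_reduce
        have e : circ h q.1 q.2 = circ f1 q.1 q.2 + circ f2 q.1 q.2 := by
          conv_lhs => rw [hsum]
          exact hrk_circ_add f1 f2 mf1 b1 mf2 b2 _ _
        rw [e]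
        refine (ENNReal.rpow_le_rpow (enorm_add_le _ _) (by norm_num)).trans ?_
        exact ENNReal.rpow_add_le_mul_rpow_add_rpow _ _ (by norm_num)
    _ = 2 * ((∫⁻ q in ann r, ‖circ f1 q.1 q.2‖ₑ ^ (2:ℝ)) + ∫⁻ q in ann r, ‖circ f2 q.1 q.2‖ₑ ^ (2:ℝ)) := by
        rw [← lintegral_add_left c1, show (2:ℝ) - 1 = 1 by norm_num, ENNReal.rpow_one]
        exact lintegral_const_mul _ (c1.add c2)
    _ ≤ 2 * (ENNReal.ofReal (16 * r) * (∫⁻ θ in Ioo 0 (2 * π), ‖h θ‖ₑ ^ (2:ℝ)) +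
          ENNReal.ofReal (32 * r) * ∫⁻ θ in Ioo 0 (2 * π), ‖h θ‖ₑ ^ (2:ℝ)) := by
        have k1 := (hrk_first r hr0 f1 mf1 b1 z1).trans (mul_le_mul' le_rfl m1)
        have k2 := (hrk_second r hr0 f2 mf2 b2 z2).trans (mul_le_mul' le_rfl m2)
        gcongr
    _ = ENNReal.ofReal (96 * r) * ∫⁻ θ in Ioo 0 (2 * π), ‖h θ‖ₑ ^ (2:ℝ) := by
        rw [← add_mul, ← ENNReal.ofReal_add (by positivity) (by positivity), ← mul_assoc]
        congr 1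
        have : (2 : ℝ≥0∞) = ENNReal.ofReal 2 := by norm_num
        rw [this, ← ENNReal.ofReal_mul (by norm_num)]
        congr 1
        ring
    _ ≤ _ := by
        rw [← ENNReal.ofReal_mul (by norm_num)]
        gcongr
        linarith

theorem hrk_slice0 {ε : ℝ} (hε : 0 ≤ ε) (x : ℝ) :
    volume (Prod.mk x ⁻¹' Near ε) ≤ (Ioo 0 π).indicator (fun _ => ENNReal.ofReal (2 * π * ε)) x := by
  have hpi := Real.pi_pos
  set T : Set ℝ := Icc (-(π * ε / 2)) (π * ε / 2) ∪ (Icc (π - π * ε / 2) π ∪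
      Icc (-π) (-π + π * ε / 2)) with hT
  have hvT : volume T ≤ ENNReal.ofReal (2 * π * ε) := by
    calc volume T ≤ volume (Icc (-(π * ε / 2)) (π * ε / 2)) + (volume (Icc (π - π * ε / 2) π) +
        volume (Icc (-π) (-π + π * ε / 2))) :=
          (measure_union_le _ _).trans (add_le_add le_rfl (measure_union_le _ _))
      _ = ENNReal.ofReal (2 * π * ε) := by
          rw [Real.volume_Icc, Real.volume_Icc, Real.volume_Icc,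
            ← ENNReal.ofReal_add (by nlinarith [mul_nonneg hpi.le hε])
              (by nlinarith [mul_nonneg hpi.le hε]),
            ← ENNReal.ofReal_add (by nlinarith [mul_nonneg hpi.le hε])
              (by nlinarith [mul_nonneg hpi.le hε])]
          congr 1
          ring
  by_cases hx : x ∈ Ioo 0 π
  · rw [indicator_of_mem hx]
    have hsub : Prod.mk x ⁻¹' Near ε ⊆ (fun y => y + -x) ⁻¹' T := by
      intro y hy
      obtain ⟨⟨hy1, hy2⟩, hy3⟩ := hy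
      simp only at hy1 hy2 hy3
      have : y - x ∈ T := near_mem (by linarith [hy1.2, hy2.1]) (by linarith [hy1.1, hy2.2]) hy3
      simpa [sub_eq_add_neg] using this
    refine (measure_mono hsub).trans ?_
    rw [measure_preimage_add_right]
    exact hvT
  · rw [indicator_of_notMem hx]
    have : Prod.mk x ⁻¹' Near ε = ∅ := by
      ext y
      simp only [mem_preimage, mem_empty_iff_false, iff_false]
      intro hy
      exact hx hy.1.1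
    rw [this]
    simp

theorem hrk_slice1 {ε : ℝ} (hε : 0 ≤ ε) (F : ℝ → ℝ≥0∞) (hF : Measurable F) :
    ∫⁻ q in Near ε, F q.1 ≤ ENNReal.ofReal (2 * π * ε) * ∫⁻ θ in Ioo 0 π, F θ := by
  have mF : Measurable fun q : ℝ × ℝ => F q.1 := hF.comp measurable_fst
  rw [← lintegral_indicator (measurableSet_Near ε), Measure.volume_eq_prod,
    lintegral_prod _ (mF.indicator (measurableSet_Near ε)).aemeasurable,
    ← lintegral_const_mul' _ _ ENNReal.ofReal_ne_top, ← lintegral_indicator measurableSet_Ioo]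
  refine lintegral_mono fun x => ?_
  have h1 : ∀ y : ℝ, (Near ε).indicator (fun q : ℝ × ℝ => F q.1) (x, y) =
      (Prod.mk x ⁻¹' Near ε).indicator (fun _ => F x) y := by
    intro y
    by_cases hy : (x, y) ∈ Near ε
    · rw [indicator_of_mem hy, indicator_of_mem (s := Prod.mk x ⁻¹' Near ε) hy]
    · rw [indicator_of_notMem hy, indicator_of_notMem (s := Prod.mk x ⁻¹' Near ε) hy]
  beta_reduce
  simp only [h1]
  have mx : MeasurableSet (Prod.mk x ⁻¹' Near ε) := measurable_prodMk_left (measurableSet_Near ε)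
  rw [lintegral_indicator_const mx]
  have h2 := hrk_slice0 hε x
  by_cases hx : x ∈ Ioo 0 π
  · rw [indicator_of_mem hx] at h2 ⊢
    rw [mul_comm]
    gcongr
  · rw [indicator_of_notMem hx] at h2 ⊢
    rw [nonpos_iff_eq_zero.mp h2, mul_zero]

theorem hrk_slice2 {ε : ℝ} (hε : 0 ≤ ε) (F : ℝ → ℝ≥0∞) (hF : Measurable F) :
    ∫⁻ q in Near ε, F q.2 ≤ ENNReal.ofReal (2 * π * ε) * ∫⁻ θ in Ioo 0 π, F θ := by
  have mp : MeasurePreserving (Prod.swap : ℝ × ℝ → ℝ × ℝ) volume volume :=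
    Measure.measurePreserving_swap
  have e := mp.setLIntegral_comp_preimage (f := fun q : ℝ × ℝ => F q.1)
    (measurableSet_Near ε) (hF.comp measurable_fst)
  have e2 : Prod.swap ⁻¹' Near ε = Near ε := by
    ext q
    simp only [mem_preimage, Near, Dsq, mem_ofPred_eq, mem_prod, Prod.fst_swap, Prod.snd_swap]
    rw [show q.1 - q.2 = -(q.2 - q.1) by ring, Real.sin_neg, abs_neg,
      and_comm (a := q.2 ∈ Ioo 0 π)]
  rw [e2] at e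
  simp only [Prod.fst_swap] at e
  rw [e]
  exact hrk_slice1 hε F hF

theorem hrk_ab (a b : ℝ≥0∞) : (a * b) ^ (2:ℝ) ≤ a ^ (4:ℝ) + b ^ (4:ℝ) := by
  have key : ∀ c : ℝ≥0∞, (c * c) ^ (2:ℝ) = c ^ (4:ℝ) := by
    intro c
    rw [show c * c = c ^ (2:ℝ) by rw [ENNReal.rpow_two, sq], ← ENNReal.rpow_mul]
    norm_num
  rcases le_total a b with h | h
  · calc (a * b) ^ (2:ℝ) ≤ (b * b) ^ (2:ℝ) := by gcongr
      _ = b ^ (4:ℝ) := key b
      _ ≤ _ := le_add_self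
  · calc (a * b) ^ (2:ℝ) ≤ (a * a) ^ (2:ℝ) := by gcongr
      _ = a ^ (4:ℝ) := key a
      _ ≤ _ := le_self_add

theorem hrk_ab1 (a b : ℝ≥0∞) : a * b ≤ a ^ (2:ℝ) + b ^ (2:ℝ) := by
  rcases le_total a b with h | h
  · calc a * b ≤ b * b := by gcongr
      _ = b ^ (2:ℝ) := by rw [ENNReal.rpow_two, sq]
      _ ≤ _ := le_add_self
  · calc a * b ≤ a * a := by gcongr
      _ = a ^ (2:ℝ) := by rw [ENNReal.rpow_two, sq]
      _ ≤ _ := le_self_add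

/-- the dyadic pieces -/
theorem hrk_piece {f : ℝ → ℂ} (hf : Measurable f) (hb : ∀ θ, ‖f θ‖ ≤ 1) (k : ℕ) :
    ∫⁻ ξ, ‖Gk f (Om k) ξ‖ₑ ^ (2:ℝ) ≤
      ENNReal.ofReal (16 * π) * ∫⁻ θ in Ioo 0 π, ‖f θ‖ₑ ^ (4:ℝ) := by
  have hpi := Real.pi_pos
  have hB := bessel ((volume : Measure (ℝ × ℝ)).restrict (Om k)) Smc measurable_Smc (2 ^ (k + 2))
    (by simp) (fun φ hφ => Om_push k φ hφ) (fun q => f q.1 * f q.2)
    (integrableOn_pair hf hb fun q hq => hq.1)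
  refine hB.trans ?_
  have mF : Measurable fun θ => ‖f θ‖ₑ ^ (4:ℝ) := hf.enorm.pow_const 4
  have hsub : Om k ⊆ Near ((1 / 2) ^ k) := fun q hq => ⟨hq.1, hq.2.2⟩
  have he : (0:ℝ) ≤ (1 / 2) ^ k := by positivity
  calc 2 ^ (k + 2) * ∫⁻ q in Om k, ‖f q.1 * f q.2‖ₑ ^ (2:ℝ)
      ≤ 2 ^ (k + 2) * ∫⁻ q in Near ((1 / 2) ^ k), (‖f q.1‖ₑ ^ (4:ℝ) + ‖f q.2‖ₑ ^ (4:ℝ)) := by
        gcongr 2 ^ (k + 2) * ?_
        refine (lintegral_mono_set hsub).trans (lintegral_mono fun q => ?_)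
        beta_reduce
        rw [enorm_mul]
        exact hrk_ab _ _
    _ = 2 ^ (k + 2) * ((∫⁻ q in Near ((1 / 2) ^ k), ‖f q.1‖ₑ ^ (4:ℝ)) +
          ∫⁻ q in Near ((1 / 2) ^ k), ‖f q.2‖ₑ ^ (4:ℝ)) := by
        have mF1 : Measurable fun q : ℝ × ℝ => ‖f q.1‖ₑ ^ (4:ℝ) := mF.comp measurable_fst
        rw [lintegral_add_left mF1]
    _ ≤ 2 ^ (k + 2) * (ENNReal.ofReal (2 * π * (1 / 2) ^ k) * (∫⁻ θ in Ioo 0 π, ‖f θ‖ₑ ^ (4:ℝ)) +
          ENNReal.ofReal (2 * π * (1 / 2) ^ k) * ∫⁻ θ in Ioo 0 π, ‖f θ‖ₑ ^ (4:ℝ)) := by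
        have k1 := hrk_slice1 he _ mF
        have k2 := hrk_slice2 he _ mF
        gcongr
    _ = _ := by
        rw [← add_mul, ← ENNReal.ofReal_add (by positivity) (by positivity), ← mul_assoc]
        congr 1
        have e1 : (2 : ℝ≥0∞) ^ (k + 2) = ENNReal.ofReal (2 ^ (k + 2)) := by
          rw [ENNReal.ofReal_pow (by norm_num)]
          norm_num
        rw [e1, ← ENNReal.ofReal_mul (by positivity)]
        congr 1
        have e4 : (2:ℝ) ^ (k + 2) * (1 / 2) ^ k = 4 := by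
          rw [pow_add, one_div, inv_pow]
          field_simp
          norm_num
        linear_combination (4 * π) * e4

theorem hrk_holder {f : ℝ → ℂ} (hf : Measurable f) (c : ℝ) :
    ∫⁻ θ in Ioo 0 c, ‖f θ‖ₑ ^ (2:ℝ) ≤
      ENNReal.ofReal c ^ (1 / 2 : ℝ) * (∫⁻ θ in Ioo 0 c, ‖f θ‖ₑ ^ (4:ℝ)) ^ (1 / 2 : ℝ) := by
  have h := ENNReal.lintegral_mul_norm_pow_le (μ := volume.restrict (Ioo 0 c))
    (f := fun θ => ‖f θ‖ₑ ^ (4:ℝ)) (g := fun _ => 1) (hf.enorm.pow_const 4).aemeasurable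
    aemeasurable_const (p := 1 / 2) (q := 1 / 2) (by norm_num) (by norm_num) (by norm_num)
  rw [mul_comm]
  have e1 : ∫⁻ _ in Ioo 0 c, (1 : ℝ≥0∞) = ENNReal.ofReal c := by
    rw [setLIntegral_one, Real.volume_Ioo, sub_zero]
  rw [e1] at h
  refine le_trans (le_of_eq ?_) h
  refine lintegral_congr fun θ => ?_
  rw [ENNReal.one_rpow, mul_one, ← ENNReal.rpow_mul]
  norm_num

theorem hrk_near {f : ℝ → ℂ} (hf : Measurable f) {ε : ℝ} (hε : 0 ≤ ε) (ξ : ℂ) :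
    ‖Gk f (Near ε) ξ‖ₑ ^ (2:ℝ) ≤
      ENNReal.ofReal (16 * π ^ 3 * ε ^ 2) * ∫⁻ θ in Ioo 0 π, ‖f θ‖ₑ ^ (4:ℝ) := by
  have hpi := Real.pi_pos
  have mF : Measurable fun θ => ‖f θ‖ₑ ^ (2:ℝ) := hf.enorm.pow_const 2
  have h1 : ‖Gk f (Near ε) ξ‖ₑ ≤ ENNReal.ofReal (4 * π * ε) * ∫⁻ θ in Ioo 0 π, ‖f θ‖ₑ ^ (2:ℝ) := by
    refine (enorm_integral_le_lintegral_enorm _).trans ?_
    calc ∫⁻ q in Near ε, ‖(f q.1 * f q.2) * ph Smc q ξ‖ₑ
        ≤ ∫⁻ q in Near ε, (‖f q.1‖ₑ ^ (2:ℝ) + ‖f q.2‖ₑ ^ (2:ℝ)) := by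
          refine lintegral_mono fun q => ?_
          have e : ‖ph Smc q ξ‖ₑ = 1 := by rw [← ofReal_norm, norm_ph, ENNReal.ofReal_one]
          beta_reduce
          rw [enorm_mul, enorm_mul, e, mul_one]
          exact hrk_ab1 _ _
      _ = (∫⁻ q in Near ε, ‖f q.1‖ₑ ^ (2:ℝ)) + ∫⁻ q in Near ε, ‖f q.2‖ₑ ^ (2:ℝ) := by
          have mF1 : Measurable fun q : ℝ × ℝ => ‖f q.1‖ₑ ^ (2:ℝ) := mF.comp measurable_fst
          rw [lintegral_add_left mF1]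
      _ ≤ ENNReal.ofReal (2 * π * ε) * (∫⁻ θ in Ioo 0 π, ‖f θ‖ₑ ^ (2:ℝ)) +
            ENNReal.ofReal (2 * π * ε) * ∫⁻ θ in Ioo 0 π, ‖f θ‖ₑ ^ (2:ℝ) :=
          add_le_add (hrk_slice1 hε _ mF) (hrk_slice2 hε _ mF)
      _ = _ := by
          rw [← add_mul, ← ENNReal.ofReal_add (by positivity) (by positivity)]
          congr 2
          ring
  have h2 := h1.trans (mul_le_mul' le_rfl (hrk_holder hf π))
  refine (ENNReal.rpow_le_rpow h2 (by norm_num : (0:ℝ) ≤ 2)).trans (le_of_eq ?_)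
  rw [ENNReal.mul_rpow_of_nonneg _ _ (by norm_num), ENNReal.mul_rpow_of_nonneg _ _ (by norm_num),
    ← ENNReal.rpow_mul, ← ENNReal.rpow_mul, show (1 / 2 : ℝ) * 2 = 1 by norm_num, ENNReal.rpow_one,
    ENNReal.rpow_one, ENNReal.ofReal_rpow_of_nonneg (by positivity) (by norm_num), ← mul_assoc,
    ← ENNReal.ofReal_mul (by positivity)]
  congr 2
  rw [Real.rpow_two]
  ring

theorem hrk_Gk_union {f : ℝ → ℂ} (hf : Measurable f) (hb : ∀ θ, ‖f θ‖ ≤ 1) (K : ℕ) (ξ : ℂ) :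
    Gk f Dsq ξ = ∑ k ∈ Finset.range K, Gk f (Om k) ξ + Gk f (Near ((1 / 2) ^ K)) ξ := by
  induction K with
  | zero =>
    rw [Finset.range_zero, Finset.sum_empty, zero_add, pow_zero]
    congr 1
    ext q
    exact ⟨fun h => ⟨h, Real.abs_sin_le_one _⟩, fun h => h.1⟩
  | succ K ih =>
    rw [ih, Finset.sum_range_succ, add_assoc]
    congr 1
    have e : Near ((1 / 2) ^ K) = Om K ∪ Near ((1 / 2) ^ (K + 1)) := by
      ext q
      constructor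
      · rintro ⟨h1, h2⟩
        rcases lt_or_ge ((1 / 2 : ℝ) ^ (K + 1)) |Real.sin (q.2 - q.1)| with h | h
        · exact Or.inl ⟨h1, h, h2⟩
        · exact Or.inr ⟨h1, h⟩
      · rintro (h | h)
        · exact ⟨h.1, h.2.2⟩
        · refine ⟨h.1, h.2.trans ?_⟩
          exact pow_le_pow_of_le_one (by norm_num) (by norm_num) (Nat.le_succ K)
    have d : Disjoint (Om K) (Near ((1 / 2) ^ (K + 1))) := by
      rw [Set.disjoint_left]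
      intro q h1 h2
      exact absurd h1.2.1 (not_lt.mpr h2.2)
    unfold Gk
    rw [e, setIntegral_union d (measurableSet_Near _)
      (integrableOn_pair_ph hf hb (fun q hq => hq.1) ξ)
      (integrableOn_pair_ph hf hb (fun q hq => hq.1) ξ)]

theorem hrk_Gk_sq {f : ℝ → ℂ} (hf : Measurable f) (hb : ∀ θ, ‖f θ‖ ≤ 1) (K : ℕ) (ξ : ℂ) :
    ‖Gk f Dsq ξ‖ₑ ^ (2:ℝ) ≤ 2 * (K * (∑ k ∈ Finset.range K, ‖Gk f (Om k) ξ‖ₑ ^ (2:ℝ)) +
      ‖Gk f (Near ((1 / 2) ^ K)) ξ‖ₑ ^ (2:ℝ)) := by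
  rw [hrk_Gk_union hf hb K ξ]
  calc ‖∑ k ∈ Finset.range K, Gk f (Om k) ξ + Gk f (Near ((1 / 2) ^ K)) ξ‖ₑ ^ (2:ℝ)
      ≤ ((∑ k ∈ Finset.range K, ‖Gk f (Om k) ξ‖ₑ) + ‖Gk f (Near ((1 / 2) ^ K)) ξ‖ₑ) ^ (2:ℝ) := by
        refine ENNReal.rpow_le_rpow ?_ (by norm_num)
        refine (enorm_add_le _ _).trans ?_
        gcongr
        exact enorm_sum_le _ _
    _ ≤ 2 ^ ((2:ℝ) - 1) * ((∑ k ∈ Finset.range K, ‖Gk f (Om k) ξ‖ₑ) ^ (2:ℝ) +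
          ‖Gk f (Near ((1 / 2) ^ K)) ξ‖ₑ ^ (2:ℝ)) :=
        ENNReal.rpow_add_le_mul_rpow_add_rpow _ _ (by norm_num)
    _ ≤ _ := by
        rw [show (2:ℝ) - 1 = 1 by norm_num, ENNReal.rpow_one]
        gcongr
        have := ENNReal.rpow_sum_le_const_mul_sum_rpow (Finset.range K)
          (fun k => ‖Gk f (Om k) ξ‖ₑ) (p := 2) (by norm_num)
        rw [Finset.card_range, show (2:ℝ) - 1 = 1 by norm_num, ENNReal.rpow_one] at this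
        exact this

theorem hrk_plane (φ : ℂ → ℝ≥0∞) (hφ : Measurable φ) :
    ∫⁻ q : ℝ × ℝ, φ ⟨q.2, q.1⟩ = ∫⁻ ξ : ℂ, φ ξ := by
  rw [lintegral_complex φ hφ]
  have mp : MeasurePreserving (Prod.swap : ℝ × ℝ → ℝ × ℝ) volume volume :=
    Measure.measurePreserving_swap
  have hmk : Measurable (fun p : ℝ × ℝ => (⟨p.1, p.2⟩ : ℂ)) :=
    Complex.measurableEquivRealProd.symm.measurable
  exact mp.lintegral_comp (hφ.comp hmk)

theorem hrk_K (κ : ℝ) (hκ : 0 < κ) : ∃ C : ℝ, 0 < C ∧ ∀ r : ℝ, 1 ≤ r →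
    ∃ K : ℕ, (1 / 2 : ℝ) ^ K ≤ 1 / r ∧ (K : ℝ) ^ 2 ≤ C * r ^ κ := by
  have hl : 0 < Real.log 2 := Real.log_pos (by norm_num)
  set c : ℝ := κ * Real.log 2 with hc
  have hc0 : 0 < c := by positivity
  refine ⟨2 * (1 + 2 / c ^ 2), by positivity, fun r hr => ?_⟩
  have hr0 : 0 < r := by linarith
  obtain ⟨n, hn1, hn2⟩ := exists_nat_pow_near hr (show (1:ℝ) < 2 by norm_num)
  refine ⟨n + 1, ?_, ?_⟩
  · rw [one_div, inv_pow, one_div]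
    exact inv_anti₀ hr0 hn2.le
  · have h1 : Real.exp (c * n) = ((2:ℝ) ^ n) ^ κ := by
      rw [Real.rpow_def_of_pos (by positivity), Real.log_pow, hc]
      congr 1
      ring
    have h2 : ((2:ℝ) ^ n) ^ κ ≤ r ^ κ := Real.rpow_le_rpow (by positivity) hn1 hκ.le
    have h3 := Real.quadratic_le_exp_of_nonneg (x := c * n) (by positivity)
    rw [h1] at h3
    have h4 : (n:ℝ) ^ 2 ≤ 2 / c ^ 2 * r ^ κ := by
      rw [div_mul_eq_mul_div, le_div_iff₀ (by positivity)]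
      have : 0 ≤ c * n := by positivity
      nlinarith
    have h5 : (1:ℝ) ≤ r ^ κ := Real.one_le_rpow hr hκ.le
    push_cast
    nlinarith [sq_nonneg ((n:ℝ) - 1)]

theorem hrk_P4 (κ : ℝ) (hκ : 0 < κ) : ∃ C : ℝ≥0∞, C ≠ ∞ ∧ ∀ r : ℝ, 1 ≤ r → ∀ f : ℝ → ℂ,
    Measurable f → (∀ θ, ‖f θ‖ ≤ 1) → ∫⁻ q in ann r, ‖P f q.2 q.1‖ₑ ^ (4:ℝ) ≤
      C * ENNReal.ofReal (r ^ κ) * ∫⁻ θ in Ioo 0 π, ‖f θ‖ₑ ^ (4:ℝ) := by
  have hpi := Real.pi_pos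
  obtain ⟨C, hC, HK⟩ := hrk_K κ hκ
  refine ⟨ENNReal.ofReal (2 * (16 * π * C + 256 * π ^ 3)), ENNReal.ofReal_ne_top,
    fun r hr f hf hb => ?_⟩
  have hr0 : 0 < r := by linarith
  obtain ⟨K, hK1, hK2⟩ := HK r hr
  set I4 : ℝ≥0∞ := ∫⁻ θ in Ioo 0 π, ‖f θ‖ₑ ^ (4:ℝ) with hI4
  have hpt : ∀ q : ℝ × ℝ, ‖P f q.2 q.1‖ₑ ^ (4:ℝ) = ‖Gk f Dsq ⟨q.2, q.1⟩‖ₑ ^ (2:ℝ) := by
    intro q
    rw [← sq_eq, enorm_pow, ← ENNReal.rpow_natCast, ← ENNReal.rpow_mul]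
    norm_num
  have hmG : ∀ s, Measurable (fun ξ : ℂ => ‖Gk f s ξ‖ₑ ^ (2:ℝ)) := fun s =>
    (measurable_Gk hf s).measurable.enorm.pow_const _
  have hmk : Measurable (fun p : ℝ × ℝ => (⟨p.2, p.1⟩ : ℂ)) :=
    (Complex.measurableEquivRealProd.symm.measurable).comp measurable_swap
  have hmq : ∀ s, Measurable (fun q : ℝ × ℝ => ‖Gk f s ⟨q.2, q.1⟩‖ₑ ^ (2:ℝ)) := fun s =>
    (hmG s).comp hmk
  have hpiece : ∀ k : ℕ, ∫⁻ q in ann r, ‖Gk f (Om k) ⟨q.2, q.1⟩‖ₑ ^ (2:ℝ) ≤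
      ENNReal.ofReal (16 * π) * I4 := by
    intro k
    refine (setLIntegral_le_lintegral _ _).trans ?_
    rw [hrk_plane (fun ξ => ‖Gk f (Om k) ξ‖ₑ ^ (2:ℝ)) (hmG _)]
    exact hrk_piece hf hb k
  have hnear : ∫⁻ q in ann r, ‖Gk f (Near ((1 / 2) ^ K)) ⟨q.2, q.1⟩‖ₑ ^ (2:ℝ) ≤
      ENNReal.ofReal (256 * π ^ 3) * I4 := by
    calc ∫⁻ q in ann r, ‖Gk f (Near ((1 / 2) ^ K)) ⟨q.2, q.1⟩‖ₑ ^ (2:ℝ)
        ≤ ∫⁻ q in ann r, ENNReal.ofReal (16 * π ^ 3 * ((1 / 2) ^ K) ^ 2) * I4 :=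
          lintegral_mono fun q => hrk_near hf (by positivity) _
      _ = ENNReal.ofReal (16 * π ^ 3 * ((1 / 2) ^ K) ^ 2) * I4 * volume (ann r) := by
          rw [setLIntegral_const]
      _ ≤ ENNReal.ofReal (16 * π ^ 3 * (1 / r) ^ 2) * I4 * ENNReal.ofReal (16 * r ^ 2) := by
          gcongr
          exact hrk_vol_ann r hr0
      _ = _ := by
          rw [mul_right_comm, ← ENNReal.ofReal_mul (by positivity)]
          congr 2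
          field_simp
          norm_num
  calc ∫⁻ q in ann r, ‖P f q.2 q.1‖ₑ ^ (4:ℝ)
      ≤ ∫⁻ q in ann r, 2 * (K * (∑ k ∈ Finset.range K, ‖Gk f (Om k) ⟨q.2, q.1⟩‖ₑ ^ (2:ℝ)) +
          ‖Gk f (Near ((1 / 2) ^ K)) ⟨q.2, q.1⟩‖ₑ ^ (2:ℝ)) := by
        refine lintegral_mono fun q => ?_
        rw [hpt]
        exact hrk_Gk_sq hf hb K _
    _ = 2 * (K * (∑ k ∈ Finset.range K, ∫⁻ q in ann r, ‖Gk f (Om k) ⟨q.2, q.1⟩‖ₑ ^ (2:ℝ)) +
          ∫⁻ q in ann r, ‖Gk f (Near ((1 / 2) ^ K)) ⟨q.2, q.1⟩‖ₑ ^ (2:ℝ)) := by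
        rw [lintegral_const_mul' _ _ (by simp), lintegral_add_right _ (hmq _),
          lintegral_const_mul' _ _ (by simp), lintegral_finsetSum _ (fun k _ => hmq _)]
    _ ≤ 2 * (K * (∑ k ∈ Finset.range K, ENNReal.ofReal (16 * π) * I4) +
          ENNReal.ofReal (256 * π ^ 3) * I4) := by
        gcongr with k _
        exact hpiece k
    _ = ENNReal.ofReal (2 * (16 * π * (K:ℝ) ^ 2 + 256 * π ^ 3)) * I4 := by
        rw [Finset.sum_const, Finset.card_range, nsmul_eq_mul]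
        have e2 : (2 : ℝ≥0∞) = ENNReal.ofReal 2 := by norm_num
        have eK : (K : ℝ≥0∞) = ENNReal.ofReal (K : ℝ) := by rw [ENNReal.ofReal_natCast]
        rw [ENNReal.ofReal_mul (p := 2) (by norm_num), ENNReal.ofReal_add (by positivity) (by positivity),
          ENNReal.ofReal_mul (p := 16 * π) (by positivity), ENNReal.ofReal_pow (by positivity), ← e2, ← eK]
        ring
    _ ≤ ENNReal.ofReal (2 * (16 * π * C + 256 * π ^ 3) * r ^ κ) * I4 := by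
        gcongr ?_ * I4
        refine ENNReal.ofReal_le_ofReal ?_
        have h5 : (1:ℝ) ≤ r ^ κ := Real.one_le_rpow hr hκ.le
        have h6 : 0 ≤ 256 * π ^ 3 := by positivity
        have h7 : 0 ≤ 16 * π := by positivity
        nlinarith [mul_le_mul_of_nonneg_left hK2 h7, mul_le_mul_of_nonneg_left h5 h6]
    _ = _ := by rw [ENNReal.ofReal_mul (by positivity)]

theorem hrk_four_one (κ : ℝ) (hκ : 0 < κ) : ∃ C : ℝ≥0∞, C ≠ ∞ ∧ ∀ r : ℝ, 1 ≤ r → ∀ h : ℝ → ℂ,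
    Measurable h → (∀ θ, ‖h θ‖ ≤ 1) → ∫⁻ q in ann r, ‖circ h q.1 q.2‖ₑ ^ (4:ℝ) ≤
      C * ENNReal.ofReal (r ^ κ) * ∫⁻ θ in Ioo 0 (2 * π), ‖h θ‖ₑ ^ (4:ℝ) := by
  obtain ⟨C, hC, H⟩ := hrk_P4 κ hκ
  refine ⟨2 ^ ((4:ℝ) - 1) * C, ?_, fun r hr h hh hb => ?_⟩
  · exact ENNReal.mul_ne_top (ENNReal.rpow_ne_top_of_nonneg (by norm_num) (by simp)) hC
  have := hrk_from_P (C * ENNReal.ofReal (r ^ κ)) 4 (by norm_num) r (fun _ => True)
    (fun _ _ => trivial) (fun f hf hb _ => H r hr f hf hb) h hh hb trivial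
  rw [← mul_assoc] at this
  exact this


theorem circ_sq : ∃ C : ℝ≥0∞, C ≠ ∞ ∧ ∀ r : ℝ, 1 ≤ r → ∀ h : ℝ → ℂ, Measurable h →
    (∃ M : ℝ, ∀ θ, ‖h θ‖ ≤ M) →
    ∫⁻ q in ann r, ‖circ h q.1 q.2‖ₑ ^ (2:ℝ) ≤
      C * ENNReal.ofReal r * ∫⁻ θ in Ioo 0 (2 * π), ‖h θ‖ₑ ^ (2:ℝ) := by
  refine ⟨ENNReal.ofReal 128, ENNReal.ofReal_ne_top, fun r hr h hh hb => ?_⟩
  exact hrk_scale 2 (by norm_num) (ann r) _ (fun h hh hb => hrk_sq_one r hr h hh hb) h hh hb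

theorem circ_four (κ : ℝ) (hκ : 0 < κ) : ∃ C : ℝ≥0∞, C ≠ ∞ ∧ ∀ r : ℝ, 1 ≤ r → ∀ h : ℝ → ℂ,
    Measurable h → (∃ M : ℝ, ∀ θ, ‖h θ‖ ≤ M) →
    ∫⁻ q in ann r, ‖circ h q.1 q.2‖ₑ ^ (4:ℝ) ≤
      C * ENNReal.ofReal (r ^ κ) * ∫⁻ θ in Ioo 0 (2 * π), ‖h θ‖ₑ ^ (4:ℝ) := by
  obtain ⟨C, hC, H⟩ := hrk_four_one κ hκ
  refine ⟨C, hC, fun r hr h hh hb => ?_⟩
  exact hrk_scale 4 (by norm_num) (ann r) _ (fun h hh hb => H r hr h hh hb) h hh hb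

theorem circ_Lp4 (p : ℝ) (hp2 : 2 < p) (hp4 : p < 4) (κ : ℝ) (hκ : 0 < κ) :
    ∃ C : ℝ≥0∞, C ≠ ∞ ∧ ∀ r : ℝ, 1 ≤ r → ∀ h : ℝ → ℂ, Measurable h →
      (∃ M : ℝ, ∀ θ, ‖h θ‖ ≤ M) →
      ∫⁻ q in ann r, ‖circ h q.1 q.2‖ₑ ^ p ≤
        C * ENNReal.ofReal (r ^ (2 - p / 2 + κ)) *
          (∫⁻ θ in Ioo 0 (2 * π), ‖h θ‖ₑ ^ (4:ℝ)) ^ (p / 4) := by
  obtain ⟨C1, hC1, H1⟩ := circ_sq
  obtain ⟨C2, hC2, H2⟩ := circ_four κ hκ
  have hpi := Real.pi_pos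
  obtain ⟨a, ha⟩ : ∃ a : ℝ, a = (4 - p) / 2 := ⟨_, rfl⟩
  have ha0 : 0 ≤ a := by rw [ha]; linarith
  have ha1 : a ≤ 1 := by rw [ha]; linarith
  have hp : p = 2 * a + 4 * (1 - a) := by rw [ha]; ring
  have hb1 : 0 ≤ 1 - a := by linarith
  refine ⟨(C1 * ENNReal.ofReal (2 * π) ^ (1 / 2 : ℝ)) ^ a * C2 ^ (1 - a), ?_, fun r hr h hh hb => ?_⟩
  · refine ENNReal.mul_ne_top (ENNReal.rpow_ne_top_of_nonneg ha0 (ENNReal.mul_ne_top hC1 ?_))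
      (ENNReal.rpow_ne_top_of_nonneg hb1 hC2)
    exact ENNReal.rpow_ne_top_of_nonneg (by norm_num) ENNReal.ofReal_ne_top
  have hr0 : 0 < r := by linarith
  have k1 := H1 r hr h hh hb
  have k2 := H2 r hr h hh hb
  have k3 := hrk_holder hh (2 * π)
  set I : ℝ≥0∞ := ∫⁻ θ in Ioo 0 (2 * π), ‖h θ‖ₑ ^ (4:ℝ) with hI
  have k4 := lintegral_interp (μ := volume.restrict (ann r)) (fun q : ℝ × ℝ => ‖circ h q.1 q.2‖ₑ)
    (measurable_circ h hh).enorm ha0 ha1 (q := 4) (by norm_num) hp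
  refine k4.trans ?_
  calc (∫⁻ q in ann r, ‖circ h q.1 q.2‖ₑ ^ (2:ℝ)) ^ a * (∫⁻ q in ann r, ‖circ h q.1 q.2‖ₑ ^ (4:ℝ)) ^ (1 - a)
      ≤ (C1 * ENNReal.ofReal r * (ENNReal.ofReal (2 * π) ^ (1 / 2 : ℝ) * I ^ (1 / 2 : ℝ))) ^ a *
          (C2 * ENNReal.ofReal (r ^ κ) * I) ^ (1 - a) := by
        have k5 := k1.trans (mul_le_mul' le_rfl k3)
        gcongr
    _ = (C1 * ENNReal.ofReal (2 * π) ^ (1 / 2 : ℝ)) ^ a * C2 ^ (1 - a) *
          (ENNReal.ofReal r ^ a * ENNReal.ofReal (r ^ κ) ^ (1 - a)) * (I ^ (a / 2) * I ^ (1 - a)) := by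
        rw [show C1 * ENNReal.ofReal r * (ENNReal.ofReal (2 * π) ^ (1 / 2 : ℝ) * I ^ (1 / 2 : ℝ)) =
          (C1 * ENNReal.ofReal (2 * π) ^ (1 / 2 : ℝ)) * ENNReal.ofReal r * I ^ (1 / 2 : ℝ) by ring,
          ENNReal.mul_rpow_of_nonneg _ _ ha0, ENNReal.mul_rpow_of_nonneg _ _ ha0,
          ENNReal.mul_rpow_of_nonneg _ _ hb1, ENNReal.mul_rpow_of_nonneg _ _ hb1, ← ENNReal.rpow_mul,
          show (1 / 2 : ℝ) * a = a / 2 by ring]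
        ring
    _ = (C1 * ENNReal.ofReal (2 * π) ^ (1 / 2 : ℝ)) ^ a * C2 ^ (1 - a) *
          (ENNReal.ofReal (r ^ (a + κ * (1 - a)))) * I ^ (p / 4) := by
        rw [← ENNReal.rpow_add_of_nonneg _ _ (by linarith) hb1,
          ENNReal.ofReal_rpow_of_nonneg hr0.le ha0, ENNReal.ofReal_rpow_of_nonneg (by positivity) hb1,
          ← ENNReal.ofReal_mul (by positivity), ← Real.rpow_mul hr0.le, ← Real.rpow_add hr0,
          show a / 2 + (1 - a) = p / 4 by rw [ha]; ring]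
    _ ≤ _ := by
        have k6 : r ^ (a + κ * (1 - a)) ≤ r ^ (2 - p / 2 + κ) := by
          refine Real.rpow_le_rpow_of_exponent_le hr ?_
          have : κ * (1 - a) ≤ κ := by nlinarith
          rw [ha] at this ⊢
          linarith
        gcongr

end Pool.Agent.HB
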