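import Pool.Agent.HB.PHDefs

/-!
# Row RL: the theorem of M. Riesz for the exponent four

`F`, `G` holomorphic on the disc of radius `ρ0 > 1`, `G 0 = 0`, `|F + conj G| ≤ 1` there.
Put `H1 = F + G`, `H2 = -I (F - G)`. Then `Re H1 = Re (F + conj G)`, `Re H2 = Im (F - G) = Im (F + conj G)`,
so `|Re H| ≤ 1` for both; and `|H (0)| = |F 0| ≤ 1` (as `G 0 = 0`, `F 0 = (F + conj G) 0`).

For holomorphic `H = a + i b` with `|a| ≤ 1`, `|H 0| ≤ 1`: by the mean value property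
`∫_0^{2π} H(e^{iθ})^4 dθ = 2π H(0)^4` (`circleAverage` or `circleIntegral`; Mathlib:
`DiffContOnCl.circleAverage`/`circleAverage_of_differentiable_on`, or
`Complex.circleIntegral_sub_inv_smul_of_differentiable_on_off_countable`); real parts:
`∫ a^4 - 6 a^2 b^2 + b^4 = 2π Re (H(0)^4) ≤ 2π`, hence `∫ b^4 ≤ 6 ∫ b^2 + 2π ≤ ∫ (b^4 / 2 + 18) + 2π`,
so `∫ b^4 ≤ 76 π`, and `|H|^4 = (a^2 + b^2)^2 ≤ 2 (1 + b^4)` gives `∫ |H|^4 ≤ 4π + 152 π = 156 π`.
Finally `F = (H1 + I H2) / 2`, `G = (H1 - I H2) / 2` and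
`((x + y) / 2)^4 ≤ (x^4 + y^4) / 2` give `∫ |F|^4, ∫ |G|^4 ≤ 156 π`.
-/

namespace Pool.Agent.HB

open MeasureTheory Set Pool.Agent.MP_6cbfb8_an
open scoped ENNReal Real ComplexConjugate

theorem hrl_pt (h : ℂ) (ha : |h.re| ≤ 1) : ‖h‖ ^ 4 ≤ 4 * (h ^ 4).re + 74 := by
  have h1 : ‖h‖ ^ 2 = h.re ^ 2 + h.im ^ 2 := by
    rw [← Complex.normSq_eq_norm_sq, Complex.normSq_apply]
    ring
  have h2 : ‖h‖ ^ 4 = (h.re ^ 2 + h.im ^ 2) ^ 2 := by
    rw [← h1]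
    ring
  have h3 : (h ^ 4).re = h.re ^ 4 - 6 * h.re ^ 2 * h.im ^ 2 + h.im ^ 4 := by
    have h4 : h ^ 4 = (h * h) * (h * h) := by ring
    rw [h4]
    simp only [Complex.mul_re, Complex.mul_im]
    ring
  have h5 : h.re ^ 2 ≤ 1 := (sq_le_one_iff_abs_le_one _).2 ha
  rw [h2, h3]
  have h6 : 0 ≤ h.im ^ 2 := sq_nonneg _
  have h7 : 0 ≤ h.im ^ 2 * (1 - h.re ^ 2) := mul_nonneg h6 (by linarith)
  nlinarith [sq_nonneg (h.im ^ 2 - 13 / 3), sq_nonneg (h.re ^ 2)]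

theorem hrl_mem {ρ0 : ℝ} (hρ0 : 1 < ρ0) (θ : ℝ) :
    Complex.exp ((θ : ℂ) * Complex.I) ∈ Metric.ball (0 : ℂ) ρ0 := by
  rw [mem_ball_zero_iff, Complex.norm_exp_ofReal_mul_I]
  exact hρ0

theorem hrl_cont {ρ0 : ℝ} (hρ0 : 1 < ρ0) (H : ℂ → ℂ)
    (hH : DifferentiableOn ℂ H (Metric.ball 0 ρ0)) :
    Continuous fun θ : ℝ => H (Complex.exp ((θ : ℂ) * Complex.I)) := by
  have h1 : Continuous fun θ : ℝ => Complex.exp ((θ : ℂ) * Complex.I) := by fun_prop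
  exact hH.continuousOn.comp_continuous h1 (hrl_mem hρ0)

theorem hrl_mean {ρ0 : ℝ} (hρ0 : 1 < ρ0) (H : ℂ → ℂ)
    (hH : DifferentiableOn ℂ H (Metric.ball 0 ρ0)) :
    ∫ θ in (0:ℝ)..(2 * π), (H (Complex.exp ((θ : ℂ) * Complex.I))) ^ 4 =
      ((2 * π : ℝ) : ℂ) * (H 0) ^ 4 := by
  have hd : DiffContOnCl ℂ (fun z => (H z) ^ 4) (Metric.ball 0 |(1:ℝ)|) := by
    refine DifferentiableOn.diffContOnCl ?_
    refine (hH.pow 4).mono ?_
    rw [abs_one, closure_ball (0:ℂ) one_ne_zero]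
    exact Metric.closedBall_subset_ball hρ0
  have h1 := hd.circleAverage
  rw [Real.circleAverage_def] at h1
  have h2 : ∀ θ : ℝ, circleMap 0 1 θ = Complex.exp ((θ : ℂ) * Complex.I) := by
    intro θ
    simp [circleMap]
  simp only [h2] at h1
  have hpi : (2 * π : ℝ) ≠ 0 := by positivity
  rw [← h1, ← Complex.real_smul, smul_smul, mul_inv_cancel₀ hpi, one_smul]

theorem hrl_one {ρ0 : ℝ} (hρ0 : 1 < ρ0) (H : ℂ → ℂ)
    (hH : DifferentiableOn ℂ H (Metric.ball 0 ρ0)) (h0 : ‖H 0‖ ≤ 1)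
    (hb : ∀ z ∈ Metric.ball (0 : ℂ) ρ0, |(H z).re| ≤ 1) :
    ∫ θ in (0:ℝ)..(2 * π), ‖H (Complex.exp ((θ : ℂ) * Complex.I))‖ ^ 4 ≤ 156 * π := by
  have hc := hrl_cont hρ0 H hH
  have hpi := Real.pi_pos
  have h1 : ∫ θ in (0:ℝ)..(2 * π), ‖H (Complex.exp ((θ : ℂ) * Complex.I))‖ ^ 4 ≤
      ∫ θ in (0:ℝ)..(2 * π), (4 * ((H (Complex.exp ((θ : ℂ) * Complex.I))) ^ 4).re + 74) := by
    refine intervalIntegral.integral_mono_on (by positivity) ?_ ?_ ?_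
    · exact (hc.norm.pow 4).intervalIntegrable _ _
    · exact ((continuous_const.mul (Complex.continuous_re.comp (hc.pow 4))).add
        continuous_const).intervalIntegrable _ _
    · intro θ _
      exact hrl_pt _ (hb _ (hrl_mem hρ0 θ))
  refine h1.trans ?_
  have hj1 : IntervalIntegrable
      (fun θ : ℝ => 4 * ((H (Complex.exp ((θ : ℂ) * Complex.I))) ^ 4).re) volume 0 (2 * π) :=
    (continuous_const.mul (Complex.continuous_re.comp (hc.pow 4))).intervalIntegrable _ _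
  have hj2 : IntervalIntegrable (fun _ : ℝ => (74 : ℝ)) volume 0 (2 * π) :=
    continuous_const.intervalIntegrable _ _
  rw [intervalIntegral.integral_add hj1 hj2, intervalIntegral.integral_const_mul,
    intervalIntegral.integral_const]
  have h2 : ∫ θ in (0:ℝ)..(2 * π), ((H (Complex.exp ((θ : ℂ) * Complex.I))) ^ 4).re =
      2 * π * ((H 0) ^ 4).re := by
    have h3 := Complex.reCLM.intervalIntegral_comp_comm
      ((hc.pow 4).intervalIntegrable (μ := volume) 0 (2 * π))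
    simp only [Complex.reCLM_apply, Pi.pow_apply] at h3
    rw [h3, hrl_mean hρ0 H hH, Complex.re_ofReal_mul]
  have h4 : ((H 0) ^ 4).re ≤ 1 := by
    refine (Complex.re_le_norm _).trans ?_
    rw [norm_pow]
    exact pow_le_one₀ (norm_nonneg _) h0
  rw [h2, smul_eq_mul]
  nlinarith

theorem hrl_lint {ρ0 : ℝ} (hρ0 : 1 < ρ0) (F H1 H2 : ℂ → ℂ)
    (hF : DifferentiableOn ℂ F (Metric.ball 0 ρ0))
    (hH1 : DifferentiableOn ℂ H1 (Metric.ball 0 ρ0))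
    (hH2 : DifferentiableOn ℂ H2 (Metric.ball 0 ρ0))
    (h : ∀ z, ‖F z‖ ≤ (‖H1 z‖ + ‖H2 z‖) / 2)
    (h1 : ∫ θ in (0:ℝ)..(2 * π), ‖H1 (Complex.exp ((θ : ℂ) * Complex.I))‖ ^ 4 ≤ 156 * π)
    (h2 : ∫ θ in (0:ℝ)..(2 * π), ‖H2 (Complex.exp ((θ : ℂ) * Complex.I))‖ ^ 4 ≤ 156 * π) :
    ∫⁻ θ in Ioo 0 (2 * π), ‖F (Complex.exp ((θ : ℂ) * Complex.I))‖ₑ ^ (4:ℝ) ≤
      ENNReal.ofReal (156 * π) := by
  have hpi := Real.pi_pos
  have hcF := hrl_cont hρ0 F hF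
  have hc1 := hrl_cont hρ0 H1 hH1
  have hc2 := hrl_cont hρ0 H2 hH2
  have e1 : ∀ θ : ℝ, ‖F (Complex.exp ((θ : ℂ) * Complex.I))‖ₑ ^ (4:ℝ) =
      ENNReal.ofReal (‖F (Complex.exp ((θ : ℂ) * Complex.I))‖ ^ 4) := by
    intro θ
    rw [← ofReal_norm, ENNReal.ofReal_rpow_of_nonneg (norm_nonneg _) (by norm_num)]
    congr 1
    exact_mod_cast Real.rpow_natCast _ 4
  simp only [e1]
  have hi : IntegrableOn (fun θ : ℝ => ‖F (Complex.exp ((θ : ℂ) * Complex.I))‖ ^ 4)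
      (Ioo 0 (2 * π)) volume :=
    (((hcF.norm.pow 4).continuousOn (s := Icc 0 (2 * π))).integrableOn_Icc).mono_set
      Ioo_subset_Icc_self
  rw [← ofReal_integral_eq_lintegral_ofReal hi (Filter.Eventually.of_forall fun θ => by positivity)]
  refine ENNReal.ofReal_le_ofReal ?_
  rw [← integral_Ioc_eq_integral_Ioo, ← intervalIntegral.integral_of_le (by positivity)]
  have h3 : ∫ θ in (0:ℝ)..(2 * π), ‖F (Complex.exp ((θ : ℂ) * Complex.I))‖ ^ 4 ≤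
      ∫ θ in (0:ℝ)..(2 * π), (1 / 2 * ‖H1 (Complex.exp ((θ : ℂ) * Complex.I))‖ ^ 4 +
        1 / 2 * ‖H2 (Complex.exp ((θ : ℂ) * Complex.I))‖ ^ 4) := by
    refine intervalIntegral.integral_mono_on (by positivity) ?_ ?_ ?_
    · exact (hcF.norm.pow 4).intervalIntegrable _ _
    · exact ((continuous_const.mul (hc1.norm.pow 4)).add
        (continuous_const.mul (hc2.norm.pow 4))).intervalIntegrable _ _
    · intro θ _
      have h4 := h (Complex.exp ((θ : ℂ) * Complex.I))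
      set x := ‖H1 (Complex.exp ((θ : ℂ) * Complex.I))‖
      set y := ‖H2 (Complex.exp ((θ : ℂ) * Complex.I))‖
      have h5 := pow_le_pow_left₀ (norm_nonneg _) h4 4
      refine h5.trans ?_
      have h6 : ((x + y) / 2) ^ 2 ≤ (x ^ 2 + y ^ 2) / 2 := by nlinarith [sq_nonneg (x - y)]
      have h7 : ((x + y) / 2) ^ 4 ≤ ((x ^ 2 + y ^ 2) / 2) ^ 2 := by
        have h8 := pow_le_pow_left₀ (sq_nonneg ((x + y) / 2)) h6 2
        rwa [← pow_mul] at h8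
      nlinarith [sq_nonneg (x ^ 2 - y ^ 2)]
  refine h3.trans ?_
  have hj1 : IntervalIntegrable
      (fun θ : ℝ => 1 / 2 * ‖H1 (Complex.exp ((θ : ℂ) * Complex.I))‖ ^ 4) volume 0 (2 * π) :=
    (continuous_const.mul (hc1.norm.pow 4)).intervalIntegrable _ _
  have hj2 : IntervalIntegrable
      (fun θ : ℝ => 1 / 2 * ‖H2 (Complex.exp ((θ : ℂ) * Complex.I))‖ ^ 4) volume 0 (2 * π) :=
    (continuous_const.mul (hc2.norm.pow 4)).intervalIntegrable _ _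
  rw [intervalIntegral.integral_add hj1 hj2,
    intervalIntegral.integral_const_mul, intervalIntegral.integral_const_mul]
  linarith

theorem riesz_four (ρ0 : ℝ) (hρ0 : 1 < ρ0) (F G : ℂ → ℂ)
    (hF : DifferentiableOn ℂ F (Metric.ball 0 ρ0)) (hG : DifferentiableOn ℂ G (Metric.ball 0 ρ0))
    (hG0 : G 0 = 0) (hb : ∀ z ∈ Metric.ball (0 : ℂ) ρ0, ‖F z + conj (G z)‖ ≤ 1) :
    ∫⁻ θ in Ioo 0 (2 * π), ‖F (Complex.exp ((θ : ℂ) * Complex.I))‖ₑ ^ (4:ℝ) ≤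
        ENNReal.ofReal (156 * π) ∧
      ∫⁻ θ in Ioo 0 (2 * π), ‖G (Complex.exp ((θ : ℂ) * Complex.I))‖ₑ ^ (4:ℝ) ≤
        ENNReal.ofReal (156 * π) := by
  have h00 : (0 : ℂ) ∈ Metric.ball (0 : ℂ) ρ0 := Metric.mem_ball_self (by linarith)
  have hF0 : ‖F 0‖ ≤ 1 := by
    have h1 := hb 0 h00
    rwa [hG0, map_zero, add_zero] at h1
  have hH1 : DifferentiableOn ℂ (fun z => F z + G z) (Metric.ball 0 ρ0) := hF.add hG
  have hH2 : DifferentiableOn ℂ (fun z => -Complex.I * (F z - G z)) (Metric.ball 0 ρ0) :=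
    (hF.sub hG).const_mul _
  have i1 := hrl_one hρ0 (fun z => F z + G z) hH1 (by simpa [hG0] using hF0) (by
    intro z hz
    have h1 := (Complex.abs_re_le_norm (F z + conj (G z))).trans (hb z hz)
    simpa [Complex.add_re, Complex.conj_re] using h1)
  have i2 := hrl_one hρ0 (fun z => -Complex.I * (F z - G z)) hH2 (by simpa [hG0] using hF0) (by
    intro z hz
    have h1 := (Complex.abs_im_le_norm (F z + conj (G z))).trans (hb z hz)
    have h2 : (-Complex.I * (F z - G z)).re = (F z + conj (G z)).im := by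
      simp only [Complex.mul_re, Complex.neg_re, Complex.I_re, Complex.neg_im, Complex.I_im,
        Complex.sub_re, Complex.sub_im, Complex.add_im, Complex.conj_im]
      ring
    rw [h2]
    exact h1)
  have hI : ∀ w : ℂ, ‖-Complex.I * w‖ = ‖w‖ := fun w => by simp
  refine ⟨hrl_lint hρ0 F _ _ hF hH1 hH2 ?_ i1 i2, hrl_lint hρ0 G _ _ hG hH1 hH2 ?_ i1 i2⟩
  · intro z
    simp only [hI]
    have h1 : F z = ((F z + G z) + (F z - G z)) / 2 := by ring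
    have h2 : ‖(F z + G z) + (F z - G z)‖ ≤ ‖F z + G z‖ + ‖F z - G z‖ := norm_add_le _ _
    calc ‖F z‖ = ‖((F z + G z) + (F z - G z)) / 2‖ := by rw [← h1]
      _ = ‖(F z + G z) + (F z - G z)‖ / 2 := by rw [norm_div]; norm_num
      _ ≤ (‖F z + G z‖ + ‖F z - G z‖) / 2 := by linarith
  · intro z
    simp only [hI]
    have h1 : G z = ((F z + G z) - (F z - G z)) / 2 := by ring
    have h2 : ‖(F z + G z) - (F z - G z)‖ ≤ ‖F z + G z‖ + ‖F z - G z‖ := norm_sub_le _ _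
    calc ‖G z‖ = ‖((F z + G z) - (F z - G z)) / 2‖ := by rw [← h1]
      _ = ‖(F z + G z) - (F z - G z)‖ / 2 := by rw [norm_div]; norm_num
      _ ≤ (‖F z + G z‖ + ‖F z - G z‖) / 2 := by linarith

end Pool.Agent.HB
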