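import Pool.Agent.HB.Defs

/-!
# Row RN: even moments of a linear form on the unit sphere of `R^(2m)`

`AN_rec`: for a unit vector `y` of `R^n`, `n = 2m ≥ 4`, and `A_N = ∫ ⟨x, y⟩^(2N) dσ(x)`:
`(2N + 2m) A_(N+1) = (2N+1) A_N`.

Proof. (i) rotation invariance: there is a linear isometry of `R^n` moving the last basis vector to `y`
(see the proof of `extn_one_rot` in `Pool/Agent/MP_6cbfb8_an/Decay.lean`) and
`measurePreserving_isometry` (Sphere.lean), so `y` may be replaced by the last basis vector,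
`⟨x, y⟩ = x (last)`.
(ii) library theorem `slicing` (Sphere.lean; `m + m = j + 3`; see how `extn_one_eq` in Decay.lean uses it
for integrals of complex or real functions, or use a nonnegative version with `ENNReal.ofReal`, the
integrand is `≥ 0`): the integral over the sphere of a function of the last coordinate `cos θ` is
`c ∫_0^π φ(cos θ) sin^(n-2) θ dθ` with the constant `c = sm (n-1) univ` independent of `φ`.
(iii) `J_N = ∫_0^π cos^(2N) θ sin^(n-2) θ dθ` satisfies `(2N + n) J_(N+1) = (2N+1) J_N`: integrate the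
derivative of `cos^(2N+1) θ sin^(n-1) θ`, which vanishes at `0` and `π`:
`0 = -(2N+1) ∫ cos^(2N) sin^n + (n-1) ∫ cos^(2N+2) sin^(n-2)` and `sin^n = sin^(n-2) (1 - cos^2)`.
-/

namespace Pool.Agent.HB

open MeasureTheory Set Pool.Agent.MP_6cbfb8_an
open scoped ENNReal Real

theorem hrn_int (j : ℕ) (y : E (j + 2)) (hy : ‖y‖ = 1) (f : ℝ → ℝ) (hf : Continuous f) :
    ∫ x : S (j + 2), f (inner ℝ (x : E (j + 2)) y : ℝ) ∂(sm (j + 2)) =
      (sm (j + 1)).real univ * ∫ θ in (0 : ℝ)..π, Real.sin θ ^ j * f (Real.cos θ) := by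
  set v : E (j + 2) := join (0 : E (j + 1)) 1 with hv
  have hnorm : ‖v‖ = ‖y‖ := by
    rw [hv, DecayAux.norm_join_zero_one, hy]
  set R : E (j + 2) ≃ₗᵢ[ℝ] E (j + 2) := Submodule.reflection (Submodule.span ℝ {v - y})ᗮ with hR
  have hRv : R v = y := Submodule.reflection_sub hnorm
  have hmp := measurePreserving_isometry R
  have h1 : ∫ x : S (j + 2), f (inner ℝ (x : E (j + 2)) y : ℝ) ∂(sm (j + 2)) =
      ∫ x : S (j + 2), f (inner ℝ (R (x : E (j + 2))) y : ℝ) ∂(sm (j + 2)) := by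
    conv_lhs => rw [← hmp.map_eq]
    rw [integral_map hmp.measurable.aemeasurable]
    refine Continuous.aestronglyMeasurable ?_
    fun_prop
  have h2 : ∀ x : S (j + 2), f (inner ℝ (R (x : E (j + 2))) y : ℝ) =
      f (inner ℝ (x : E (j + 2)) v : ℝ) := by
    intro x
    rw [← hRv, LinearIsometryEquiv.inner_map_map]
  rw [h1, integral_congr_ae (Filter.Eventually.of_forall h2)]
  have hmp' := slicing j
  have h3 : ∫ x : S (j + 2), f (inner ℝ (x : E (j + 2)) v : ℝ) ∂(sm (j + 2)) =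
      ∫ q : ℝ × S (j + 1), f (Real.cos q.1)
        ∂((((volume : Measure ℝ).restrict (Ioo 0 π)).withDensity
        (fun θ => ENNReal.ofReal (Real.sin θ ^ j))).prod (sm (j + 1))) := by
    conv_lhs => rw [← hmp'.map_eq]
    rw [integral_map hmp'.measurable.aemeasurable]
    · congr 1
      funext q
      congr 1
      show inner ℝ (pt q.1 (q.2 : E (j + 1))) _ = _
      rw [hv]
      unfold pt
      rw [DecayAux.inner_join]
      simp
    · refine Continuous.aestronglyMeasurable ?_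
      fun_prop
  rw [h3, integral_fun_fst (fun θ => f (Real.cos θ)),
    integral_withDensity_eq_integral_toReal_smul (by fun_prop)
      (by filter_upwards with x using ENNReal.ofReal_lt_top),
    intervalIntegral.integral_of_le Real.pi_pos.le, integral_Ioc_eq_integral_Ioo]
  rw [smul_eq_mul]
  congr 1
  refine setIntegral_congr_fun measurableSet_Ioo fun θ hθ => ?_
  have : 0 ≤ Real.sin θ := Real.sin_nonneg_of_nonneg_of_le_pi hθ.1.le hθ.2.le
  simp only [ENNReal.toReal_ofReal (pow_nonneg this j), smul_eq_mul]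

theorem hrn_J (j N : ℕ) :
    (2 * (N : ℝ) + (j + 2)) * ∫ θ in (0 : ℝ)..π, Real.sin θ ^ j * Real.cos θ ^ (2 * (N + 1)) =
      (2 * (N : ℝ) + 1) * ∫ θ in (0 : ℝ)..π, Real.sin θ ^ j * Real.cos θ ^ (2 * N) := by
  have hd : ∀ θ : ℝ, HasDerivAt (fun θ => Real.cos θ ^ (2 * N + 1) * Real.sin θ ^ (j + 1))
      ((2 * (N : ℝ) + (j + 2)) * (Real.sin θ ^ j * Real.cos θ ^ (2 * (N + 1))) -
        (2 * (N : ℝ) + 1) * (Real.sin θ ^ j * Real.cos θ ^ (2 * N))) θ := by
    intro θ
    have h1 := ((Real.hasDerivAt_cos θ).pow (2 * N + 1)).mul ((Real.hasDerivAt_sin θ).pow (j + 1))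
    refine h1.congr_deriv ?_
    have h2 := Real.sin_sq_add_cos_sq θ
    simp only [Nat.add_sub_cancel, Pi.pow_apply]
    push_cast
    have e1 : Real.sin θ ^ (j + 1) = Real.sin θ ^ j * Real.sin θ := pow_succ _ _
    have e2 : Real.cos θ ^ (2 * N + 1) = Real.cos θ ^ (2 * N) * Real.cos θ := pow_succ _ _
    have e3 : Real.cos θ ^ (2 * (N + 1)) = Real.cos θ ^ (2 * N) * Real.cos θ ^ 2 := by
      rw [← pow_add]
      congr 1
    rw [e1, e2, e3]
    linear_combination (-(2 * (N : ℝ) + 1) * Real.sin θ ^ j * Real.cos θ ^ (2 * N)) * h2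
  have hi := intervalIntegral.integral_eq_sub_of_hasDerivAt (a := 0) (b := π)
    (fun θ _ => hd θ) (Continuous.intervalIntegrable (by fun_prop) _ _)
  rw [intervalIntegral.integral_sub (Continuous.intervalIntegrable (by fun_prop) _ _)
    (Continuous.intervalIntegrable (by fun_prop) _ _), intervalIntegral.integral_const_mul,
    intervalIntegral.integral_const_mul] at hi
  rw [Real.sin_pi, Real.sin_zero, zero_pow (Nat.succ_ne_zero j), mul_zero, mul_zero, sub_zero] at hi
  linarith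

theorem hrn_rec (n j : ℕ) (h : n = j + 2) (y : E n) (hy : ‖y‖ = 1) (N : ℕ) :
    (2 * (N : ℝ) + n) * ∫ x : S n, (inner ℝ (x : E n) y : ℝ) ^ (2 * (N + 1)) ∂(sm n) =
      (2 * (N : ℝ) + 1) * ∫ x : S n, (inner ℝ (x : E n) y : ℝ) ^ (2 * N) ∂(sm n) := by
  subst h
  rw [hrn_int j y hy (fun t => t ^ (2 * (N + 1))) (by fun_prop),
    hrn_int j y hy (fun t => t ^ (2 * N)) (by fun_prop)]
  have h1 := hrn_J j N
  push_cast
  linear_combination ((sm (j + 1)).real univ) * h1

theorem AN_rec {m : ℕ} (hm : 2 ≤ m) (y : E (m + m)) (hy : ‖y‖ = 1) (N : ℕ) :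
    (2 * (N : ℝ) + 2 * m) *
      ∫ x : S (m + m), (inner ℝ (x : E (m + m)) y : ℝ) ^ (2 * (N + 1)) ∂(sm (m + m)) =
      (2 * (N : ℝ) + 1) *
        ∫ x : S (m + m), (inner ℝ (x : E (m + m)) y : ℝ) ^ (2 * N) ∂(sm (m + m)) := by
  have h := hrn_rec (m + m) (m + m - 2) (by omega) y hy N
  rw [← h]
  push_cast
  ring

end Pool.Agent.HB
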