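import Pool.Agent.HB.RA
import Pool.Agent.HB.RN

/-!
# Row RM: moments of `⟪ω, z⟫` on the unit sphere of `C^m`

`orth`: replace `z` by `exp(iθ) z` (`integral_unitary` with the scalar isometry): the integral `I`
satisfies `I = exp(i(a-b)θ) I` for all `θ`; take any `θ` with `exp(i(a-b)θ) ≠ 1`, e.g.
`θ = π/(a-b)`.

`moment`: let `w = ⟪ω, z⟫` (`z = cpx x`), `M_N = ∫ |w|^(2N)`, `A_N = ∫ ⟨x, y⟩^(2N)` for a unit vector
`y`; by `AN_rec` (row RN) and `A_0 = |S|` the number `A_N` does not depend on `y` and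
`(2N+2m) A_(N+1) = (2N+1) A_N`.
For every real `θ`, `Re (exp(iθ) w) = ⟨x, y_θ⟩` with the unit vector `y_θ = cm (exp(-iθ)) (rea ω)` (see
`inner_cm`), so `A_N = ∫ (Re (exp(iθ) w))^(2N) dσ`. Integrate over `θ ∈ (0, 2π)` and exchange:
`2π A_N = C_N M_N` with `C_N = ∫_0^{2π} cos^(2N) θ dθ` (for a complex number `w = |w| exp(iα)`,
`∫_0^{2π} (Re (exp(iθ) w))^(2N) dθ = |w|^(2N) ∫_0^{2π} cos^(2N)(θ+α) dθ = |w|^(2N) C_N`, periodicity), and
`(2N+2) C_(N+1) = (2N+1) C_N` (Mathlib `integral_cos_pow`, or by parts), `C_0 = 2π`.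
So `(N + m) M_(N+1) = (N+1) M_N`, `M_0 = |S|`, and the formula follows by induction:
`N! (m-1)! / (N+m-1)!` satisfies the same recursion.
-/

namespace Pool.Agent.HB

open MeasureTheory Set Pool.Agent.MP_6cbfb8_an
open scoped ENNReal Real ComplexConjugate Nat

/-- multiplication by a complex number of modulus one -/
noncomputable def hrmU (m : ℕ) (c : ℂ) (hc : ‖c‖ = 1) : EC m ≃ₗᵢ[ℂ] EC m where
  toLinearEquiv := LinearEquiv.smulOfNeZero ℂ (EC m) c (by
    intro h
    rw [h, norm_zero] at hc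
    exact one_ne_zero hc.symm)
  norm_map' x := by
    show ‖c • x‖ = ‖x‖
    rw [norm_smul, hc, one_mul]

theorem hrmU_apply (m : ℕ) (c : ℂ) (hc : ‖c‖ = 1) (z : EC m) : hrmU m c hc z = c • z := rfl

theorem orth {m : ℕ} (ω : EC m) (a b : ℕ) (hab : a ≠ b) :
    ∫ x : S (m + m), (inner ℂ ω (cpx (x : E (m + m))) : ℂ) ^ a *
      (conj (inner ℂ ω (cpx (x : E (m + m))) : ℂ)) ^ b ∂(sm (m + m)) = 0 := by
  set F : EC m → ℂ := fun z => (inner ℂ ω z : ℂ) ^ a * (conj (inner ℂ ω z : ℂ)) ^ b with hF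
  set I : ℂ := ∫ x : S (m + m), F (cpx (x : E (m + m))) ∂(sm (m + m)) with hI
  show I = 0
  set θ : ℝ := π / ((a : ℝ) - b) with hθ
  have hab' : (a : ℝ) - b ≠ 0 := by
    intro h
    apply hab
    exact_mod_cast sub_eq_zero.1 h
  have hθ' : θ * ((a : ℝ) - b) = π := by
    rw [hθ]
    field_simp
  set c : ℂ := Complex.exp (θ * Complex.I) with hc
  have hcn : ‖c‖ = 1 := Complex.norm_exp_ofReal_mul_I _
  have h1 := integral_unitary (hrmU m c hcn) F
  have h2 : c ^ a * (conj c) ^ b = -1 := by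
    rw [hc, ← Complex.exp_conj, ← Complex.exp_nat_mul, ← Complex.exp_nat_mul, ← Complex.exp_add]
    rw [map_mul, Complex.conj_ofReal, Complex.conj_I]
    rw [show (a : ℂ) * (θ * Complex.I) + (b : ℂ) * (θ * -Complex.I) =
      ((θ * ((a : ℝ) - b) : ℝ) : ℂ) * Complex.I by push_cast; ring]
    rw [hθ', Complex.exp_pi_mul_I]
  have h3 : ∀ x : S (m + m), F (hrmU m c hcn (cpx (x : E (m + m)))) = -F (cpx (x : E (m + m))) := by
    intro x
    rw [hrmU_apply, hF]
    simp only [inner_smul_right, map_mul, mul_pow]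
    linear_combination ((inner ℂ ω (cpx (x : E (m + m))) : ℂ) ^ a *
      (conj (inner ℂ ω (cpx (x : E (m + m))) : ℂ)) ^ b) * h2
  rw [integral_congr_ae (Filter.Eventually.of_forall h3), integral_neg] at h1
  have h4 : -I = I := h1
  linear_combination (-1 / 2 : ℂ) * h4

/-- the integral of `cos ^ (2 N)` over a period -/
noncomputable def hrmC (N : ℕ) : ℝ := ∫ θ in (0 : ℝ)..(2 * π), Real.cos θ ^ (2 * N)

theorem hrmC_succ (N : ℕ) : (2 * (N : ℝ) + 2) * hrmC (N + 1) = (2 * (N : ℝ) + 1) * hrmC N := by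
  unfold hrmC
  have h := integral_cos_pow (a := 0) (b := 2 * π) (n := 2 * N)
  rw [Real.sin_two_pi, Real.sin_zero, mul_zero, mul_zero, sub_zero, zero_div, zero_add] at h
  rw [show 2 * (N + 1) = 2 * N + 2 by ring, h]
  push_cast
  field_simp

theorem hrmC_zero : hrmC 0 = 2 * π := by
  unfold hrmC
  simp

theorem hrmC_pos (N : ℕ) : 0 < hrmC N := by
  induction N with
  | zero =>
    rw [hrmC_zero]
    have := Real.pi_pos
    positivity
  | succ N ih =>
    have h := hrmC_succ N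
    have h1 : (0 : ℝ) < 2 * (N : ℝ) + 2 := by positivity
    have h2 : 0 < (2 * (N : ℝ) + 1) * hrmC N := by positivity
    rw [← h] at h2
    exact (pos_iff_pos_of_mul_pos h2).1 h1

/-- the planar average -/
theorem hrm_avg (w : ℂ) (N : ℕ) :
    ∫ θ in (0 : ℝ)..(2 * π), (Complex.exp (θ * Complex.I) * w).re ^ (2 * N) =
      ‖w‖ ^ (2 * N) * hrmC N := by
  have h1 : ∀ θ : ℝ, (Complex.exp (θ * Complex.I) * w).re ^ (2 * N) =
      ‖w‖ ^ (2 * N) * Real.cos (θ + w.arg) ^ (2 * N) := by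
    intro θ
    have h2 : Complex.exp (θ * Complex.I) * w = ‖w‖ * Complex.exp ((θ + w.arg : ℝ) * Complex.I) := by
      conv_lhs => rw [← Complex.norm_mul_exp_arg_mul_I w]
      push_cast
      rw [add_mul, Complex.exp_add]
      ring
    rw [h2, Complex.re_ofReal_mul, Complex.exp_ofReal_mul_I_re, mul_pow]
  simp_rw [h1]
  rw [intervalIntegral.integral_const_mul]
  congr 1
  unfold hrmC
  rw [intervalIntegral.integral_comp_add_right (fun θ => Real.cos θ ^ (2 * N)) w.arg]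
  have hp : Function.Periodic (fun θ : ℝ => Real.cos θ ^ (2 * N)) (2 * π) := by
    intro θ
    show Real.cos (θ + 2 * π) ^ (2 * N) = Real.cos θ ^ (2 * N)
    rw [Real.cos_add_two_pi]
  have h3 := hp.intervalIntegral_add_eq (0 + w.arg) 0
  rw [zero_add (2 * π)] at h3
  rw [← h3]
  congr 1
  ring

theorem hrm_A {m : ℕ} (hm : 2 ≤ m) (y y' : E (m + m)) (hy : ‖y‖ = 1) (hy' : ‖y'‖ = 1) (N : ℕ) :
    ∫ x : S (m + m), (inner ℝ (x : E (m + m)) y : ℝ) ^ (2 * N) ∂(sm (m + m)) =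
      ∫ x : S (m + m), (inner ℝ (x : E (m + m)) y' : ℝ) ^ (2 * N) ∂(sm (m + m)) := by
  induction N with
  | zero => simp
  | succ N ih =>
    have h1 := AN_rec hm y hy N
    have h2 := AN_rec hm y' hy' N
    rw [ih, ← h2] at h1
    have h3 : (2 * (N : ℝ) + 2 * m) ≠ 0 := by
      have : (0 : ℝ) < m := by
        have : 0 < m := by omega
        exact_mod_cast this
      positivity
    exact mul_left_cancel₀ h3 h1

theorem hrm_continuous {m : ℕ} (ω : EC m) :
    Continuous fun x : S (m + m) => (inner ℂ ω (cpx (x : E (m + m))) : ℂ) := by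
  have h : Continuous fun x : S (m + m) => cpx (x : E (m + m)) :=
    continuous_cpx.comp continuous_subtype_val
  exact continuous_const.inner h

/-- `2 π A_N = C_N M_N` -/
theorem hrm_key {m : ℕ} (hm : 2 ≤ m) (ω : EC m) (hω : ‖ω‖ = 1) (N : ℕ) :
    2 * π * ∫ x : S (m + m), (inner ℝ (x : E (m + m)) (rea ω) : ℝ) ^ (2 * N) ∂(sm (m + m)) =
      hrmC N *
        ∫ x : S (m + m), ‖(inner ℂ ω (cpx (x : E (m + m))) : ℂ)‖ ^ (2 * N) ∂(sm (m + m)) := by
  set A : ℝ := ∫ x : S (m + m), (inner ℝ (x : E (m + m)) (rea ω) : ℝ) ^ (2 * N) ∂(sm (m + m)) with hA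
  have hrea : ‖rea ω‖ = 1 := by rw [norm_rea, hω]
  have h1 : ∀ θ : ℝ, ∫ x : S (m + m),
      (Complex.exp (θ * Complex.I) * (inner ℂ ω (cpx (x : E (m + m))) : ℂ)).re ^ (2 * N)
        ∂(sm (m + m)) = A := by
    intro θ
    have hy : ‖cm (Complex.exp (-(θ * Complex.I))) (rea ω)‖ = 1 := by
      rw [norm_cm, hrea, mul_one]
      rw [show -(θ * Complex.I) = ((-θ : ℝ) : ℂ) * Complex.I by push_cast; ring]
      exact Complex.norm_exp_ofReal_mul_I _
    rw [hA, hrm_A hm _ _ hrea hy]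
    congr 1
    funext x
    rw [inner_cm, cpx_rea, ← Complex.exp_conj, map_neg, map_mul, Complex.conj_ofReal,
      Complex.conj_I, mul_neg, neg_neg]
  have hcont : Continuous fun q : ℝ × S (m + m) =>
      (Complex.exp (q.1 * Complex.I) * (inner ℂ ω (cpx (q.2 : E (m + m))) : ℂ)).re ^ (2 * N) := by
    have h := (hrm_continuous ω).comp (continuous_snd (X := ℝ) (Y := S (m + m)))
    have h' : Continuous fun q : ℝ × S (m + m) => Complex.exp (q.1 * Complex.I) := by fun_prop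
    exact (Complex.continuous_re.comp (h'.mul h)).pow _
  have hint : Integrable (Function.uncurry fun (θ : ℝ) (x : S (m + m)) =>
      (Complex.exp (θ * Complex.I) * (inner ℂ ω (cpx (x : E (m + m))) : ℂ)).re ^ (2 * N))
      ((volume.restrict (Ioc 0 (2 * π))).prod (sm (m + m))) := by
    refine Integrable.of_bound hcont.aestronglyMeasurable 1 (Filter.Eventually.of_forall ?_)
    rintro ⟨θ, x⟩
    show ‖(Complex.exp (θ * Complex.I) * (inner ℂ ω (cpx (x : E (m + m))) : ℂ)).re ^ (2 * N)‖ ≤ 1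
    rw [norm_pow]
    apply pow_le_one₀ (norm_nonneg _)
    rw [Real.norm_eq_abs]
    refine (Complex.abs_re_le_norm _).trans ?_
    rw [norm_mul, Complex.norm_exp_ofReal_mul_I, one_mul]
    refine (norm_inner_le_norm _ _).trans ?_
    have hx : ‖(x : E (m + m))‖ = 1 := by simp
    rw [norm_cpx, hω, hx, mul_one]
  have h2 : ∫ θ in (0 : ℝ)..(2 * π), (∫ x : S (m + m),
      (Complex.exp (θ * Complex.I) * (inner ℂ ω (cpx (x : E (m + m))) : ℂ)).re ^ (2 * N)
        ∂(sm (m + m))) = 2 * π * A := by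
    simp_rw [h1]
    rw [intervalIntegral.integral_const, sub_zero, smul_eq_mul]
  have hpi : (0 : ℝ) ≤ 2 * π := by
    have := Real.pi_pos
    positivity
  rw [← h2, intervalIntegral.integral_of_le hpi, integral_integral_swap hint, ← integral_const_mul]
  congr 1
  funext x
  rw [← intervalIntegral.integral_of_le hpi, hrm_avg]
  ring

theorem hrm_step {m : ℕ} (hm : 2 ≤ m) (ω : EC m) (hω : ‖ω‖ = 1) (N : ℕ) :
    ((N : ℝ) + m) *
      ∫ x : S (m + m), ‖(inner ℂ ω (cpx (x : E (m + m))) : ℂ)‖ ^ (2 * (N + 1)) ∂(sm (m + m)) =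
      ((N : ℝ) + 1) *
        ∫ x : S (m + m), ‖(inner ℂ ω (cpx (x : E (m + m))) : ℂ)‖ ^ (2 * N) ∂(sm (m + m)) := by
  have hrea : ‖rea ω‖ = 1 := by rw [norm_rea, hω]
  have h1 := hrm_key hm ω hω N
  have h2 := hrm_key hm ω hω (N + 1)
  have h3 := AN_rec hm (rea ω) hrea N
  have h4 := hrmC_succ N
  have h5 := (hrmC_pos (N + 1)).ne'
  apply mul_left_cancel₀ h5
  linear_combination (-((N : ℝ) + m)) * h2 + (2 * (N : ℝ) + 1) / 2 * h1 + π * h3 -
    (∫ x : S (m + m), ‖(inner ℂ ω (cpx (x : E (m + m))) : ℂ)‖ ^ (2 * N) ∂(sm (m + m))) / 2 * h4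

theorem moment {m : ℕ} (hm : 2 ≤ m) (ω : EC m) (hω : ‖ω‖ = 1) (N : ℕ) :
    ∫ x : S (m + m), ‖(inner ℂ ω (cpx (x : E (m + m))) : ℂ)‖ ^ (2 * N) ∂(sm (m + m)) =
      (sm (m + m)).real univ * ((N ! : ℝ) * ((m - 1) ! : ℝ) / ((N + m - 1) ! : ℝ)) := by
  induction N with
  | zero =>
    have h1 : ((m - 1) ! : ℝ) ≠ 0 := by
      exact_mod_cast Nat.factorial_ne_zero _
    simp [h1]
  | succ N ih =>
    have hm0 : (0 : ℝ) < m := by
      have : 0 < m := by omega
      exact_mod_cast this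
    have h1 := hrm_step hm ω hω N
    have h2 : ((N : ℝ) + m) ≠ 0 := by positivity
    apply mul_left_cancel₀ h2
    rw [h1, ih]
    have h3 : N + 1 + m - 1 = (N + m - 1) + 1 := by omega
    have h4 : (((N + m - 1) + 1) ! : ℝ) = ((N : ℝ) + m) * ((N + m - 1) ! : ℝ) := by
      rw [Nat.factorial_succ, Nat.cast_mul]
      congr 1
      have : N + m - 1 + 1 = N + m := by omega
      rw [this]
      push_cast
      rfl
    have h5 : (((N + 1) !) : ℝ) = ((N : ℝ) + 1) * ((N !) : ℝ) := by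
      rw [Nat.factorial_succ, Nat.cast_mul]
      push_cast
      rfl
    rw [h3, h4, h5]
    have h6 : ((N + m - 1) ! : ℝ) ≠ 0 := by
      exact_mod_cast Nat.factorial_ne_zero _
    field_simp

end Pool.Agent.HB
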