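import Pool.Agent.HB.RH
import Pool.Agent.HB.RK

/-!
# Row RQ: the `L^p` bound for holomorphic functions with slices in `L^4`

This is row RH (complete in RH.lean, copy the proofs `hol_small`, `shell_bound`, `base_hol`) with the
hypothesis `|f| ≤ 1` replaced by the bound `∫_0^{2π} |f (e^{iθ} ω)|^4 dθ ≤ 156 π` for all `ω` in the sphere
and `circ_Lp` replaced by `circ_Lp4` (row RK): `|sl f ω θ| = |f (e^{iθ} cpx ω)|` for every `θ`, and `sl f ω`
is continuous and periodic, so measurable and bounded by some `M` (compactness of the sphere: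
`f` is continuous on the closed unit ball).

`hol_small4`: `‖extn (f ∘ cpx) ξ‖ₑ ≤ ∫ |f (cpx x)| dσ(x) ≤ ∫ (1 + |f (cpx x)|^4)`, and by unitary invariance
(`lintegral_unitary` with the multiplication by `e^{iθ}`, `hrp_U` in RP.lean, averaged over `θ`; Tonelli)
`2π ∫ |f (cpx x)|^4 dσ(x) = ∫ dσ(x) ∫_0^{2π} |f (e^{iθ} cpx x)|^4 dθ ≤ 156 π sm univ`.
So `‖extn (f ∘ cpx) ξ‖ₑ ≤ 79 * sm univ`.
-/

namespace Pool.Agent.HB

open MeasureTheory Set Pool.Agent.MP_6cbfb8_an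
open scoped ENNReal Real ComplexConjugate

theorem hol_small4 {m : ℕ} (ρ0 : ℝ) (hρ0 : 1 < ρ0) (f : EC m → ℂ)
    (hf : DifferentiableOn ℂ f (Metric.ball 0 ρ0))
    (hb : ∀ ω : E (m + m), ‖ω‖ = 1 →
      ∫⁻ θ in Ioo 0 (2 * π), ‖f (Complex.exp ((θ : ℂ) * Complex.I) • cpx ω)‖ₑ ^ (4:ℝ) ≤
        ENNReal.ofReal (156 * π)) (ξ : E (m + m)) :
    ‖extn (fun x : E (m + m) => f (cpx x)) ξ‖ₑ ≤ 79 * sm (m + m) univ := by
  classical
  set σ : ℝ≥0∞ := sm (m + m) univ with hσ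
  set φ : EC m → ℝ≥0∞ := (Metric.sphere (0 : EC m) 1).piecewise
    (fun z => ‖f z‖ₑ ^ (4:ℝ)) (fun _ => 0) with hφdef
  have hφ : Measurable φ := by
    have hc : ContinuousOn (fun z : EC m => ‖f z‖ₑ ^ (4:ℝ)) (Metric.sphere 0 1) := by
      have h1 : ContinuousOn (fun z : EC m => ‖f z‖ₑ) (Metric.sphere 0 1) := by
        refine (hf.continuousOn.mono ?_).enorm
        intro z hz
        rw [mem_sphere_zero_iff_norm] at hz
        rw [mem_ball_zero_iff, hz]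
        exact hρ0
      exact (ENNReal.continuous_rpow_const.comp_continuousOn h1)
    exact hc.measurable_piecewise continuousOn_const Metric.isClosed_sphere.measurableSet
  have hφ1 : ∀ z : EC m, ‖z‖ = 1 → φ z = ‖f z‖ₑ ^ (4:ℝ) := by
    intro z hz
    rw [hφdef, Set.piecewise_eq_of_mem _ _ _ (mem_sphere_zero_iff_norm.2 hz)]
  set J : ℝ≥0∞ := ∫⁻ x : S (m + m), φ (cpx (x : E (m + m))) ∂(sm (m + m)) with hJ
  have hJθ : ∀ θ : ℝ, ∫⁻ x : S (m + m),
      φ (Complex.exp ((θ : ℂ) * Complex.I) • cpx (x : E (m + m))) ∂(sm (m + m)) = J := by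
    intro θ
    exact lintegral_unitary (hrp_U m θ) φ hφ
  have hmeas : Measurable fun q : ℝ × S (m + m) =>
      φ (Complex.exp ((q.1 : ℂ) * Complex.I) • cpx (q.2 : E (m + m))) := by
    have c1 : Continuous fun q : ℝ × S (m + m) =>
        Complex.exp ((q.1 : ℂ) * Complex.I) • cpx (q.2 : E (m + m)) := by
      have c2 : Continuous fun q : ℝ × S (m + m) => cpx (q.2 : E (m + m)) :=
        continuous_cpx.comp (continuous_subtype_val.comp continuous_snd)
      have c3 : Continuous fun q : ℝ × S (m + m) => Complex.exp ((q.1 : ℂ) * Complex.I) := by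
        fun_prop
      exact c3.smul c2
    exact hφ.comp c1.measurable
  have h1 : J * ENNReal.ofReal (2 * π) ≤ ENNReal.ofReal (156 * π) * σ := by
    calc J * ENNReal.ofReal (2 * π) = ∫⁻ _θ in Ioo 0 (2 * π), J := by
          rw [lintegral_const, Measure.restrict_apply MeasurableSet.univ, univ_inter,
            Real.volume_Ioo, sub_zero]
      _ = ∫⁻ θ in Ioo 0 (2 * π), ∫⁻ x : S (m + m),
            φ (Complex.exp ((θ : ℂ) * Complex.I) • cpx (x : E (m + m))) ∂(sm (m + m)) := by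
          refine lintegral_congr fun θ => ?_
          rw [hJθ]
      _ = ∫⁻ x : S (m + m), (∫⁻ θ in Ioo 0 (2 * π),
            φ (Complex.exp ((θ : ℂ) * Complex.I) • cpx (x : E (m + m)))) ∂(sm (m + m)) :=
          lintegral_lintegral_swap hmeas.aemeasurable
      _ ≤ ∫⁻ _x : S (m + m), ENNReal.ofReal (156 * π) ∂(sm (m + m)) := by
          refine lintegral_mono fun x => ?_
          have hx : ‖(x : E (m + m))‖ = 1 := mem_sphere_zero_iff_norm.1 x.2
          refine le_trans (le_of_eq ?_) (hb (x : E (m + m)) hx)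
          refine lintegral_congr fun θ => ?_
          rw [hφ1]
          rw [norm_smul, norm_cpx, hx, Complex.norm_exp_ofReal_mul_I, mul_one]
      _ = _ := by rw [lintegral_const]
  have h2 : J ≤ 78 * σ := by
    have e1 : ENNReal.ofReal (156 * π) * σ = 78 * σ * ENNReal.ofReal (2 * π) := by
      have e2 : (156 * π : ℝ) = 78 * (2 * π) := by ring
      rw [e2, ENNReal.ofReal_mul (by norm_num)]
      have e3 : ENNReal.ofReal 78 = 78 := by
        rw [← ENNReal.ofReal_ofNat]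
      rw [e3]
      ring
    rw [e1] at h1
    have hpos : ENNReal.ofReal (2 * π) ≠ 0 := by
      rw [Ne, ENNReal.ofReal_eq_zero, not_le]
      positivity
    exact (ENNReal.mul_le_mul_iff_left hpos ENNReal.ofReal_ne_top).1 h1
  unfold extn
  refine (enorm_integral_le_lintegral_enorm _).trans ?_
  calc _ ≤ ∫⁻ x : S (m + m), (1 + φ (cpx (x : E (m + m)))) ∂(sm (m + m)) := by
        refine lintegral_mono fun x => ?_
        have hx : ‖(x : E (m + m))‖ = 1 := mem_sphere_zero_iff_norm.1 x.2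
        rw [enorm_mul, enorm_phase, mul_one, hφ1 _ (by rw [norm_cpx, hx])]
        generalize ‖f (cpx (x : E (m + m)))‖ₑ = a
        rcases le_total a 1 with ha | ha
        · exact ha.trans le_self_add
        · calc a = a ^ (1:ℝ) := (ENNReal.rpow_one a).symm
            _ ≤ a ^ (4:ℝ) := ENNReal.rpow_le_rpow_of_exponent_le ha (by norm_num)
            _ ≤ _ := le_add_self
    _ = σ + J := by
        rw [lintegral_add_left measurable_const, lintegral_const, one_mul]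
    _ ≤ σ + 78 * σ := by gcongr
    _ = 79 * σ := by
        have e3 : (79 : ℝ≥0∞) = 1 + 78 := by norm_num
        rw [e3, add_mul, one_mul]

/-- the restriction to circles is measurable and bounded -/
theorem hrq_sl {m : ℕ} (ρ0 : ℝ) (hρ0 : 1 < ρ0) (f : EC m → ℂ)
    (hf : DifferentiableOn ℂ f (Metric.ball 0 ρ0)) (ω : E (m + m)) (hω : ‖ω‖ = 1) :
    Measurable (sl f ω) ∧ (∃ M : ℝ, ∀ θ, ‖sl f ω θ‖ ≤ M) ∧
      ∀ θ, ‖sl f ω θ‖ₑ = ‖f (Complex.exp ((θ : ℂ) * Complex.I) • cpx ω)‖ₑ := by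
  have hn : ∀ θ : ℝ, ‖Complex.exp ((θ : ℂ) * Complex.I) • cpx ω‖ = 1 := by
    intro θ
    rw [norm_smul, norm_cpx, hω, Complex.norm_exp_ofReal_mul_I, mul_one]
  have hmem : ∀ θ : ℝ, Complex.exp ((θ : ℂ) * Complex.I) • cpx ω ∈ Metric.ball (0 : EC m) ρ0 := by
    intro θ
    rw [mem_ball_zero_iff, hn]
    exact hρ0
  have he : ∀ θ, ‖sl f ω θ‖ = ‖f (Complex.exp ((θ : ℂ) * Complex.I) • cpx ω)‖ := by
    intro θ
    rw [sl, norm_mul, norm_pow, Complex.norm_exp_ofReal_mul_I, one_pow, mul_one]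
  refine ⟨?_, ?_, ?_⟩
  · have hc : Continuous (sl f ω) := by
      unfold sl
      refine Continuous.mul ?_ (by fun_prop)
      refine hf.continuousOn.comp_continuous ?_ hmem
      fun_prop
    exact hc.measurable
  · have hs : ContinuousOn f (Metric.sphere (0 : EC m) 1) := by
      refine hf.continuousOn.mono ?_
      intro z hz
      rw [mem_sphere_zero_iff_norm] at hz
      rw [mem_ball_zero_iff, hz]
      exact hρ0
    obtain ⟨M, hM⟩ := (isCompact_sphere (0 : EC m) 1).exists_bound_of_continuousOn hs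
    refine ⟨M, fun θ => ?_⟩
    rw [he]
    exact hM _ (mem_sphere_zero_iff_norm.2 (hn θ))
  · intro θ
    rw [← ofReal_norm, ← ofReal_norm, he]

theorem shell_bound4 {m : ℕ} (hm : 2 ≤ m) (p : ℝ) (hp2 : 2 < p) (hp4 : p < 4) (κ : ℝ) (hκ : 0 < κ) :
    ∃ C : ℝ≥0∞, C ≠ ∞ ∧ ∀ r : ℝ, 1 ≤ r → ∀ ρ0 : ℝ, 1 < ρ0 → ∀ f : EC m → ℂ,
      DifferentiableOn ℂ f (Metric.ball 0 ρ0) →
      (∀ ω : E (m + m), ‖ω‖ = 1 →
        ∫⁻ θ in Ioo 0 (2 * π), ‖f (Complex.exp ((θ : ℂ) * Complex.I) • cpx ω)‖ₑ ^ (4:ℝ) ≤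
          ENNReal.ofReal (156 * π)) →
      ∫⁻ ξ in sh m r, ‖extn (fun x : E (m + m) => f (cpx x)) ξ‖ₑ ^ p ≤
        C * ENNReal.ofReal (r ^ (((m : ℝ) - 1) * (2 - p) + 2 - p / 2 + κ)) := by
  obtain ⟨C, hC, H⟩ := circ_Lp4 p hp2 hp4 κ hκ
  have hp0 : (0 : ℝ) ≤ p := by linarith
  set A : ℝ := (sm (m + m)).real univ * ((m - 1).factorial : ℝ) / (2 * π * π ^ (m - 1)) with hAdef
  have hA : 0 ≤ A := by positivity
  set D : ℝ≥0∞ := C * ENNReal.ofReal (156 * π) ^ (p / 4) with hD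
  have hDt : D ≠ ∞ := ENNReal.mul_ne_top hC
    (ENNReal.rpow_ne_top_of_nonneg (by positivity) ENNReal.ofReal_ne_top)
  refine ⟨ENNReal.ofReal (1 / (2 * π)) * (ENNReal.ofReal (A ^ p * 4 ^ (m - 1)) * D *
    sm (m + m) univ), ?_, fun r hr1 ρ0 hρ0 f hf hb => ?_⟩
  · exact ENNReal.mul_ne_top ENNReal.ofReal_ne_top (ENNReal.mul_ne_top
      (ENNReal.mul_ne_top ENNReal.ofReal_ne_top hDt) (sm_univ_ne_top _))
  have hr : 0 < r := by linarith
  have hF : Measurable fun ξ => ‖extn (fun x : E (m + m) => f (cpx x)) ξ‖ₑ ^ p :=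
    (measurable_extn_hol ρ0 hρ0 f hf).enorm.pow_const p
  rw [lintegral_sh (by omega) r hr _ hF]
  have hin : ∀ ω : S (m + m), ∫⁻ q in ann r,
      ‖extn (fun x : E (m + m) => f (cpx x)) (cm (⟨q.1, q.2⟩ : ℂ) (ω : E (m + m)))‖ₑ ^ p *
        ENNReal.ofReal ((q.1 ^ 2 + q.2 ^ 2) ^ (m - 1)) ≤
      ENNReal.ofReal (A ^ p * 4 ^ (m - 1)) * D *
        ENNReal.ofReal (r ^ (((m : ℝ) - 1) * (2 - p) + 2 - p / 2 + κ)) := by
    intro ω
    have hω : ‖(ω : E (m + m))‖ = 1 := mem_sphere_zero_iff_norm.1 ω.2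
    obtain ⟨hs1, hs2, hs3⟩ := hrq_sl ρ0 hρ0 f hf (ω : E (m + m)) hω
    have hcirc : ∫⁻ q in ann r, ‖circ (sl f (ω : E (m + m))) q.1 q.2‖ₑ ^ p ≤
        D * ENNReal.ofReal (r ^ (2 - p / 2 + κ)) := by
      refine (H r hr1 _ hs1 hs2).trans ?_
      have h4 : ∫⁻ θ in Ioo 0 (2 * π), ‖sl f (ω : E (m + m)) θ‖ₑ ^ (4:ℝ) ≤
          ENNReal.ofReal (156 * π) := by
        refine le_trans (le_of_eq ?_) (hb (ω : E (m + m)) hω)
        refine lintegral_congr fun θ => ?_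
        rw [hs3]
      calc _ ≤ C * ENNReal.ofReal (r ^ (2 - p / 2 + κ)) *
            ENNReal.ofReal (156 * π) ^ (p / 4) := by gcongr
        _ = _ := by
            rw [hD]
            ring
    calc _ ≤ ∫⁻ q in ann r, (ENNReal.ofReal (A * (r ^ (m - 1))⁻¹) ^ p *
          ENNReal.ofReal (((2 * r) ^ 2) ^ (m - 1))) * ‖circ (sl f (ω : E (m + m))) q.1 q.2‖ₑ ^ p := by
          refine setLIntegral_mono' (measurableSet_ann r) fun q hq => ?_
          have h1 := hrh_point hm (ω : E (m + m)) hω ρ0 hρ0 f hf r hr q hq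
          have h2 : ENNReal.ofReal ((q.1 ^ 2 + q.2 ^ 2) ^ (m - 1)) ≤
              ENNReal.ofReal (((2 * r) ^ 2) ^ (m - 1)) := by
            refine ENNReal.ofReal_le_ofReal (pow_le_pow_left₀ (by positivity) hq.2.le _)
          calc _ ≤ (ENNReal.ofReal (A * (r ^ (m - 1))⁻¹) *
                ‖circ (sl f (ω : E (m + m))) q.1 q.2‖ₑ) ^ p *
                ENNReal.ofReal (((2 * r) ^ 2) ^ (m - 1)) := by
                gcongr
            _ = _ := by
                rw [ENNReal.mul_rpow_of_nonneg _ _ hp0]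
                ring
      _ = (ENNReal.ofReal (A * (r ^ (m - 1))⁻¹) ^ p *
          ENNReal.ofReal (((2 * r) ^ 2) ^ (m - 1))) *
          ∫⁻ q in ann r, ‖circ (sl f (ω : E (m + m))) q.1 q.2‖ₑ ^ p := by
          rw [lintegral_const_mul _ ((measurable_circ _ hs1).enorm.pow_const p)]
      _ ≤ (ENNReal.ofReal (A ^ p * 4 ^ (m - 1)) *
          ENNReal.ofReal (r ^ (((m : ℝ) - 1) * (2 - p)))) * (D * ENNReal.ofReal (r ^ (2 - p / 2 + κ))) := by
          rw [hrh_pow A r p m hA hr (by omega) hp0]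
          gcongr
      _ = ENNReal.ofReal (A ^ p * 4 ^ (m - 1)) * D *
          (ENNReal.ofReal (r ^ (((m : ℝ) - 1) * (2 - p))) * ENNReal.ofReal (r ^ (2 - p / 2 + κ))) := by
          ring
      _ = _ := by
          rw [← ENNReal.ofReal_mul (by positivity), ← Real.rpow_add hr]
          congr 3
          ring
  calc _ ≤ ENNReal.ofReal (1 / (2 * π)) * ∫⁻ _ω : S (m + m), ENNReal.ofReal (A ^ p * 4 ^ (m - 1)) * D *
        ENNReal.ofReal (r ^ (((m : ℝ) - 1) * (2 - p) + 2 - p / 2 + κ)) ∂(sm (m + m)) := by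
        gcongr with ω
        exact hin ω
    _ = _ := by
        rw [lintegral_const]
        ring


theorem base_hol4 {m : ℕ} (hm : 2 ≤ m) (p : ℝ) (hp : 4 * (m : ℝ) / (2 * m - 1) < p) :
    ∃ C : ℝ≥0∞, C ≠ ∞ ∧ ∀ ρ0 : ℝ, 1 < ρ0 → ∀ f : EC m → ℂ,
      DifferentiableOn ℂ f (Metric.ball 0 ρ0) →
      (∀ ω : E (m + m), ‖ω‖ = 1 →
        ∫⁻ θ in Ioo 0 (2 * π), ‖f (Complex.exp ((θ : ℂ) * Complex.I) • cpx ω)‖ₑ ^ (4:ℝ) ≤
          ENNReal.ofReal (156 * π)) →
      ∫⁻ ξ, ‖extn (fun x : E (m + m) => f (cpx x)) ξ‖ₑ ^ p ≤ C := by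
  have hmR : (2 : ℝ) ≤ m := by exact_mod_cast hm
  have hd : (0 : ℝ) < 2 * m - 1 := by linarith
  have h4 : 4 * (m : ℝ) / (2 * m - 1) < 4 := by
    rw [div_lt_iff₀ hd]
    linarith
  obtain ⟨p', h1, h2⟩ := exists_between (lt_min hp h4)
  have h2p : p' < p := lt_of_lt_of_le h2 (min_le_left _ _)
  have h24 : p' < 4 := lt_of_lt_of_le h2 (min_le_right _ _)
  have hp'2 : 2 < p' := by
    refine lt_trans ?_ h1
    rw [lt_div_iff₀ hd]
    linarith
  set e : ℝ := ((m : ℝ) - 1) * (2 - p') + 2 - p' / 2 with he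
  have he0 : e < 0 := by
    rw [div_lt_iff₀ hd] at h1
    rw [he]
    nlinarith
  obtain ⟨C, hC, H⟩ := shell_bound4 hm p' hp'2 h24 (-e / 2) (by linarith)
  set T := ∑' k : ℕ, ENNReal.ofReal (((2 : ℝ) ^ k) ^ (((m : ℝ) - 1) * (2 - p') + 2 - p' / 2 + -e / 2))
    with hT
  have hTt : T ≠ ∞ := tsum_dyadic_ne_top _ (by rw [← he]; linarith)
  set M : ℝ≥0∞ := 79 * sm (m + m) univ with hM
  have hMt : M ≠ ∞ := ENNReal.mul_ne_top (by simp) (sm_univ_ne_top _)
  refine ⟨M ^ (p - p') * (M ^ p' * volume (Metric.ball (0 : E (m + m)) 1) + C * T), ?_,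
    fun ρ0 hρ0 f hf hb => ?_⟩
  · refine ENNReal.mul_ne_top (ENNReal.rpow_ne_top_of_nonneg (by linarith) hMt) ?_
    refine ENNReal.add_ne_top.2 ⟨ENNReal.mul_ne_top (ENNReal.rpow_ne_top_of_nonneg (by linarith) hMt)
      measure_ball_lt_top.ne, ENNReal.mul_ne_top hC hTt⟩
  have hmeas : Measurable fun ξ => ‖extn (fun x : E (m + m) => f (cpx x)) ξ‖ₑ :=
    (measurable_extn_hol ρ0 hρ0 f hf).enorm
  have hsup : ∀ ξ, ‖extn (fun x : E (m + m) => f (cpx x)) ξ‖ₑ ≤ M := hol_small4 ρ0 hρ0 f hf hb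
  refine (lintegral_rpow_le_sup _ hmeas (by linarith : (0 : ℝ) ≤ p') h2p.le M hsup).trans ?_
  gcongr
  have hcov : (univ : Set (E (m + m))) ⊆ Metric.ball 0 1 ∪ ⋃ k : ℕ, sh m ((2 : ℝ) ^ k) := by
    intro y _
    by_cases h : ‖y‖ < 1
    · left
      simpa using h
    · right
      push Not at h
      obtain ⟨k, hk1, hk2⟩ := exists_nat_pow_near (x := ‖y‖) (y := 2) h (by norm_num)
      refine mem_iUnion.2 ⟨k, hk1, ?_⟩
      rw [← pow_succ']
      exact hk2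
  have hball : ∫⁻ ξ in Metric.ball (0 : E (m + m)) 1,
      ‖extn (fun x : E (m + m) => f (cpx x)) ξ‖ₑ ^ p' ≤
      M ^ p' * volume (Metric.ball (0 : E (m + m)) 1) := by
    calc _ ≤ ∫⁻ _ξ in Metric.ball (0 : E (m + m)) 1, M ^ p' := by
          gcongr with ξ
          exact hsup ξ
      _ = _ := by
          rw [lintegral_const, Measure.restrict_apply_univ]
  calc ∫⁻ ξ, ‖extn (fun x : E (m + m) => f (cpx x)) ξ‖ₑ ^ p'
      = ∫⁻ ξ in univ, ‖extn (fun x : E (m + m) => f (cpx x)) ξ‖ₑ ^ p' := by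
        rw [setLIntegral_univ]
    _ ≤ ∫⁻ ξ in Metric.ball 0 1 ∪ ⋃ k : ℕ, sh m ((2 : ℝ) ^ k),
          ‖extn (fun x : E (m + m) => f (cpx x)) ξ‖ₑ ^ p' := lintegral_mono_set hcov
    _ ≤ (∫⁻ ξ in Metric.ball (0 : E (m + m)) 1,
          ‖extn (fun x : E (m + m) => f (cpx x)) ξ‖ₑ ^ p') +
        ∫⁻ ξ in ⋃ k : ℕ, sh m ((2 : ℝ) ^ k), ‖extn (fun x : E (m + m) => f (cpx x)) ξ‖ₑ ^ p' :=
        lintegral_union_le _ _ _
    _ ≤ M ^ p' * volume (Metric.ball (0 : E (m + m)) 1) +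
        ∑' k : ℕ, C * ENNReal.ofReal (((2 : ℝ) ^ k) ^
          (((m : ℝ) - 1) * (2 - p') + 2 - p' / 2 + -e / 2)) := by
        gcongr
        refine (lintegral_iUnion_le _ _).trans ?_
        exact ENNReal.tsum_le_tsum fun k => H _ (one_le_pow₀ (by norm_num)) ρ0 hρ0 f hf hb
    _ = _ := by
        rw [ENNReal.tsum_mul_left]


end Pool.Agent.HB
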