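import Pool.Agent.HB.RI
import Pool.Agent.HB.RL
import Pool.Agent.HB.RQ

/-!
# Row RT: boundary values of bounded pluriharmonic functions

`base_PH`: let `g` be measurable, `|g| ≤ 1`, with `PH m g`, `F + conj G` the pluriharmonic function.
Replacing `F` by `F + conj (G 0)` and `G` by `G - G 0` we may assume `G 0 = 0`. For `k : ℕ` put
`r_k = 1 - 1/(k+2)` and `F_k z = F (r_k z)`, `G_k z = G (r_k z)`, holomorphic on the ball of radius
`1/r_k > 1`. For every unit vector `ω` the functions `w ↦ F_k (w • cpx ω)`, `w ↦ G_k (w • cpx ω)` satisfy the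
hypotheses of `riesz_four` (row RL) on the disc of radius `1/r_k`, which gives the slice bounds of
`base_hol4` (row RQ) for `F_k` and `G_k`: `∫⁻ ξ, ‖extn (F_k ∘ cpx) ξ‖ₑ ^ p ≤ C`, the same for `G_k`.
`extn (conj h) ξ = conj (extn h (-ξ))` (`integral_conj`), so the same bound holds for `conj G_k` (the
Lebesgue measure is invariant under `ξ ↦ -ξ`, `lintegral_neg_eq_self` or `measurePreserving_neg`), and
`extn ((F_k + conj G_k) ∘ cpx) = extn (F_k ∘ cpx) + extn (conj G_k ∘ cpx)` (integrable: continuous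
on the sphere), so `∫⁻ ξ, ‖extn ((F_k + conj G_k) ∘ cpx) ξ‖ₑ ^ p ≤ 2^(p-1) (C + C)`
(`ENNReal.rpow_add_le_mul_rpow_add_rpow`). Then exactly as in RI.lean (`base_BV`): dominated
convergence (`|F_k + conj G_k| ≤ 1` on the sphere) and Fatou's lemma.
-/

namespace Pool.Agent.HB

open MeasureTheory Set Pool.Agent.MP_6cbfb8_an
open scoped ENNReal Real ComplexConjugate

theorem hrt_extn_conj {n : ℕ} (h : E n → ℂ) (ξ : E n) :
    extn (fun x => conj (h x)) ξ = conj (extn h (-ξ)) := by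
  unfold extn
  rw [← integral_conj]
  refine integral_congr_ae (Filter.Eventually.of_forall fun x => ?_)
  simp only [map_mul, ← Complex.exp_conj, Complex.conj_ofReal, Complex.conj_I, inner_neg_right]
  congr 2
  push_cast
  ring

theorem hrt_cont {m : ℕ} {F : EC m → ℂ} (hF : DifferentiableOn ℂ F (Metric.ball 0 1)) (k : ℕ) :
    Continuous fun x : S (m + m) => hri_f F k (cpx (x : E (m + m))) :=
  (hri_diff hF k).continuousOn.comp_continuous (continuous_cpx.comp continuous_subtype_val)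
    fun x => hri_cpx_mem k x

theorem hrt_exp_cont {n : ℕ} (ξ : E n) : Continuous fun x : S n =>
    Complex.exp (((-(2 * π * inner ℝ (x : E n) ξ) : ℝ) : ℂ) * Complex.I) := by fun_prop

theorem hrt_add {m : ℕ} {F G : EC m → ℂ} (hF : DifferentiableOn ℂ F (Metric.ball 0 1))
    (hG : DifferentiableOn ℂ G (Metric.ball 0 1)) (k : ℕ) (ξ : E (m + m)) :
    extn (fun x : E (m + m) => hri_f F k (cpx x) + conj (hri_f G k (cpx x))) ξ =
      extn (fun x : E (m + m) => hri_f F k (cpx x)) ξ +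
        conj (extn (fun x : E (m + m) => hri_f G k (cpx x)) (-ξ)) := by
  rw [← hrt_extn_conj (fun x : E (m + m) => hri_f G k (cpx x)) ξ]
  unfold extn
  rw [← integral_add]
  · refine integral_congr_ae (Filter.Eventually.of_forall fun x => ?_)
    show (_ + _) * _ = _ * _ + _ * _
    ring
  · exact ((hrt_cont hF k).mul (hrt_exp_cont ξ)).integrable_of_hasCompactSupport
      (HasCompactSupport.of_compactSpace _)
  · exact ((Complex.continuous_conj.comp (hrt_cont hG k)).mul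
      (hrt_exp_cont ξ)).integrable_of_hasCompactSupport (HasCompactSupport.of_compactSpace _)

theorem hrt_lim {m : ℕ} {F G : EC m → ℂ} (hF : DifferentiableOn ℂ F (Metric.ball 0 1))
    (hG : DifferentiableOn ℂ G (Metric.ball 0 1))
    (hb : ∀ z ∈ Metric.ball (0 : EC m) 1, ‖F z + conj (G z)‖ ≤ 1) {g : E (m + m) → ℂ}
    (hlim : ∀ᵐ x : S (m + m) ∂(sm (m + m)),
      Filter.Tendsto (fun r : ℝ => F ((r : ℂ) • cpx (x : E (m + m))) +
        conj (G ((r : ℂ) • cpx (x : E (m + m))))) (nhdsWithin 1 (Iio 1)) (nhds (g x)))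
    (ξ : E (m + m)) :
    Filter.Tendsto (fun k => extn (fun x : E (m + m) => hri_f F k (cpx x) +
      conj (hri_f G k (cpx x))) ξ) Filter.atTop (nhds (extn g ξ)) := by
  unfold extn
  refine tendsto_integral_of_dominated_convergence (fun _ => (1 : ℝ)) (fun k => ?_)
    (integrable_const _) (fun k => ?_) ?_
  · exact (((hrt_cont hF k).add (Complex.continuous_conj.comp (hrt_cont hG k))).mul
      (hrt_exp_cont ξ)).aestronglyMeasurable
  · refine Filter.Eventually.of_forall fun x => ?_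
    rw [norm_mul, Complex.norm_exp_ofReal_mul_I, mul_one]
    exact hb _ (hri_mem k (hri_cpx_mem k x))
  · filter_upwards [hlim] with x hx
    exact (hx.comp hri_tendsto).mul_const _

/-- the slice bounds -/
theorem hrt_slice {m : ℕ} {F G : EC m → ℂ} (hF : DifferentiableOn ℂ F (Metric.ball 0 1))
    (hG : DifferentiableOn ℂ G (Metric.ball 0 1)) (hG0 : G 0 = 0)
    (hb : ∀ z ∈ Metric.ball (0 : EC m) 1, ‖F z + conj (G z)‖ ≤ 1) (k : ℕ) (ω : E (m + m))
    (hω : ‖ω‖ = 1) :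
    ∫⁻ θ in Ioo 0 (2 * π), ‖hri_f F k (Complex.exp ((θ : ℂ) * Complex.I) • cpx ω)‖ₑ ^ (4:ℝ) ≤
        ENNReal.ofReal (156 * π) ∧
      ∫⁻ θ in Ioo 0 (2 * π), ‖hri_f G k (Complex.exp ((θ : ℂ) * Complex.I) • cpx ω)‖ₑ ^ (4:ℝ) ≤
        ENNReal.ofReal (156 * π) := by
  have hmem : ∀ w ∈ Metric.ball (0 : ℂ) (1 / hri_r k),
      w • cpx ω ∈ Metric.ball (0 : EC m) (1 / hri_r k) := by
    intro w hw
    rw [Metric.mem_ball, dist_zero_right] at hw ⊢
    rw [norm_smul, norm_cpx, hω, mul_one]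
    exact hw
  have hd : Differentiable ℂ fun w : ℂ => w • cpx ω := differentiable_id.smul_const (cpx ω)
  refine riesz_four (1 / hri_r k) (hri_one_lt k) (fun w => hri_f F k (w • cpx ω))
    (fun w => hri_f G k (w • cpx ω)) ((hri_diff hF k).comp hd.differentiableOn hmem)
    ((hri_diff hG k).comp hd.differentiableOn hmem) ?_ ?_
  · show G ((hri_r k : ℂ) • ((0 : ℂ) • cpx ω)) = 0
    rw [zero_smul, smul_zero, hG0]
  · intro w hw
    exact hb _ (hri_mem k (hmem w hw))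

theorem hrt_one_le {m : ℕ} (hm : 2 ≤ m) (p : ℝ) (hp : 4 * (m : ℝ) / (2 * m - 1) < p) : 1 ≤ p := by
  have h2 : (2 : ℝ) ≤ m := by exact_mod_cast hm
  refine le_trans ?_ hp.le
  rw [le_div_iff₀ (by linarith)]
  linarith

theorem hrt_bound {m : ℕ} (hm : 2 ≤ m) (p : ℝ) (hp : 4 * (m : ℝ) / (2 * m - 1) < p) :
    ∃ C : ℝ≥0∞, C ≠ ∞ ∧ ∀ F G : EC m → ℂ, DifferentiableOn ℂ F (Metric.ball 0 1) →
      DifferentiableOn ℂ G (Metric.ball 0 1) → G 0 = 0 →
      (∀ z ∈ Metric.ball (0 : EC m) 1, ‖F z + conj (G z)‖ ≤ 1) → ∀ k : ℕ,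
      ∫⁻ ξ, ‖extn (fun x : E (m + m) => hri_f F k (cpx x) + conj (hri_f G k (cpx x))) ξ‖ₑ ^ p ≤
        C := by
  obtain ⟨C, hC, h⟩ := base_hol4 hm p hp
  have hp1 := hrt_one_le hm p hp
  refine ⟨2 ^ (p - 1) * (C + C), ?_, fun F G hF hG hG0 hb k => ?_⟩
  · refine ENNReal.mul_ne_top ?_ (ENNReal.add_ne_top.2 ⟨hC, hC⟩)
    exact ENNReal.rpow_ne_top_of_nonneg (by linarith) (by norm_num)
  · have h1 := h _ (hri_one_lt k) (hri_f F k) (hri_diff hF k)
      fun ω hω => (hrt_slice hF hG hG0 hb k ω hω).1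
    have h2 := h _ (hri_one_lt k) (hri_f G k) (hri_diff hG k)
      fun ω hω => (hrt_slice hF hG hG0 hb k ω hω).2
    have h3 : ∫⁻ ξ, ‖extn (fun x : E (m + m) => hri_f G k (cpx x)) (-ξ)‖ₑ ^ p =
        ∫⁻ ξ, ‖extn (fun x : E (m + m) => hri_f G k (cpx x)) ξ‖ₑ ^ p :=
      lintegral_neg_eq_self (μ := volume)
        (fun ξ : E (m + m) => ‖extn (fun x : E (m + m) => hri_f G k (cpx x)) ξ‖ₑ ^ p)
    calc ∫⁻ ξ, ‖extn (fun x : E (m + m) => hri_f F k (cpx x) + conj (hri_f G k (cpx x))) ξ‖ₑ ^ p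
        ≤ ∫⁻ ξ, 2 ^ (p - 1) * (‖extn (fun x : E (m + m) => hri_f F k (cpx x)) ξ‖ₑ ^ p +
            ‖extn (fun x : E (m + m) => hri_f G k (cpx x)) (-ξ)‖ₑ ^ p) := by
          refine lintegral_mono fun ξ => ?_
          rw [hrt_add hF hG]
          refine le_trans (ENNReal.rpow_le_rpow (enorm_add_le _ _) (by linarith)) ?_
          refine le_trans (ENNReal.rpow_add_le_mul_rpow_add_rpow _ _ hp1) ?_
          gcongr
          exact le_of_eq (RCLike.enorm_conj _)
      _ = 2 ^ (p - 1) * ((∫⁻ ξ, ‖extn (fun x : E (m + m) => hri_f F k (cpx x)) ξ‖ₑ ^ p) +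
            (∫⁻ ξ, ‖extn (fun x : E (m + m) => hri_f G k (cpx x)) (-ξ)‖ₑ ^ p)) := by
          rw [lintegral_const_mul' _ _
            (ENNReal.rpow_ne_top_of_nonneg (by linarith) (by norm_num)),
            lintegral_add_left ((measurable_extn_hol _ (hri_one_lt k) _
              (hri_diff hF k)).enorm.pow_const p)]
      _ ≤ 2 ^ (p - 1) * (C + C) := by
          rw [h3]
          gcongr

theorem hrt_meas {m : ℕ} {F G : EC m → ℂ} (hF : DifferentiableOn ℂ F (Metric.ball 0 1))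
    (hG : DifferentiableOn ℂ G (Metric.ball 0 1)) (k : ℕ) :
    Measurable (extn fun x : E (m + m) => hri_f F k (cpx x) + conj (hri_f G k (cpx x))) := by
  have h1 : (extn fun x : E (m + m) => hri_f F k (cpx x) + conj (hri_f G k (cpx x))) =
      fun ξ => extn (fun x : E (m + m) => hri_f F k (cpx x)) ξ +
        conj (extn (fun x : E (m + m) => hri_f G k (cpx x)) (-ξ)) := by
    funext ξ
    exact hrt_add hF hG k ξ
  rw [h1]
  exact (measurable_extn_hol _ (hri_one_lt k) _ (hri_diff hF k)).add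
    (Complex.continuous_conj.measurable.comp
      ((measurable_extn_hol _ (hri_one_lt k) _ (hri_diff hG k)).comp measurable_neg))

/-- the normalised case -/
theorem hrt_norm {m : ℕ} (p : ℝ) (C : ℝ≥0∞)
    (h : ∀ F G : EC m → ℂ, DifferentiableOn ℂ F (Metric.ball 0 1) →
      DifferentiableOn ℂ G (Metric.ball 0 1) → G 0 = 0 →
      (∀ z ∈ Metric.ball (0 : EC m) 1, ‖F z + conj (G z)‖ ≤ 1) → ∀ k : ℕ,
      ∫⁻ ξ, ‖extn (fun x : E (m + m) => hri_f F k (cpx x) + conj (hri_f G k (cpx x))) ξ‖ₑ ^ p ≤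
        C) {F G : EC m → ℂ} (hF : DifferentiableOn ℂ F (Metric.ball 0 1))
    (hG : DifferentiableOn ℂ G (Metric.ball 0 1)) (hG0 : G 0 = 0)
    (hb : ∀ z ∈ Metric.ball (0 : EC m) 1, ‖F z + conj (G z)‖ ≤ 1) {g : E (m + m) → ℂ}
    (hlim : ∀ᵐ x : S (m + m) ∂(sm (m + m)),
      Filter.Tendsto (fun r : ℝ => F ((r : ℂ) • cpx (x : E (m + m))) +
        conj (G ((r : ℂ) • cpx (x : E (m + m))))) (nhdsWithin 1 (Iio 1)) (nhds (g x))) :
    ∫⁻ ξ, ‖extn g ξ‖ₑ ^ p ≤ C := by
  have h1 : ∀ ξ : E (m + m), Filter.liminf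
      (fun k => ‖extn (fun x : E (m + m) => hri_f F k (cpx x) +
        conj (hri_f G k (cpx x))) ξ‖ₑ ^ p) Filter.atTop =
      ‖extn g ξ‖ₑ ^ p := fun ξ =>
    (((ENNReal.continuous_rpow_const (y := p)).tendsto _).comp
      ((continuous_enorm.tendsto _).comp (hrt_lim hF hG hb hlim ξ))).liminf_eq
  calc ∫⁻ ξ, ‖extn g ξ‖ₑ ^ p
      = ∫⁻ ξ, Filter.liminf
          (fun k => ‖extn (fun x : E (m + m) => hri_f F k (cpx x) +
            conj (hri_f G k (cpx x))) ξ‖ₑ ^ p) Filter.atTop :=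
        lintegral_congr fun ξ => (h1 ξ).symm
    _ ≤ Filter.liminf (fun k => ∫⁻ ξ, ‖extn (fun x : E (m + m) => hri_f F k (cpx x) +
            conj (hri_f G k (cpx x))) ξ‖ₑ ^ p) Filter.atTop :=
        lintegral_liminf_le fun k => (hrt_meas hF hG k).enorm.pow_const p
    _ ≤ Filter.liminf (fun _ : ℕ => C) Filter.atTop :=
        Filter.liminf_le_liminf (Filter.Eventually.of_forall fun k =>
          h F G hF hG hG0 hb k)
    _ = C := Filter.liminf_const C

theorem base_PH {m : ℕ} (hm : 2 ≤ m) (p : ℝ) (hp : 4 * (m : ℝ) / (2 * m - 1) < p) :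
    ∃ C : ℝ≥0∞, C ≠ ∞ ∧ ∀ g : E (m + m) → ℂ, Measurable g → (∀ x, ‖g x‖ ≤ 1) → PH m g →
      ∫⁻ ξ, ‖extn g ξ‖ₑ ^ p ≤ C := by
  obtain ⟨C, hC, h⟩ := hrt_bound hm p hp
  refine ⟨C, hC, fun g _ _ hPH => ?_⟩
  obtain ⟨F, G, hF, hG, hb, hlim⟩ := hPH
  have e : ∀ z : EC m, F z + conj (G 0) + conj (G z - G 0) = F z + conj (G z) := by
    intro z
    rw [map_sub]
    ring
  refine hrt_norm p C h (F := fun z => F z + conj (G 0)) (G := fun z => G z - G 0)
    (hF.add_const _) (hG.sub_const _) (sub_self _) (fun z hz => ?_) ?_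
  · rw [e z]
    exact hb z hz
  · filter_upwards [hlim] with x hx
    refine hx.congr fun r => ?_
    exact (e _).symm

end Pool.Agent.HB
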