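import Pool.Agent.HB.RT
import Pool.Agent.HB.RJ

/-!
# Row RV: cuts and superpositions

`ph_cuts`: the library theorem `multicut` (LiftF.lean) with `n = m + m`, `p0 = 4m/(2m-1)`,
`cls = PH m` and `base_PH`.

`holo`: as in `Pool/Agent/Results/MP_6cbfb8_an/BlockRegularity.lean` (complete proof there, copy it):
`lintegral_mix_le` (Super.lean) with the class
`g = fun x => G x * ∏ i, hsn (c i) (v i) x`, `G` measurable, `|G| ≤ 1`, `PH m G`.
-/

namespace Pool.Agent.HB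

open MeasureTheory Set Pool.Agent.MP_6cbfb8_an
open scoped ENNReal Real ComplexConjugate

theorem ph_cuts {m : ℕ} (hm : 2 ≤ m) (N : ℕ) (p : ℝ) (hp : 4 * (m : ℝ) / (2 * m - 1) < p) :
    ∃ C : ℝ≥0∞, C ≠ ∞ ∧ ∀ g : E (m + m) → ℂ, Measurable g → (∀ x, ‖g x‖ ≤ 1) → PH m g →
      ∀ (v : Fin N → E (m + m)) (c : Fin N → ℝ),
      ∫⁻ ξ, ‖extn (fun x => g x * ∏ i, hsn (c i) (v i) x) ξ‖ₑ ^ p ≤ C := by
  exact multicut (m + m) (by omega) (4 * (m : ℝ) / (2 * m - 1)) (hrj_one hm) (PH m)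
    (fun p' hp' => base_PH hm p' hp') N p hp

theorem pluri {m : ℕ} (hm : 2 ≤ m) (N : ℕ) (p : ℝ) (hp : 4 * (m : ℝ) / (2 * m - 1) < p) :
    ∃ C : ℝ≥0∞, C ≠ ∞ ∧ ∀ (W : Type) (_ : MeasurableSpace W) (ν : Measure W)
      (_ : IsFiniteMeasure ν) (R : W → (E (m + m) ≃ₗᵢ[ℝ] E (m + m))) (η : W → E (m + m))
      (G : W → E (m + m) → ℂ) (v : W → Fin N → E (m + m)) (c : W → Fin N → ℝ),
      (Measurable fun q : W × E (m + m) => R q.1 q.2) → Measurable η →
      (Measurable fun q : W × E (m + m) => G q.1 q.2) → Measurable v → Measurable c →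
      (∀ w x, ‖G w x‖ ≤ 1) → (∀ w, PH m (G w)) →
      ∫⁻ ξ, ‖extn (mix ν R η fun w x => G w x * ∏ i, hsn (c w i) (v w i) x) ξ‖ₑ ^ p ≤
        C * ν univ ^ p := by
  obtain ⟨C, hC, H⟩ := ph_cuts hm N p hp
  refine ⟨C, hC, ?_⟩
  intro W _ ν _ R η G v c hR hη hG hv hc hb hE
  refine lintegral_mix_le ((hrj_one hm).trans hp.le) (fun g => ∃ (G' : E (m + m) → ℂ)
    (v' : Fin N → E (m + m)) (c' : Fin N → ℝ), Measurable G' ∧ (∀ x, ‖G' x‖ ≤ 1) ∧ PH m G' ∧
    g = fun x => G' x * ∏ i, hsn (c' i) (v' i) x) ?_ ν R η _ hR hη ?_ ?_ ?_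
  · rintro g - - ⟨G', v', c', hG', hb', hE', rfl⟩
    exact H G' hG' hb' hE' v' c'
  · have h2 : Measurable fun q : W × E (m + m) => ∏ i, hsn (c q.1 i) (v q.1 i) q.2 := by
      refine Finset.measurable_prod _ fun i _ => ?_
      unfold hsn
      refine Measurable.ite ?_ measurable_const measurable_const
      have h3 : Measurable fun q : W × E (m + m) => c q.1 i :=
        (measurable_pi_iff.1 hc i).comp measurable_fst
      have h4 : Measurable fun q : W × E (m + m) => v q.1 i :=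
        (measurable_pi_iff.1 hv i).comp measurable_fst
      exact measurableSet_lt h3 (measurable_snd.inner h4)
    exact hG.mul h2
  · intro w x
    rw [norm_mul]
    exact mul_le_one₀ (hb w _) (norm_nonneg _) (norm_prod_hsn_le _ _ _)
  · intro w
    exact ⟨G w, v w, c w, hG.comp (f := fun t : E (m + m) => (w, t)) (by fun_prop), hb w, hE w, rfl⟩

end Pool.Agent.HB
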